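import Pool.Agent.Lib.CLC.Posets
import Pool.Agent.Lib.CTF.Trans

/-!
# The projection of the large forcing notion to the final one
-/

namespace CLC

open Cardinal CAT9

/-- The conditions met by a point are directed. -/
@[reducible] noncomputable def ptsDFn {B : Type} [Nonempty B] : CTF.PtsD (Fn B) (ℕ → B) where
  toPts := inferInstance
  dir g h x hg hh := by
    classical
    refine ⟨⟨fun n => if g.1 n = none then h.1 n else g.1 n, ?_⟩, ?_, ?_, ?_⟩
    · refine (g.2.union h.2).subset fun n hn => ?_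
      by_cases hg : g.1 n = none
      · exact Or.inr (by simpa [hg] using hn)
      · exact Or.inl hg
    · intro n b hb
      simp [hb]
    · intro n b hb
      change (if g.1 n = none then h.1 n else g.1 n) = some b
      by_cases hgn : g.1 n = none
      · rw [if_pos hgn, hb]
      · rw [if_neg hgn]
        obtain ⟨b', hb'⟩ := Option.ne_none_iff_exists'.1 hgn
        rw [hb', ← hg n b' hb', ← hh n b hb]
    · intro n b hb
      change (if g.1 n = none then h.1 n else g.1 n) = some b at hb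
      by_cases hgn : g.1 n = none
      · rw [if_pos hgn] at hb
        exact hh n b hb
      · rw [if_neg hgn] at hb
        exact hg n b hb

/-- If `p1` extends `q` at the points of `k`, there is an extension of `q` which looks like `p1` at
these points. -/
theorem transplantC {B L M : Type} [Nonempty B] [LinearOrder L] [hA : Amb L M] (k : Fn B)
    (q : QQ (Fn B × AddOmega) L M ((ℕ → B) × (ℕ → Bool)))
    (p1 : Cond (Fn B × AddOmega) L M ((ℕ → B) × (ℕ → Bool))) (h1 : q.p.ht ≤ p1.ht)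
    (h2 : ∀ a, a ≤ q.p.ht → ∀ i, ∀ u ∈ Pts.cy (X := ℕ → B) k, ∀ c ξ,
      p1.t a i (u, c) ξ = q.p.t a i (u, c) ξ) :
    ∃ q', q' ≤ q ∧ q'.p.ht = p1.ht ∧ ∀ a i, ∀ u ∈ Pts.cy (X := ℕ → B) k, ∀ c ξ,
      q'.p.t a i (u, c) ξ = p1.t a i (u, c) ξ := by
  obtain ⟨q', h3, h4, h5⟩ := @CTF.transplant' (Fn B) (ℕ → B) L M _ _ ptsDFn hA k q p1
    ⟨h1, fun a ha i x hx => by
    funext ξ
    exact h2 a ha i x.1 hx x.2 ξ⟩
  exact ⟨q', h3, h4, fun a i u hu c ξ => congrFun (h5 a i (u, c) hu) ξ⟩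

section

variable (κ : ℕ → Cardinal.{0})

/-- The projection of a single coordinate. -/
theorem isProj1 (a : Nod (κ 0)) (hA : Amb (Lev (nu κ)) (Nod (nu κ))) {W : Type} [Preorder W] :
    IsProj (fun z : QA κ a × KK κ a × W => ((⟨z.2.1, z.1.p⟩, z.2.2) : KPA κ a × W)) where
  mono p q h := ⟨⟨h.2.1, h.1.1.1, fun b hb i u _ c ξ => by
    change q.1.p.t b i (u, c) ξ = p.1.p.t b i (u, c) ξ
    rw [h.1.1.2 b hb]⟩, h.2.2⟩
  lift := by
    rintro ⟨q, k, w⟩ ⟨⟨k', p'⟩, w'⟩ ⟨⟨h1, h2, h3⟩, h4⟩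
    obtain ⟨q', h5, h6, h7⟩ := transplantC k' q p' h2 h3
    exact ⟨(q', k', w'), ⟨h5, h1, h4⟩, ⟨le_rfl, h6.ge, fun b _ i u hu c ξ => h7 b i u hu c ξ⟩,
      le_rfl⟩

theorem isProj' (hA : Amb (Lev (nu κ)) (Nod (nu κ))) (a : Nod (κ 0)) : IsProj (proj κ a) where
  mono p q h := (isProj1 κ a hA (W := WW κ a)).mono (p.1 a, p.2) (q.1 a, q.2) ⟨h.1 a, h.2⟩
  lift := by
    classical
    rintro ⟨d, k, w⟩ r hr
    obtain ⟨⟨q', k', w'⟩, ⟨h1, h2⟩, h3⟩ := (isProj1 κ a hA (W := WW κ a)).lift (d a, k, w) r hr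
    refine ⟨(Function.update d a q', k', w'), ⟨fun b => ?_, h2⟩, ?_⟩
    · change Function.update d a q' b ≤ d b
      by_cases hb : b = a
      · subst hb
        rw [Function.update_self]
        exact h1
      · rw [Function.update_of_ne hb]
    · refine le_trans (le_of_eq ?_) h3
      change ((⟨k', (Function.update d a q' a).p⟩, w') : PP κ a) = (⟨k', q'.p⟩, w')
      rw [Function.update_self]

end

end CLC
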