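import Pool.Agent.Lib.CLC.Fus
import Pool.Agent.Lib.FTP.Spec

/-!
# The supremum is a strong limit in the extension
-/

namespace CLC

open Cardinal CAT9

section

variable {K C M : Type} [Preorder K] [Preorder C] {D : ℕ → Type} [∀ j, Preorder (D j)]
  {κ : ℕ → Cardinal.{0}}

/-- The name for a subset of `I` given by a relation between the elements of `I` and the small
parts of the conditions. -/
def smallName {P I : Type} [Preorder P] (sm : P → K × (C × ((j : ℕ) → D j))) (m : ℕ)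
    (R : Set (I × K × C × ((j : {j // j < m}) → D j.1))) : FTP.SetName P I where
  In r i := ∀ s, s ≤ r → ∃ t, t ≤ s ∧ ∃ k c f, (i, k, c, f) ∈ R ∧ (sm t).1 ≤ k ∧
    (sm t).2.1 ≤ c ∧ loF m (sm t).2.2 ≤ f
  mono q r a hr h s hs := h s (hs.trans hr)
  dense q a h s hs := by
    obtain ⟨t, ht, h'⟩ := h s hs
    obtain ⟨u, hu, h''⟩ := h' t le_rfl
    exact ⟨u, hu.trans ht, h''⟩

theorem loF_glF {D : ℕ → Type} (m : ℕ) (f : (j : {j // j < m}) → D j.1)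
    (e : (j : {j // m ≤ j}) → D j.1) : loF m (glF m f e) = f := by
  funext j
  exact gl_lt j.2

theorem exists_smallName (hκ : Monotone κ) (h0 : ℵ₀ ≤ κ 0) (hM : ∀ n, κ n ≤ #M)
    (hK : #K ≤ κ 0) (hC : #C ≤ κ 0) (hD : ∀ j, #(D j) ≤ κ (j + 1))
    (hcl : ∀ j, DirectedClosed (κ j) (D j)) {Q P : Type} [Preorder Q] [Preorder P]
    (hQ : DirectedClosed #M Q) {π : K × (C × ((j : ℕ) → D j)) × Q → P} (hπ : IsProj π)
    (hπ' : ∀ p, ∃ z, π z ≤ p) (sm : P → K × (C × ((j : ℕ) → D j)))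
    (hsm : ∀ p q, q ≤ p → sm q ≤ sm p) (hsm' : ∀ k w q, sm (π (k, w, q)) = (k, w))
    {I : Type} (m : ℕ) (hI : #I ≤ κ m) (X : FTP.SetName P I) (p : P) :
    ∃ q, q ≤ p ∧ ∃ R, ∀ r, r ≤ q → ∀ i, (X.In r i ↔ (smallName sm m R).In r i) := by
  classical
  obtain ⟨⟨k0, ⟨c0, e0⟩, z0⟩, hz0⟩ := hπ' p
  obtain ⟨z1, e1, hz1, he1, heq, hst⟩ := fusion_stage hκ h0 hM hK hC hD hcl hQ m hI
    (fun i k w z => X.In (π (k, w, z)) i ∨ ∀ r, r ≤ π (k, w, z) → ¬ X.In r i)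
    (by
      rintro i k w z k' w' z' hk hw hz (h | h)
      · exact Or.inl (X.mono _ _ _ (hπ.mono _ _ ⟨hk, hw, hz⟩) h)
      · exact Or.inr fun r hr => h r (hr.trans (hπ.mono _ _ ⟨hk, hw, hz⟩)))
    k0 c0 e0 z0 (by
      intro i k w z _ _ _
      by_cases h : ∃ r, r ≤ π (k, w, z) ∧ X.In r i
      · obtain ⟨r, hr, hX⟩ := h
        obtain ⟨⟨k', w', z'⟩, hle, hr'⟩ := hπ.lift _ _ hr
        exact ⟨k', w', z', hle.1, hle.2.1, hle.2.2, Or.inl (X.mono _ _ _ hr' hX)⟩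
      · push Not at h
        exact ⟨k, w, z, le_rfl, le_rfl, le_rfl, Or.inr h⟩) z0 e0 le_rfl le_rfl
  have hlo : loF m e1 = loF m e0 := by
    funext j
    exact heq j.1 j.2
  let R : Set (I × K × C × ((j : {j // j < m}) → D j.1)) :=
    {x | X.In (π (x.2.1, (x.2.2.1, glF m x.2.2.2 (hiF m e1)), z1)) x.1}
  have hle0 : π (k0, (c0, e1), z1) ≤ π (k0, (c0, e0), z0) :=
    hπ.mono _ _ ⟨le_rfl, ⟨le_rfl, he1⟩, hz1⟩
  refine ⟨π (k0, (c0, e1), z1), hle0.trans hz0, R, fun r hr i => ⟨fun hX s hs => ?_, fun hN => ?_⟩⟩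
  · obtain ⟨⟨k, ⟨c, e⟩, z⟩, hle, hs'⟩ := hπ.lift _ _ (hs.trans hr)
    have hle1 : e ≤ e1 := hle.2.1.2
    obtain ⟨k', c', f', h1, h2, h3, h4⟩ := hst i k c (loF m e) hle.1 hle.2.1.1 (by
      rw [← hlo]
      exact fun j => hle1 j.1)
    have h5 : glF m f' (hiF m e) ≤ e := by
      refine (gl_mono h3 le_rfl).trans ?_
      rw [glF_lo_hi]
    have h6 : glF m f' (hiF m e) ≤ glF m f' (hiF m e1) := gl_mono le_rfl fun j => hle1 j.1
    have h7 : π (k', (c', glF m f' (hiF m e)), z) ≤ π (k, (c, e), z) :=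
      hπ.mono _ _ ⟨h1, ⟨h2, h5⟩, le_rfl⟩
    have h8 : π (k', (c', glF m f' (hiF m e)), z) ≤ π (k', (c', glF m f' (hiF m e1)), z1) :=
      hπ.mono _ _ ⟨le_rfl, ⟨le_rfl, h6⟩, hle.2.2⟩
    have h9 : (i, k', c', f') ∈ R := by
      rcases h4 with h4 | h4
      · exact h4
      · exact absurd (X.mono _ _ _ ((h7.trans hs').trans hs) hX) (h4 _ h8)
    refine ⟨_, h7.trans hs', k', c', f', h9, ?_⟩
    rw [hsm']
    refine ⟨le_rfl, le_rfl, ?_⟩
    rw [loF_glF]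
  · refine X.dense _ _ fun s hs => ?_
    obtain ⟨t, ht, k, c, f, hR, h1, h2, h3⟩ := hN s hs
    obtain ⟨⟨k1, ⟨c1, e2⟩, z2⟩, hle, ht'⟩ := hπ.lift _ _ (ht.trans (hs.trans hr))
    have h4 := hsm _ _ ht'
    rw [hsm'] at h4
    have h5 : loF m e2 ≤ f := le_trans (fun j => h4.2.2 j.1) h3
    have hle1 : e2 ≤ e1 := hle.2.1.2
    have h6 : e2 ≤ glF m f (hiF m e1) := by
      have h7 : glF m (loF m e2) (hiF m e2) ≤ glF m f (hiF m e1) := gl_mono h5 fun j => hle1 j.1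
      rwa [glF_lo_hi] at h7
    have h8 : π (k1, (c1, e2), z2) ≤ π (k, (c, glF m f (hiF m e1)), z1) :=
      hπ.mono _ _ ⟨h4.1.trans h1, ⟨h4.2.1.trans h2, h6⟩, hle.2.2⟩
    exact ⟨_, ht'.trans ht, X.mono _ _ _ h8 hR⟩

theorem forcesStrongLimit (hκ : Monotone κ) (h0 : ℵ₀ ≤ κ 0) (hM : ∀ n, κ n ≤ #M)
    (hsl : ∀ n, (2 : Cardinal.{0}) ^ κ n < κ (n + 1))
    (hK : #K ≤ κ 0) (hC : #C ≤ κ 0) (hD : ∀ j, #(D j) ≤ κ (j + 1))
    (hcl : ∀ j, DirectedClosed (κ j) (D j)) {Q P : Type} [Preorder Q] [Preorder P]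
    (hQ : DirectedClosed #M Q) {π : K × (C × ((j : ℕ) → D j)) × Q → P} (hπ : IsProj π)
    (hπ' : ∀ p, ∃ z, π z ≤ p) (sm : P → K × (C × ((j : ℕ) → D j)))
    (hsm : ∀ p q, q ≤ p → sm q ≤ sm p) (hsm' : ∀ k w q, sm (π (k, w, q)) = (k, w)) :
    FTP.ForcesStrongLimit P (⨆ n, κ n) := by
  classical
  intro ρ hρ
  have hb : BddAbove (Set.range κ) := Cardinal.bddAbove_of_small
  have hinf : ∀ n, ℵ₀ ≤ κ n := fun n => h0.trans (hκ (Nat.zero_le n))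
  obtain ⟨m, hm⟩ : ∃ m, ρ < κ m := exists_lt_of_lt_ciSup hρ
  have hI : #(ρ.ord.ToType) ≤ κ m := by
    rw [mk_ord_toType]
    exact hm.le
  refine ⟨2 ^ κ m, (hsl m).trans_le (le_ciSup hb (m + 1)), ?_⟩
  have hR : #(Set (ρ.ord.ToType × K × C × ((j : {j // j < m}) → D j.1))) ≤
      #(((2 : Cardinal.{0}) ^ κ m).ord.ToType) := by
    rw [Cardinal.mk_set, mk_ord_toType]
    refine Cardinal.power_le_power_left two_ne_zero ?_
    have h1 : #((j : {j // j < m}) → D j.1) ≤ κ m :=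
      mk_finpi_le (hinf m) fun j => (hD j.1).trans (hκ j.2)
    have h2 : #K ≤ κ m := hK.trans (hκ (Nat.zero_le m))
    have h3 : #C ≤ κ m := hC.trans (hκ (Nat.zero_le m))
    simp only [Cardinal.mk_prod, Cardinal.lift_id]
    refine (mul_le_mul' hI (mul_le_mul' h2 (mul_le_mul' h3 h1))).trans ?_
    rw [Cardinal.mul_eq_self (hinf m), Cardinal.mul_eq_self (hinf m),
      Cardinal.mul_eq_self (hinf m)]
  obtain ⟨φ⟩ := (Cardinal.le_def _ _).1 hR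
  refine ⟨fun t => smallName sm m (Function.invFun φ t), fun X p => ?_⟩
  obtain ⟨q, hq, R, h⟩ := exists_smallName hκ h0 hM hK hC hD hcl hQ hπ hπ' sm hsm hsm' m hI X p
  refine ⟨q, hq, φ R, fun r hr i => ?_⟩
  have h1 : Function.invFun φ (φ R) = R := Function.leftInverse_invFun φ.injective R
  change X.In r i ↔ (smallName sm m (Function.invFun φ (φ R))).In r i
  rw [h1]
  exact h r hr i

end

end CLC
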