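import Pool.Agent.Lib.CLC.Col
import Pool.Agent.Lib.CAT9.Main

/-!
# The forcing notions
-/

namespace CLC

open Cardinal CAT9

/-- Finite partial functions from the natural numbers to `B`. -/
def Fn (B : Type) : Type := {f : ℕ → Option B // {n | f n ≠ none}.Finite}

instance (B : Type) : Preorder (Fn B) where
  le g f := ∀ n b, f.1 n = some b → g.1 n = some b
  le_refl := fun _ _ _ h => h
  le_trans := fun _ _ _ h1 h2 n b h => h1 n b (h2 n b h)

noncomputable instance {B : Type} [Nonempty B] : Pts (Fn B) (ℕ → B) where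
  cy f := {c | ∀ n b, f.1 n = some b → c n = b}
  cy_mono _ _ h _ hc n b hb := hc n b (h n b hb)
  cy_ne f := ⟨fun n => (f.1 n).getD (Classical.arbitrary B), fun n b hb => by simp [hb]⟩

instance {K H Y Z : Type} [Preorder K] [Preorder H] [Pts K Y] [Pts H Z] :
    Pts (K × H) (Y × Z) where
  cy g := Pts.cy g.1 ×ˢ Pts.cy g.2
  cy_mono _ _ h := Set.prod_mono (Pts.cy_mono _ _ h.1) (Pts.cy_mono _ _ h.2)
  cy_ne g := (Pts.cy_ne g.1).prod (Pts.cy_ne g.2)

/-- The conditions `(k, p)`, where `p` is a `K`-name for a condition; only the values of `p` at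
the points of `k` matter. -/
structure KP (K H L M Y Z : Type) [LinearOrder L] [Preorder K] [Preorder H] [Pts K Y]
    [Pts H Z] where
  /-- the condition in `K` -/
  k : K
  /-- the name for a condition -/
  p : Cond (K × H) L M (Y × Z)

instance {K H L M Y Z : Type} [LinearOrder L] [Preorder K] [Preorder H] [Pts K Y]
    [Pts H Z] : Preorder (KP K H L M Y Z) where
  le s' s := s'.k ≤ s.k ∧ s.p.ht ≤ s'.p.ht ∧ ∀ a, a ≤ s.p.ht → ∀ i, ∀ u ∈ Pts.cy (X := Y) s'.k,
    ∀ c ξ, s'.p.t a i (u, c) ξ = s.p.t a i (u, c) ξ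
  le_refl := fun _ => ⟨le_rfl, le_rfl, fun _ _ _ _ _ _ _ => rfl⟩
  le_trans := fun _ _ _ h1 h2 => ⟨h1.1.trans h2.1, h2.2.1.trans h1.2.1, fun a ha i u hu c ξ =>
    (h1.2.2 a (ha.trans h2.2.1) i u hu c ξ).trans
      (h2.2.2 a ha i u (Pts.cy_mono _ _ h1.1 hu) c ξ)⟩

/-- A projection between forcing notions. -/
structure IsProj {P' P : Type} [Preorder P'] [Preorder P] (π : P' → P) : Prop where
  mono : ∀ p q, q ≤ p → π q ≤ π p
  lift : ∀ p' q, q ≤ π p' → ∃ q', q' ≤ p' ∧ π q' ≤ q

/-- The same tree, seen as a name for the larger forcing notion. -/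
def pullT {P' P L M : Type} [Preorder P'] [Preorder P] [LinearOrder L] (T : TreeName P L M)
    (π : P' → P) (h : IsProj π) : TreeName P' L M where
  R p x y := T.R (π p) x y
  mono p q x y hq hR := T.mono _ _ _ _ (h.mono p q hq) hR
  dense p x y hd := T.dense _ _ _ fun q hq => by
    obtain ⟨q', hq', hπ⟩ := h.lift p q hq
    obtain ⟨r, hr, hR⟩ := hd q' hq'
    exact ⟨π r, (h.mono _ _ hr).trans hπ, hR⟩
  lt p x y := T.lt _ _ _
  trans p x y z := T.trans _ _ _ _
  tree p x y z := T.tree _ _ _ _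
  uniq p a i j z := T.uniq _ _ _ _ _
  pred p y a ha := by
    obtain ⟨q, hq, i, hi⟩ := T.pred (π p) y a ha
    obtain ⟨q', hq', hπ⟩ := h.lift p q hq
    exact ⟨q', hq', i, T.mono _ _ _ _ hπ hi⟩

/-- A factorisation of a forcing notion into a small one and one closed for `σ` steps. -/
structure Fact (σ : Cardinal.{0}) (W : Type) [Preorder W] where
  /-- the small part -/
  S : Type
  /-- the closed part -/
  E : Type
  /-- order of the small part -/
  pS : Preorder S
  /-- order of the closed part -/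
  pE : Preorder E
  small : #S ≤ σ
  closed : DirectedClosed σ E
  /-- the isomorphism -/
  iso : W ≃o S × E

section

variable (κ : ℕ → Cardinal.{0})

/-- The supremum of the cardinals. -/
noncomputable def nu : Cardinal.{0} := ⨆ n, κ n

/-- The infinite cardinals below `κ 0`, indexed by the ordinals below `κ 0`. -/
noncomputable def mu (a : Nod (κ 0)) : Cardinal.{0} := max ℵ₀ #{b // b < a}

/-- The collapse of `mu a` to `ω`. -/
abbrev KK (a : Nod (κ 0)) : Type := Fn (Nod (mu κ a))

/-- The collapse of the cardinals between `(mu a)⁺` and `κ 0`. -/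
abbrev CC (a : Nod (κ 0)) : Type :=
  Col (mu κ a) (Nod (κ 0)) (Nod (Order.succ (mu κ a)))

/-- The collapse of the cardinals between `(κ j)⁺⁺` and `κ (j + 1)`. -/
abbrev CJ (j : ℕ) : Type :=
  Col (Order.succ (κ j)) (Nod (κ (j + 1))) (Nod (Order.succ (Order.succ (κ j))))

/-- The product of the collapses `CJ j`. -/
abbrev EE0 : Type := (j : ℕ) → CJ κ j

/-- The closed part. -/
abbrev WW (a : Nod (κ 0)) : Type := CC κ a × EE0 κ

instance (a : Nod (κ 0)) : Nonempty (Nod (mu κ a)) := by
  rw [← Cardinal.mk_ne_zero_iff, mk_ord_toType]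
  exact (Cardinal.aleph0_pos.trans_le (le_max_left _ _)).ne'

/-- The points. -/
abbrev XX (a : Nod (κ 0)) : Type := (ℕ → Nod (mu κ a)) × (ℕ → Bool)

/-- Names for conditions together with a node of the last level. -/
abbrev QA (a : Nod (κ 0)) : Type :=
  QQ (KK κ a × AddOmega) (Lev (nu κ)) (Nod (nu κ)) (XX κ a)

/-- The product over all `a`. -/
abbrev DD : Type := (a : Nod (κ 0)) → QA κ a

/-- The names for conditions with the local order. -/
abbrev KPA (a : Nod (κ 0)) : Type :=
  KP (KK κ a) AddOmega (Lev (nu κ)) (Nod (nu κ)) (ℕ → Nod (mu κ a)) (ℕ → Bool)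

/-- The final forcing notion (to be restricted to a cone). -/
abbrev PP (a : Nod (κ 0)) : Type := KPA κ a × WW κ a

/-- The large forcing notion. -/
abbrev BB (a : Nod (κ 0)) : Type := DD κ × (KK κ a × WW κ a)

/-- The projection. -/
noncomputable def proj (a : Nod (κ 0)) (z : BB κ a) : PP κ a := (⟨z.2.1, (z.1 a).p⟩, z.2.2)

end

end CLC
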