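import Pool.Agent.Lib.CLC.CardSucc
import Pool.Agent.Lib.CLC.StrongLim
import Pool.Agent.Lib.CLC.IsProjC
import Pool.Agent.Lib.CTF.Sizes

/-!
# Fusion, bounds and the cardinals for the final forcing notion
-/

namespace CLC

open Cardinal CAT9

section

variable {κ : ℕ → Cardinal.{0}}

theorem dd_closed (h0 : ℵ₀ ≤ κ 0) : DirectedClosed #(Nod (nu κ)) (DD κ) := by
  have := CTF.amb_nu h0
  exact directed_pi fun a => qq_closed

theorem le_mk_nod (n : ℕ) : κ n ≤ #(Nod (nu κ)) := by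
  rw [mk_ord_toType]
  exact CTF.le_nu κ n

/-- Fusion for the factors of the final forcing notion. -/
theorem fusionPP (hκ : StrictMono κ) (hin : ∀ n, (κ n).IsInaccessible) (a : Nod (κ 0)) :
    Fusion (KK κ a) (WW κ a) (Nod (nu κ)) := by
  have h0 := (hin 0).aleph0_lt
  obtain ⟨rk, hrk⟩ := CTF.exists_pieces' hκ h0.le
  exact fusion hκ.monotone h0.le le_mk_nod rk hrk ((CTF.mk_KK_le a).trans (CTF.mu_lt h0 a).le)
    (CTF.mk_CC_le hin a) (CTF.mk_CJ_le hκ hin) fun j => CTF.cj_closed hκ h0.le le_rfl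

theorem fusion_unit (hκ : StrictMono κ) (hin : ∀ n, (κ n).IsInaccessible) :
    Fusion Unit (EE0 κ) (Nod (nu κ)) := by
  have h0 := (hin 0).aleph0_lt
  have hu : #Unit ≤ κ 0 := by
    rw [Cardinal.mk_unit]
    exact Cardinal.one_le_aleph0.trans h0.le
  obtain ⟨rk, hrk⟩ := CTF.exists_pieces' hκ h0.le
  exact (fusion hκ.monotone h0.le le_mk_nod rk hrk hu hu (CTF.mk_CJ_le hκ hin)
    fun j => CTF.cj_closed hκ h0.le le_rfl).unit

/-- Names for functions from `ν` to `ν⁺` in the extension by `DD × EE0` are bounded. -/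
theorem bddNames_DD_EE0 (hκ : StrictMono κ) (hin : ∀ n, (κ n).IsInaccessible) :
    BddNames (DD κ × EE0 κ) (Lev (nu κ)) (Nod (nu κ)) := by
  have := CTF.amb_nu (hin 0).aleph0_lt.le
  exact bddNames_prod (fusion_unit hκ hin) (dd_closed (hin 0).aleph0_lt.le)

/-- The projection of the product onto the final forcing notion. -/
noncomputable def piPP (a : Nod (κ 0)) (z : KK κ a × WW κ a × DD κ) : PP κ a :=
  proj κ a (z.2.2, (z.1, z.2.1))

theorem piPP_isProj (h0 : ℵ₀ ≤ κ 0) (a : Nod (κ 0)) : IsProj (piPP (κ := κ) a) where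
  mono p q h := (isProj' κ (CTF.amb_nu h0) a).mono (p.2.2, (p.1, p.2.1)) (q.2.2, (q.1, q.2.1))
    ⟨h.2.2, h.1, h.2.1⟩
  lift p q h := by
    obtain ⟨⟨d, k, w⟩, hle, h'⟩ := (isProj' κ (CTF.amb_nu h0) a).lift (p.2.2, (p.1, p.2.1)) q h
    exact ⟨(k, w, d), ⟨hle.2.1, hle.2.2, hle.1⟩, h'⟩

theorem piPP_dense (h0 : ℵ₀ ≤ κ 0) (a : Nod (κ 0)) (p : PP κ a) :
    ∃ z, piPP a z ≤ p := by
  classical
  have := CTF.amb_nu h0
  obtain ⟨⟨k, p⟩, w⟩ := p
  have hne : ∀ b, Nonempty (QA κ b) := fun b => fam_nonempty Unit (fun _ _ => ∅)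
  obtain ⟨y, hy⟩ := exists_mem p
  refine ⟨(k, w, Function.update (fun b => (hne b).some) a (mkQ p y hy)), ?_⟩
  refine le_of_eq ?_
  change ((⟨k, (Function.update (fun b => (hne b).some) a (mkQ p y hy) a).p⟩, w) : PP κ a) = _
  rw [Function.update_self]
  rfl

/-- The final forcing notion preserves the successor of the supremum. -/
theorem forcesCard_succ_PP (hκ : StrictMono κ) (hin : ∀ n, (κ n).IsInaccessible)
    (a : Nod (κ 0)) : FTP.ForcesCard (PP κ a) (Order.succ (nu κ)) := by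
  have h0 := (hin 0).aleph0_lt.le
  exact forcesCard_succ (h0.trans (CTF.le_nu κ 0)) (fusionPP hκ hin a) (dd_closed h0)
    (piPP_isProj h0 a) (piPP_dense h0 a)

/-- In the extension by the final forcing notion, the supremum is a strong limit. -/
theorem forcesStrongLimit_PP (hκ : StrictMono κ) (hin : ∀ n, (κ n).IsInaccessible)
    (a : Nod (κ 0)) : FTP.ForcesStrongLimit (PP κ a) (nu κ) := by
  have h0 := (hin 0).aleph0_lt
  exact forcesStrongLimit hκ.monotone h0.le le_mk_nod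
    (fun n => (hin (n + 1)).isStrongLimit.two_power_lt (hκ (Nat.lt_succ_self n)))
    ((CTF.mk_KK_le a).trans (CTF.mu_lt h0 a).le)
    (CTF.mk_CC_le hin a) (CTF.mk_CJ_le hκ hin) (fun j => CTF.cj_closed hκ h0.le le_rfl)
    (dd_closed h0.le) (piPP_isProj h0.le a) (piPP_dense h0.le a)
    (fun p => (p.1.k, p.2)) (fun _ _ h => ⟨h.1.1, h.2⟩) fun _ _ _ => rfl

end

end CLC
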