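import Pool.Agent.Lib.CLC.Cards
import Pool.Agent.Lib.CLC.CardPP

/-!
# The supremum is `ℵ_ω` in the extension by the final forcing notion
-/

namespace CLC

open Cardinal CAT9

theorem forcesAlephOmega_PP {κ : ℕ → Cardinal.{0}} (hκ : StrictMono κ)
    (hin : ∀ n, (κ n).IsInaccessible) (a : Nod (κ 0)) :
    FTP.ForcesAlephOmega (PP κ a) (nu κ) := by
  refine ⟨Crd.cards_preserved hκ hin a fun n => ?_, Crd.cards_collapsed hκ hin a,
    forcesCard_succ_PP hκ hin a⟩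
  have h0 : ℵ₀ ≤ κ n := (hin n).aleph0_lt.le
  have h1 : κ 0 ≤ κ n := hκ.monotone (Nat.zero_le n)
  have h2 : #(Elt κ n) ≤ κ n := mk_finpi_le h0 fun j =>
    (CTF.mk_CJ_le hκ hin j.1).trans (hκ.monotone j.2)
  rw [mk_prod, mk_prod]
  simp only [lift_id]
  refine (mul_le_mul' (((CTF.mk_KK_le a).trans (CTF.mu_lt (hin 0).aleph0_lt a).le).trans h1)
    (mul_le_mul' ((CTF.mk_CC_le hin a).trans h1) h2)).trans ?_
  rw [mul_eq_self h0, mul_eq_self h0]

end CLC
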