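import Pool.Agent.Lib.CLC.LemP

/-!
# A coherent family of coverings
-/

namespace CLC

open Cardinal CAT9

section

variable {κ δ : Cardinal.{0}} {A D L E : Type} [LinearOrder A] [Preorder E] [LinearOrder L]
  {F I N : Type} [Preorder F] {U : UltName κ E L}
  {R : NSys E F (Col δ A D) I L N} {hδ : ℵ₀ ≤ δ} {ι : A → L} {γ : PK κ L → ENm E L}

/-- No two names below `h` can be separated. -/
def Bad (U : UltName κ E L) (R : NSys E F (Col δ A D) I L N) (hδ : ℵ₀ ≤ δ) (ι : A → L)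
    (γ : PK κ L → ENm E L) (e : E) (f : F) (c : Col δ A D)
    (h : PK κ L → ENm E (Col δ A D)) (i : I) (ζ : N) : Prop :=
  ∀ e' f' c' h0 h1 α, e' ≤ e → f' ≤ f → c' ≤ c →
      leA U e' h0 h → leA U e' h1 h → ¬ Done U R hδ ι γ e' f' c' h0 h1 i ζ α

/-- Some name below `h` covers the node. -/
def Cover (U : UltName κ E L) (R : NSys E F (Col δ A D) I L N) (hδ : ℵ₀ ≤ δ) (ι : A → L)
    (γ : PK κ L → ENm E L) (h : PK κ L → ENm E (Col δ A D)) (i : I) (ζ : N)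
    (e : E) (f : F) (c : Col δ A D) (α : L) (ξ : N) : Prop :=
  ∃ h', leA U e h' h ∧ Cov U R hδ ι γ e f c h' α ξ i ζ

variable {e0 : E} {f0 : F} {c0 : Col δ A D} {h : PK κ L → ENm E (Col δ A D)} {i : I} {ζ : N}

theorem Cover.mono (hκ : ℵ₀ < κ) {e e' : E} {f f' : F} {c c' : Col δ A D} {α : L} {ξ : N}
    (hC : Cover U R hδ ι γ h i ζ e f c α ξ) (he : e' ≤ e) (hf : f' ≤ f) (hc : c' ≤ c) :
    Cover U R hδ ι γ h i ζ e' f' c' α ξ := by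
  obtain ⟨h', hh, hC⟩ := hC
  exact ⟨h', hh.mono he, hC.mono hκ he hf hc (leA.refl _ _)⟩

/-- Two nodes which are covered have a common covered node above. -/
theorem Bad.common (hκ : ℵ₀ < κ) (hδκ : δ < κ) (hb : Bad U R hδ ι γ e0 f0 c0 h i ζ)
    {e : E} {f : F} {c : Col δ A D} (he : e ≤ e0) (hf : f ≤ f0) (hc : c ≤ c0)
    {α β : L} {ξ η : N} (h1 : Cover U R hδ ι γ h i ζ e f c α ξ)
    (h2 : Cover U R hδ ι γ h i ζ e f c β η) :
    ∃ e' f' c', e' ≤ e ∧ f' ≤ f ∧ c' ≤ c ∧ ∃ z, R.R e' f' c' i (α, ξ) z ∧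
      R.R e' f' c' i (β, η) z := by
  obtain ⟨h0, hh0, hC0⟩ := h1
  obtain ⟨h1, hh1, hC1⟩ := h2
  have hnd := hb e f c h0 h1 (max α β) he hf hc hh0 hh1
  unfold Done at hnd
  push Not at hnd
  obtain ⟨e', f', c', h0', h1', he', hf', hc', hh0', hh1', β', ξ', hβ, hC2, hC3⟩ := hnd
  refine ⟨e', f', c', he', hf', hc', (β', ξ'), ?_, ?_⟩
  · exact Cov.coh hκ hδκ (hC0.mono hκ he' hf' hc' hh0') hC2 ((le_max_left _ _).trans_lt hβ)
  · exact Cov.coh hκ hδκ (hC1.mono hκ he' hf' hc' hh1') hC3 ((le_max_right _ _).trans_lt hβ)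

theorem Bad.coh (hκ : ℵ₀ < κ) (hδκ : δ < κ) (hb : Bad U R hδ ι γ e0 f0 c0 h i ζ)
    {e : E} {f : F} {c : Col δ A D} (he : e ≤ e0) (hf : f ≤ f0) (hc : c ≤ c0)
    {α β : L} {ξ η : N} (h1 : Cover U R hδ ι γ h i ζ e f c α ξ)
    (h2 : Cover U R hδ ι γ h i ζ e f c β η) (hαβ : α < β) : R.R e f c i (α, ξ) (β, η) := by
  refine R.dense fun e' f' c' he' hf' hc' => ?_
  obtain ⟨e'', f'', c'', h3, h4, h5, z, h6, h7⟩ := hb.common hκ hδκ (he'.trans he) (hf'.trans hf)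
    (LE.le.trans hc' hc) (h1.mono hκ he' hf' hc') (h2.mono hκ he' hf' hc')
  exact ⟨e'', f'', c'', h3, h4, h5, R.tree h6 h7 hαβ⟩

theorem Bad.uniq (hκ : ℵ₀ < κ) (hδκ : δ < κ) (hb : Bad U R hδ ι γ e0 f0 c0 h i ζ)
    {e : E} {f : F} {c : Col δ A D} (he : e ≤ e0) (hf : f ≤ f0) (hc : c ≤ c0)
    {α : L} {ξ η : N} (h1 : Cover U R hδ ι γ h i ζ e f c α ξ)
    (h2 : Cover U R hδ ι γ h i ζ e f c α η) : ξ = η := by
  obtain ⟨e'', f'', c'', h3, h4, h5, z, h6, h7⟩ := hb.common hκ hδκ he hf hc h1 h2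
  exact R.uniq h6 h7

theorem Bad.unbounded (hκ : ℵ₀ < κ) (hb : Bad U R hδ ι γ e0 f0 c0 h i ζ)
    {e : E} {f : F} {c : Col δ A D} (he : e ≤ e0) (hf : f ≤ f0) (hc : c ≤ c0) (α : L) :
    ∃ e' f' c', e' ≤ e ∧ f' ≤ f ∧ c' ≤ c ∧ ∃ β ξ, α < β ∧
      Cover U R hδ ι γ h i ζ e' f' c' β ξ := by
  have hnd := hb e f c h h α he hf hc (leA.refl _ _) (leA.refl _ _)
  unfold Done at hnd
  push Not at hnd
  obtain ⟨e', f', c', h0', h1', he', hf', hc', hh0', hh1', β', ξ', hβ, hC2, hC3⟩ := hnd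
  exact ⟨e', f', c', he', hf', hc', β', ξ', hβ, h0', hh0', hC2⟩

end

end CLC
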