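import Pool.Agent.Lib.CLC.Fus
import Pool.Agent.Lib.FTP.Spec

/-!
# The successor of the supremum is preserved
-/

namespace CLC

open Cardinal CAT9

section

variable {L M : Type} [LinearOrder L] [hA : Amb L M]

/-- No name for a partial function from `I` to `L` is forced to be onto. -/
theorem not_onto {K W Q P : Type} [Preorder K] [Preorder W] [Preorder Q] [Preorder P]
    (hF : Fusion K W M) (hQ : DirectedClosed #M Q) {π : K × W × Q → P} (hπ : IsProj π)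
    (hπ' : ∀ p, ∃ z, π z ≤ p) {I : Type} (hI : #I ≤ #M) (F : P → I → L → Prop)
    (mono : ∀ q r a b, r ≤ q → F q a b → F r a b)
    (uniq : ∀ q a b b', F q a b → F q a b' → b = b') (p0 : P)
    (onto : ∀ q, q ≤ p0 → ∀ b, ∃ r, r ≤ q ∧ ∃ a, F r a b) : False := by
  obtain ⟨⟨k0, w0, q0⟩, hz0⟩ := hπ' p0
  obtain ⟨w1, q1, a, h1, h2, h3⟩ := reg (L := L) hF hQ hI
    (fun i k w q a => ∀ p, p ≤ π (k, w, q) → ∀ x, F p i x → x < a)
    (fun i k w q a k' w' q' a' hk hw hq ha h p hp x hx =>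
      (h p (hp.trans (hπ.mono _ _ ⟨hk, hw, hq⟩)) x hx).trans_le ha) k0 w0 q0
    (by
      intro i k w q _ _ _
      by_cases h : ∃ p, p ≤ π (k, w, q) ∧ ∃ x, F p i x
      · obtain ⟨p, hp, x, hx⟩ := h
        obtain ⟨⟨k', w', q'⟩, hle, hp'⟩ := hπ.lift _ _ hp
        obtain ⟨a, ha⟩ := hA.bdd Unit (fun _ => x) (mk_unit_le (L := L))
        refine ⟨k', w', q', hle.1, hle.2.1, hle.2.2, a, fun p1 hp1 y hy => ?_⟩
        rw [uniq p1 i y x hy (mono _ _ _ _ (hp1.trans hp') hx)]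
        exact ha ()
      · push Not at h
        obtain ⟨a, -⟩ := hA.bdd Empty (fun e => e.elim) (by simp)
        exact ⟨k, w, q, le_rfl, le_rfl, le_rfl, a, fun p hp x hx => absurd hx (h p hp x)⟩)
  have h0 : π (k0, w1, q1) ≤ π (k0, w0, q0) := hπ.mono _ _ ⟨le_rfl, h1, h2⟩
  obtain ⟨p, hp, i, hi⟩ := onto (π (k0, w1, q1)) (h0.trans hz0) a
  obtain ⟨⟨k, w, q⟩, hle, hp'⟩ := hπ.lift _ _ hp
  obtain ⟨k', w', hk', hw', h4⟩ := h3 i k w hle.1 hle.2.1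
  have h5 : π (k', w', q) ≤ π (k', w', q1) := hπ.mono _ _ ⟨le_rfl, le_rfl, hle.2.2⟩
  have h7 : π (k', w', q) ≤ π (k, w, q) := hπ.mono _ _ ⟨hk', hw', le_rfl⟩
  exact lt_irrefl a (h4 _ h5 a (mono _ _ _ _ (h7.trans hp') hi))

end

theorem forcesCard_succ {ν : Cardinal.{0}} (hν : ℵ₀ ≤ ν) {K W Q P : Type} [Preorder K]
    [Preorder W] [Preorder Q] [Preorder P] (hF : Fusion K W (Nod ν))
    (hQ : DirectedClosed #(Nod ν) Q) {π : K × W × Q → P} (hπ : IsProj π)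
    (hπ' : ∀ p, ∃ z, π z ≤ p) : FTP.ForcesCard P (Order.succ ν) := by
  intro θ hθ p ⟨F⟩
  have hA := amb_lev hν
  have hM : #(Nod ν) = ν := mk_ord_toType ν
  exact not_onto (L := Lev ν) hF hQ hπ hπ' (by
    rw [mk_ord_toType, hM]
    exact Order.lt_succ_iff.1 hθ) F.F F.mono F.uniq p F.onto

/-- Names for functions from `M` to `L` in the extension by `Q × W` are bounded. -/
theorem bddNames_prod {L M : Type} [LinearOrder L] [hA : Amb L M] {Q W : Type} [Preorder Q]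
    [Preorder W] (hF : Fusion Unit W M) (hQ : DirectedClosed #M Q) : BddNames (Q × W) L M :=
  bddNames (π := fun z : Unit × W × Q => (z.2.2, z.2.1)) hF hQ
    ⟨fun _ _ h => ⟨h.2.2, h.2.1⟩, fun _ q hq => ⟨((), q.2, q.1), ⟨le_rfl, hq.2, hq.1⟩, le_rfl⟩⟩
    fun p => ⟨((), p.2, p.1), le_rfl⟩

theorem Fusion.unit {W M : Type} [Preorder W] (h : Fusion Unit (Unit × W) M) :
    Fusion Unit W M := by
  intro Z _ hZ I hI O hO k0 w0 z0 hd
  obtain ⟨w1, z1, h1, h2, h3⟩ := h Z hZ I hI (fun i k w z => O i k w.2 z)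
    (fun i k w z k' w' z' hk hw hz h => hO _ _ _ _ _ _ _ hk hw.2 hz h) k0 ((), w0) z0
    (fun i k w z hk hw hz => by
      obtain ⟨k', w', z', h1, h2, h3, h4⟩ := hd i k w.2 z hk hw.2 hz
      exact ⟨k', ((), w'), z', h1, ⟨le_rfl, h2⟩, h3, h4⟩)
  refine ⟨w1.2, z1, h1.2, h2, fun i k w hk hw => ?_⟩
  obtain ⟨k', w', h4, h5, h6⟩ := h3 i k ((), w) hk ⟨le_rfl, hw⟩
  exact ⟨k', w'.2, h4, h5.2, h6⟩

end CLC
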