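import Pool.Agent.Lib.CLC.Join
import Pool.Agent.Lib.CLC.IsProjC
import Pool.Agent.Lib.FTP.Spec

/-!
# Preserved and collapsed cardinals
-/

namespace CLC

open Cardinal CAT9

namespace Crd

/-- A projection of the product of a small and a closed forcing notion preserves the successor
cardinal. -/
theorem forcesCard_of {χ : Cardinal.{0}} (hχ : ℵ₀ ≤ χ) {S E P : Type} [Preorder S] [Preorder E]
    [Preorder P] (hS : #S ≤ χ) (hE : DirectedClosed χ E) {π : S × E → P} (hπ : IsProj π)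
    (hπ' : ∀ p, ∃ z, π z ≤ p) : FTP.ForcesCard P (Order.succ χ) := by
  classical
  intro θ hθ p ⟨F⟩
  obtain ⟨⟨s0, e0⟩, hz0⟩ := hπ' p
  have hθ' : θ ≤ χ := Order.lt_succ_iff.1 hθ
  have hK : #(θ.ord.ToType × S) ≤ χ := by
    simp only [Cardinal.mk_prod, Cardinal.lift_id, mk_ord_toType]
    exact (mul_le_mul' hθ' hS).trans (Cardinal.mul_eq_self hχ).le
  obtain ⟨e1, he1, h1⟩ := meet hχ hE hK
    (fun k => {e | (∃ s, s ≤ k.2 ∧ ∃ b, F.F (π (s, e)) k.1 b) ∨
      ∀ s e', s ≤ k.2 → e' ≤ e → ∀ b, ¬ F.F (π (s, e')) k.1 b}) e0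
    (by
      rintro k e e' hle (⟨s, hs, b, hb⟩ | h)
      · exact Or.inl ⟨s, hs, b, F.mono _ _ _ _ (hπ.mono (s, e) (s, e') ⟨le_rfl, hle⟩) hb⟩
      · exact Or.inr fun s e'' hs he => h s e'' hs (he.trans hle))
    (by
      intro k e _
      by_cases h : ∃ s e', s ≤ k.2 ∧ e' ≤ e ∧ ∃ b, F.F (π (s, e')) k.1 b
      · obtain ⟨s, e', hs, he, b, hb⟩ := h
        exact ⟨e', he, Or.inl ⟨s, hs, b, hb⟩⟩
      · refine ⟨e, le_rfl, Or.inr fun s e' hs he b hb => h ⟨s, e', hs, he, b, hb⟩⟩)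
  obtain ⟨b, hb⟩ : ∃ b, ∀ k : θ.ord.ToType × S, ¬ F.F (π (k.2, e1)) k.1 b := by
    by_contra hcon
    push Not at hcon
    choose k hk using hcon
    have hinj : Function.Injective k := fun b b' h => by
      have h2 := hk b'
      rw [← h] at h2
      exact F.uniq _ _ _ _ (hk b) h2
    have h3 := (Cardinal.mk_le_of_injective hinj).trans hK
    rw [mk_ord_toType] at h3
    exact absurd h3 (not_le.2 (Order.lt_succ χ))
  have h0 : π (s0, e1) ≤ p := (hπ.mono _ _ ⟨le_rfl, he1⟩ : π (s0, e1) ≤ π (s0, e0)).trans hz0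
  obtain ⟨r, hr, a, ha⟩ := F.onto _ h0 b
  obtain ⟨⟨s, e⟩, hle, hr'⟩ := hπ.lift _ _ hr
  have ha' := F.mono _ _ _ _ hr' ha
  rcases h1 (a, s) with ⟨s', hs', b', hb'⟩ | h
  · have h2 : F.F (π (s', e)) a b := F.mono _ _ _ _ (hπ.mono (s, e) (s', e) ⟨hs', le_rfl⟩) ha'
    have h3 : F.F (π (s', e)) a b' := F.mono _ _ _ _ (hπ.mono (s', e1) (s', e) ⟨le_rfl, hle.2⟩) hb'
    rw [F.uniq _ _ _ _ h2 h3] at hb
    exact hb (a, s') hb'
  · exact h s e le_rfl hle.2 b ha'

/-- Collapsing to `ω`. -/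
theorem collapsed_fn {P B : Type} [Preorder P] {σ : P → Fn B} (hσ : IsProj σ)
    {ρ : Cardinal.{0}} (hρ : ℵ₀ < ρ) (hB : ρ ≤ #B) : FTP.ForcesCollapsed P ρ := by
  classical
  intro p
  obtain ⟨e⟩ : Nonempty ((ℵ₀ : Cardinal.{0}).ord.ToType ≃ ℕ) :=
    Cardinal.eq.1 ((mk_ord_toType _).trans Cardinal.mk_nat.symm)
  obtain ⟨j⟩ : Nonempty (ρ.ord.ToType ↪ B) := by
    rw [← Cardinal.le_def, mk_ord_toType]
    exact hB
  refine ⟨p, le_rfl, ℵ₀, hρ, ⟨⟨fun q a b => (σ q).1 (e a) = some (j b), ?_, ?_, ?_⟩⟩⟩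
  · intro q r a b hr h
    exact hσ.mono _ _ hr _ _ h
  · intro q a b b' h h'
    rw [h] at h'
    exact j.injective (by simpa using h')
  · intro q _ b
    obtain ⟨n, hn⟩ := (σ q).2.exists_notMem
    have hn' : (σ q).1 n = none := by simpa using hn
    let c : Fn B := ⟨fun k => if k = n then some (j b) else (σ q).1 k,
      ((σ q).2.union (Set.finite_singleton n)).subset fun k hk => by
        by_cases h : k = n
        · exact Or.inr h
        · simp only [Set.mem_setOf_eq, h, if_false] at hk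
          exact Or.inl hk⟩
    have hc : c ≤ σ q := by
      intro k b' hk
      have hne : k ≠ n := by
        rintro rfl
        rw [hn'] at hk
        exact absurd hk (by simp)
      change (if k = n then some (j b) else (σ q).1 k) = some b'
      rw [if_neg hne, hk]
    obtain ⟨r, hr, hrc⟩ := hσ.lift _ _ hc
    refine ⟨r, hr, e.symm n, hrc _ _ ?_⟩
    rw [Equiv.apply_symm_apply]
    change (if n = n then some (j b) else (σ q).1 n) = some (j b)
    rw [if_pos rfl]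

/-- Collapsing to the size of `D`. -/
theorem collapsed_col {P A D : Type} [Preorder P] [LinearOrder A] {δ : Cardinal.{0}}
    (hδ : ℵ₀ ≤ δ) (hD : δ < #D) {σ : P → Col δ A D} (hσ : IsProj σ) {ρ : Cardinal.{0}}
    (hρ : #D < ρ) (x : A) (hx : ρ ≤ #{b // b < x}) : FTP.ForcesCollapsed P ρ := by
  classical
  intro p
  obtain ⟨e⟩ : Nonempty ((#D).ord.ToType ≃ D) := Cardinal.eq.1 (mk_ord_toType _)
  obtain ⟨j⟩ : Nonempty (ρ.ord.ToType ↪ {b // b < x}) := by
    rw [← Cardinal.le_def, mk_ord_toType]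
    exact hx
  refine ⟨p, le_rfl, #D, hρ, ⟨⟨fun q a b => (σ q).f (x, e a) = some (j b).1, ?_, ?_, ?_⟩⟩⟩
  · intro q r a b hr h
    exact hσ.mono _ _ hr _ _ h
  · intro q a b b' h h'
    rw [h] at h'
    exact j.injective (Subtype.ext (by simpa using h'))
  · intro q _ b
    obtain ⟨ξ, hξ⟩ : ∃ ξ, (σ q).f (x, ξ) = none := by
      by_contra hcon
      push Not at hcon
      have h1 : #D ≤ #{z // (σ q).f z ≠ none} :=
        Cardinal.mk_le_of_injective (f := fun ξ : D => (⟨(x, ξ), hcon ξ⟩ :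
          {z // (σ q).f z ≠ none})) fun ξ ξ' h => by
            simpa using congrArg (fun z : {z // (σ q).f z ≠ none} => z.1.2) h
      exact absurd (h1.trans (σ q).small) (not_le.2 hD)
    let c : Col δ A D := ⟨fun z => if z = (x, ξ) then some (j b).1 else (σ q).f z, by
      intro z y hz
      by_cases h : z = (x, ξ)
      · subst h
        rw [if_pos rfl] at hz
        have : (j b).1 = y := by simpa using hz
        rw [← this]
        exact (j b).2
      · rw [if_neg h] at hz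
        exact (σ q).lt z y hz, by
      have hsub : {z | (if z = (x, ξ) then some (j b).1 else (σ q).f z) ≠ none} ⊆
          insert (x, ξ) {z | (σ q).f z ≠ none} := by
        intro z hz
        by_cases h : z = (x, ξ)
        · exact Or.inl h
        · simp only [Set.mem_setOf_eq, h, if_false] at hz
          exact Or.inr hz
      refine (Cardinal.mk_le_mk_of_subset hsub).trans (Cardinal.mk_insert_le.trans ?_)
      exact (add_le_add (σ q).small le_rfl).trans (Cardinal.add_one_eq hδ).le⟩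
    have hc : c ≤ σ q := by
      intro z y hz
      have hne : z ≠ (x, ξ) := by
        rintro rfl
        rw [hξ] at hz
        exact absurd hz (by simp)
      change (if z = (x, ξ) then some (j b).1 else (σ q).f z) = some y
      rw [if_neg hne, hz]
    obtain ⟨r, hr, hrc⟩ := hσ.lift _ _ hc
    refine ⟨r, hr, e.symm ξ, hrc _ _ ?_⟩
    rw [Equiv.apply_symm_apply]
    change (if (x, ξ) = (x, ξ) then some (j b).1 else (σ q).f (x, ξ)) = some (j b).1
    rw [if_pos rfl]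

theorem exists_below {κ ρ : Cardinal.{0}} (h : ρ < κ) : ∃ x : Nod κ, #{b : Nod κ // b < x} = ρ := by
  refine ⟨Ordinal.enum (α := κ.ord.ToType) (· < ·) ⟨ρ.ord, by
    rw [Ordinal.type_toType]
    exact Cardinal.ord_lt_ord.2 h⟩, ?_⟩
  have h1 := Ordinal.card_typein (r := (· < · : κ.ord.ToType → κ.ord.ToType → Prop))
    (Ordinal.enum (α := κ.ord.ToType) (· < ·) ⟨ρ.ord, by
      rw [Ordinal.type_toType]
      exact Cardinal.ord_lt_ord.2 h⟩)
  rw [← h1, Ordinal.typein_enum, Cardinal.card_ord]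

section

variable (κ : ℕ → Cardinal.{0}) (a : Nod (κ 0))

/-- The projection to the collapse of `mu κ a`. -/
theorem isProj_k : IsProj (fun s : PP κ a => s.1.k) where
  mono p q h := h.1.1
  lift := by
    rintro ⟨⟨k, p⟩, w⟩ k' hk
    exact ⟨(⟨k', p⟩, w), ⟨⟨hk, le_rfl, fun _ _ _ _ _ _ _ => rfl⟩, le_rfl⟩, le_rfl⟩

/-- The projection to the collapse below `κ 0`. -/
theorem isProj_c : IsProj (fun s : PP κ a => s.2.1) where
  mono p q h := h.2.1
  lift := by
    rintro ⟨p, c, e⟩ c' hc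
    exact ⟨(p, c', e), ⟨le_rfl, hc, le_rfl⟩, le_rfl⟩

/-- The projection to the collapse below `κ (j + 1)`. -/
theorem isProj_e (j : ℕ) : IsProj (fun s : PP κ a => s.2.2 j) where
  mono p q h := h.2.2 j
  lift := by
    classical
    rintro ⟨p, c, e⟩ e' he
    refine ⟨(p, c, Function.update e j e'), ⟨le_rfl, le_rfl, fun i => ?_⟩, ?_⟩
    · change Function.update e j e' i ≤ e i
      by_cases h : i = j
      · subst h
        rw [Function.update_self]
        exact he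
      · rw [Function.update_of_ne h]
    · change Function.update e j e' j ≤ e'
      rw [Function.update_self]

/-- The projection from the product of a small and a closed forcing notion. -/
noncomputable def projS (n : ℕ) (z : (KK κ a × CC κ a × Elt κ n) × (QA κ a × Ege κ n)) :
    PP κ a := (⟨z.1.1, z.2.1.p⟩, (z.1.2.1, join2 z.1.2.2 z.2.2))

theorem isProj_S (hA : Amb (Lev (nu κ)) (Nod (nu κ))) (n : ℕ) : IsProj (projS κ a n) where
  mono p q h := (isProj1 κ a hA (W := WW κ a)).mono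
    (p.2.1, p.1.1, (p.1.2.1, join2 p.1.2.2 p.2.2)) (q.2.1, q.1.1, (q.1.2.1, join2 q.1.2.2 q.2.2))
    ⟨h.2.1, h.1.1, h.1.2.1, join2_le h.1.2.2 h.2.2⟩
  lift := by
    rintro ⟨⟨k, c, f⟩, ⟨q, e⟩⟩ r hr
    obtain ⟨⟨q', k', ⟨c', h'⟩⟩, ⟨h1, h2, h3, h4⟩, h5⟩ := (isProj1 κ a hA (W := WW κ a)).lift
      (q, k, (c, join2 f e)) r hr
    refine ⟨((k', c', lo n h'), (q', hi n h')), ⟨⟨h2, h3, ?_⟩, ⟨h1, ?_⟩⟩, ?_⟩
    · have := lo_le (m := n) h4
      rwa [lo_join2] at this
    · have := hi_le (m := n) h4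
      rwa [hi_join2] at this
    · refine le_trans (le_of_eq ?_) h5
      change ((⟨k', q'.p⟩, (c', join2 (lo n h') (hi n h'))) : PP κ a) = (⟨k', q'.p⟩, (c', h'))
      rw [join2_lo_hi]

theorem projS_dense (hA : Amb (Lev (nu κ)) (Nod (nu κ))) (n : ℕ) (p : PP κ a) :
    ∃ z, projS κ a n z ≤ p := by
  obtain ⟨⟨k, p⟩, c, e⟩ := p
  obtain ⟨w, hw⟩ := exists_mem p
  refine ⟨((k, c, lo n e), (mkQ p w hw, hi n e)), le_of_eq ?_⟩
  change ((⟨k, p⟩, (c, join2 (lo n e) (hi n e))) : PP κ a) = (⟨k, p⟩, (c, e))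
  rw [join2_lo_hi]

end

theorem closed_mono {μ σ : Cardinal.{0}} {P : Type} [Preorder P] (h : DirectedClosed σ P)
    (hμ : μ ≤ σ) : DirectedClosed μ P := fun S hS hd => h S (hS.trans hμ) hd

theorem closed_pi {μ : Cardinal.{0}} {J : Type} {D : J → Type} [∀ j, Preorder (D j)]
    (h : ∀ j, DirectedClosed μ (D j)) : DirectedClosed μ ((j : J) → D j) := by
  intro S hS hd
  have h1 : ∀ j, ∃ q : D j, ∀ s ∈ S, q ≤ s j := by
    intro j
    obtain ⟨q, hq⟩ := h j ((fun s => s j) '' S) (Cardinal.mk_image_le.trans hS) (by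
      rintro _ ⟨a, ha, rfl⟩ _ ⟨b, hb, rfl⟩
      obtain ⟨c, hc, h1, h2⟩ := hd a ha b hb
      exact ⟨c j, ⟨c, hc, rfl⟩, h1 j, h2 j⟩)
    exact ⟨q, fun s hs => hq _ ⟨s, hs, rfl⟩⟩
  choose q hq using h1
  exact ⟨q, fun s hs j => hq j s hs⟩

section

variable {κ : ℕ → Cardinal.{0}} (hk : StrictMono κ)
  (hI : ∀ n, (κ n).IsInaccessible)

include hk hI

theorem le_nu (n : ℕ) : κ n ≤ nu κ := le_ciSup (Cardinal.bddAbove_range _) n

theorem lt_nu (n : ℕ) : κ n < nu κ := (hk (Nat.lt_succ_self n)).trans_le (le_nu hk hI (n + 1))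

theorem succ_succ_lt (n : ℕ) : Order.succ (Order.succ (κ n)) < κ (n + 1) :=
  (hI (n + 1)).isSuccLimit.succ_lt ((hI (n + 1)).isSuccLimit.succ_lt (hk (Nat.lt_succ_self n)))

theorem inf_nu : ℵ₀ ≤ nu κ := (hI 0).aleph0_lt.le.trans (le_nu hk hI 0)

theorem amb_nu : Amb (Lev (nu κ)) (Nod (nu κ)) := amb_lev (inf_nu hk hI)

theorem closed_S (a : Nod (κ 0)) (n : ℕ) :
    DirectedClosed (Order.succ (κ n)) (QA κ a × Ege κ n) := by
  have hA := amb_nu hk hI
  refine directed_prod ?_ (closed_pi fun j => ?_)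
  · refine closed_mono (σ := #(Nod (nu κ))) qq_closed ?_
    rw [mk_ord_toType]
    exact ((Order.le_succ _).trans_lt (succ_succ_lt hk hI n)).le.trans (le_nu hk hI (n + 1))
  · exact closed_mono (Col.closed ((hI j.1).aleph0_lt.le.trans (Order.le_succ _)))
      (Order.succ_le_succ (hk.monotone j.2))

theorem cards_preserved (a : Nod (κ 0))
    (hsz : ∀ n, #(KK κ a × CC κ a × Elt κ n) ≤ κ n) (θ : Cardinal.{0}) (hθ : θ < nu κ) :
    ∃ ρ, θ < ρ ∧ ρ < nu κ ∧ FTP.ForcesCard (PP κ a) ρ := by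
  obtain ⟨n, hn⟩ := exists_lt_of_lt_ciSup' hθ
  refine ⟨Order.succ (Order.succ (κ n)), ?_, (succ_succ_lt hk hI n).trans_le (le_nu hk hI _), ?_⟩
  · exact hn.trans ((Order.lt_succ _).trans (Order.lt_succ _))
  · exact forcesCard_of ((hI n).aleph0_lt.le.trans (Order.le_succ _)) ((hsz n).trans (Order.le_succ _))
      (closed_S hk hI a n) (isProj_S κ a (amb_nu hk hI) n) (projS_dense κ a (amb_nu hk hI) n)

theorem cards_collapsed (a : Nod (κ 0)) (θ : Cardinal.{0}) (hθ : θ < nu κ) :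
    {ρ : Cardinal.{0} | ℵ₀ ≤ ρ ∧ ρ ≤ θ ∧ ¬ FTP.ForcesCollapsed (PP κ a) ρ}.Finite := by
  classical
  obtain ⟨n, hn⟩ := exists_lt_of_lt_ciSup' hθ
  refine Set.Finite.subset (s := ({ℵ₀, Order.succ (mu κ a)} : Set Cardinal.{0}) ∪
    ((κ '' Set.Iic n) ∪ (((fun i => Order.succ (κ i)) '' Set.Iic n) ∪
      ((fun i => Order.succ (Order.succ (κ i))) '' Set.Iic n)))) ?_ ?_
  · exact (Set.toFinite _).union (((Set.finite_Iic n).image _).union
      (((Set.finite_Iic n).image _).union ((Set.finite_Iic n).image _)))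
  rintro ρ ⟨h1, h2, h3⟩
  by_contra hcon
  simp only [Set.mem_union, Set.mem_insert_iff, Set.mem_singleton_iff, Set.mem_image,
    Set.mem_Iic, not_or, not_exists, not_and] at hcon
  obtain ⟨⟨c1, c2⟩, c3, c4, c5⟩ := hcon
  have hρ : ℵ₀ < ρ := lt_of_le_of_ne h1 (Ne.symm c1)
  have hρn : ρ < κ n := h2.trans_lt hn
  rcases lt_or_ge ρ (κ 0) with h4 | h4
  · -- below `κ 0`
    rcases le_or_gt ρ (mu κ a) with h5 | h5
    · refine h3 (collapsed_fn (isProj_k κ a) hρ ?_)
      rw [mk_ord_toType]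
      exact h5
    · have h6 : Order.succ (mu κ a) < ρ := lt_of_le_of_ne (Order.succ_le_of_lt h5) (Ne.symm c2)
      obtain ⟨x, hx⟩ := exists_below h4
      refine h3 (collapsed_col (le_max_left _ _) ?_ (isProj_c κ a) ?_ x hx.ge)
      · rw [mk_ord_toType]
        exact Order.lt_succ _
      · rw [mk_ord_toType]
        exact h6
  · -- above `κ 0`
    obtain ⟨i, hi1, hi2, hi3⟩ : ∃ i, i < n ∧ κ i ≤ ρ ∧ ρ < κ (i + 1) := by
      have hex : ∃ m, ρ < κ m := ⟨n, hρn⟩
      have hm := Nat.find_spec hex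
      have hm' : Nat.find hex ≤ n := Nat.find_min' hex hρn
      rcases hN : Nat.find hex with _ | i
      · rw [hN] at hm
        exact absurd hm (not_lt.2 h4)
      · refine ⟨i, by omega, not_lt.1 (Nat.find_min hex (by omega)), ?_⟩
        rw [hN] at hm
        exact hm
    have e1 : κ i < ρ := lt_of_le_of_ne hi2 (c3 i hi1.le)
    have e2 : Order.succ (κ i) < ρ := lt_of_le_of_ne (Order.succ_le_of_lt e1) (c4 i hi1.le)
    have e3 : Order.succ (Order.succ (κ i)) < ρ :=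
      lt_of_le_of_ne (Order.succ_le_of_lt e2) (c5 i hi1.le)
    obtain ⟨x, hx⟩ := exists_below hi3
    refine h3 (collapsed_col ((hI i).aleph0_lt.le.trans (Order.le_succ _)) ?_ (isProj_e κ a i) ?_ x
      hx.ge)
    · rw [mk_ord_toType]
      exact Order.lt_succ _
    · rw [mk_ord_toType]
      exact e3

end

end Crd

end CLC
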