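import Pool.Agent.Lib.CLC.StepA

/-!
# Collapses
-/

namespace CLC

open Cardinal CAT9

/-- The Levy collapse of the elements of `A`: partial functions on `A × D` with at most `δ`
values, the value at `(a, ξ)` being below `a`. -/
@[ext] structure Col (δ : Cardinal.{0}) (A D : Type) [LinearOrder A] where
  /-- the partial function -/
  f : A × D → Option A
  lt : ∀ z b, f z = some b → b < z.1
  small : #{z // f z ≠ none} ≤ δ

namespace Col

variable {δ : Cardinal.{0}} {A D : Type} [LinearOrder A]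

instance : Preorder (Col δ A D) where
  le q p := ∀ z b, p.f z = some b → q.f z = some b
  le_refl := fun _ _ _ h => h
  le_trans := fun _ _ _ h1 h2 z b h => h1 z b (h2 z b h)

theorem le_iff {p q : Col δ A D} : q ≤ p ↔ ∀ z b, p.f z = some b → q.f z = some b := Iff.rfl

/-- The empty condition. -/
def empty : Col δ A D where
  f _ := none
  lt _ _ h := absurd h (by simp)
  small := by simp

theorem le_empty (p : Col δ A D) : p ≤ empty := fun _ _ h => absurd h (by simp [empty])

theorem closed (hδ : ℵ₀ ≤ δ) : DirectedClosed δ (Col δ A D) := by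
  classical
  intro S hS hd
  have huniq : ∀ p ∈ S, ∀ q ∈ S, ∀ z b b', p.f z = some b → q.f z = some b' → b = b' := by
    intro p hp q hq z b b' h h'
    obtain ⟨r, -, h1, h2⟩ := hd p hp q hq
    have e1 := h1 z b h
    have e2 := h2 z b' h'
    rw [e1] at e2
    simpa using e2
  let g : A × D → Option A := fun z => if h : ∃ b, ∃ p ∈ S, p.f z = some b then some h.choose
    else none
  have hg : ∀ z b, g z = some b ↔ ∃ p ∈ S, p.f z = some b := by
    intro z b
    constructor
    · intro h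
      by_cases hz : ∃ b, ∃ p ∈ S, p.f z = some b
      · simp only [g, hz, dif_pos] at h
        obtain ⟨p, hp, h'⟩ := hz.choose_spec
        refine ⟨p, hp, ?_⟩
        rw [h']
        simpa using h
      · simp only [g, hz, dif_neg, not_false_eq_true] at h
        exact absurd h (by simp)
    · rintro ⟨p, hp, h⟩
      have hz : ∃ b, ∃ p ∈ S, p.f z = some b := ⟨b, p, hp, h⟩
      simp only [g, hz, dif_pos]
      obtain ⟨q, hq, h'⟩ := hz.choose_spec
      rw [huniq q hq p hp z _ _ h' h]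
  refine ⟨⟨g, fun z b h => ?_, ?_⟩, fun p hp z b h => (hg z b).2 ⟨p, hp, h⟩⟩
  · obtain ⟨p, -, h'⟩ := (hg z b).1 h
    exact p.lt z b h'
  · have hsub : {z | g z ≠ none} ⊆ ⋃ p : S, {z | p.1.f z ≠ none} := by
      intro z hz
      obtain ⟨b, hb⟩ := Option.ne_none_iff_exists'.1 hz
      obtain ⟨p, hp, h⟩ := (hg z b).1 hb
      exact Set.mem_iUnion.2 ⟨⟨p, hp⟩, by simp [h]⟩
    refine (Cardinal.mk_le_mk_of_subset hsub).trans ?_
    refine (Cardinal.mk_iUnion_le _).trans ?_
    refine (mul_le_mul' hS (ciSup_le' fun p : S => p.1.small)).trans ?_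
    exact (Cardinal.mul_eq_self hδ).le

variable {L : Type}

open Classical in
/-- The part of `c` at coordinates in `x`, and the part of `d` at the other coordinates. -/
noncomputable def glue (hδ : ℵ₀ ≤ δ) (ι : A → L) (x : Set L) (c d : Col δ A D) : Col δ A D where
  f z := if ι z.1 ∈ x then c.f z else d.f z
  lt z b h := by
    by_cases hz : ι z.1 ∈ x
    · simp only [hz, if_true] at h; exact c.lt z b h
    · simp only [hz, if_false] at h; exact d.lt z b h
  small := by
    have hsub : {z | (if ι z.1 ∈ x then c.f z else d.f z) ≠ none} ⊆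
        {z | c.f z ≠ none} ∪ {z | d.f z ≠ none} := by
      intro z hz
      by_cases h : ι z.1 ∈ x
      · simp only [Set.mem_setOf_eq, h, if_true] at hz; exact Or.inl hz
      · simp only [Set.mem_setOf_eq, h, if_false] at hz; exact Or.inr hz
    refine (Cardinal.mk_le_mk_of_subset hsub).trans ((Cardinal.mk_union_le _ _).trans ?_)
    exact (add_le_add c.small d.small).trans (Cardinal.add_eq_self hδ).le

theorem glue_in {hδ : ℵ₀ ≤ δ} {ι : A → L} {x : Set L} {c d : Col δ A D} {z : A × D}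
    (h : ι z.1 ∈ x) : (glue hδ ι x c d).f z = c.f z := by simp [glue, h]

theorem glue_out {hδ : ℵ₀ ≤ δ} {ι : A → L} {x : Set L} {c d : Col δ A D} {z : A × D}
    (h : ι z.1 ∉ x) : (glue hδ ι x c d).f z = d.f z := by simp [glue, h]

theorem glue_mono {hδ : ℵ₀ ≤ δ} {ι : A → L} {x : Set L} {c d c' d' : Col δ A D}
    (hc : c' ≤ c) (hd : d' ≤ d) : glue hδ ι x c' d' ≤ glue hδ ι x c d := by
  intro z b h
  by_cases hz : ι z.1 ∈ x
  · rw [glue_in hz] at h ⊢; exact hc z b h
  · rw [glue_out hz] at h ⊢; exact hd z b h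

/-- All coordinates of `c` are in `x`. -/
def Inside (ι : A → L) (x : Set L) (c : Col δ A D) : Prop := ∀ z, c.f z ≠ none → ι z.1 ∈ x

theorem glue_le {hδ : ℵ₀ ≤ δ} {ι : A → L} {x : Set L} {c d : Col δ A D} (h : Inside ι x c) :
    glue hδ ι x c d ≤ c := by
  intro z b hb
  rw [glue_in (h z (by simp [hb]))]
  exact hb

/-- The part of `c` at coordinates in `x`. -/
noncomputable def low (hδ : ℵ₀ ≤ δ) (ι : A → L) (x : Set L) (c : Col δ A D) : Col δ A D :=
  glue hδ ι x c empty

theorem low_some {hδ : ℵ₀ ≤ δ} {ι : A → L} {x : Set L} {c : Col δ A D} {z : A × D} {b : A} :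
    (low hδ ι x c).f z = some b ↔ ι z.1 ∈ x ∧ c.f z = some b := by
  by_cases h : ι z.1 ∈ x
  · simp [low, glue_in h, h]
  · simp [low, glue_out h, h, empty]

theorem glue_low {hδ : ℵ₀ ≤ δ} {ι : A → L} {x : Set L} {c d : Col δ A D} :
    glue hδ ι x (low hδ ι x c) d = glue hδ ι x c d := by
  ext1
  funext z
  by_cases h : ι z.1 ∈ x
  · rw [glue_in h, glue_in h, low, glue_in h]
  · rw [glue_out h, glue_out h]

theorem glue_self {hδ : ℵ₀ ≤ δ} {ι : A → L} {x : Set L} {c : Col δ A D} :
    glue hδ ι x c c = c := by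
  ext1
  funext z
  by_cases h : ι z.1 ∈ x
  · rw [glue_in h]
  · rw [glue_out h]

/-- Enumeration of the coordinates of a condition. -/
theorem exists_enum (c : Col δ A D) : ∃ en : δ.out → Option (A × D),
    (∀ z, c.f z ≠ none → ∃ j, en j = some z) ∧ ∀ j z, en j = some z → c.f z ≠ none := by
  classical
  have h : #{z // c.f z ≠ none} ≤ #δ.out := by rw [Cardinal.mk_out]; exact c.small
  obtain ⟨ψ⟩ := (Cardinal.le_def _ _).1 h
  refine ⟨fun j => if h : ∃ z, ψ z = j then some h.choose.1 else none, ?_, ?_⟩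
  · intro z hz
    have h' : ∃ z', ψ z' = ψ ⟨z, hz⟩ := ⟨_, rfl⟩
    refine ⟨ψ ⟨z, hz⟩, ?_⟩
    simp only [h', dif_pos]
    exact congrArg (fun w : {z // c.f z ≠ none} => some w.1) (ψ.injective h'.choose_spec)
  · intro j z hj
    by_cases h : ∃ z, ψ z = j
    · simp only [h, dif_pos, Option.some.injEq] at hj
      rw [← hj]
      exact h.choose.2
    · simp only [h, dif_neg, not_false_eq_true] at hj
      exact absurd hj (by simp)

end Col

section low

variable {κ δ : Cardinal.{0}} {A D L E : Type} [LinearOrder A] [Preorder E]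

/-- The part inside `x` of a condition depending on `x` is constant for almost all `x`. -/
theorem ae_low (hκ : ℵ₀ < κ) (hE : DirClosedLT κ E) {U : UltName κ E L} (hδ : ℵ₀ ≤ δ)
    (hδκ : δ < κ) (hD : #D < κ) {ι : A → L} (hι : Function.Injective ι)
    (hA : ∀ a : A, #{b // b < a} < κ) (p : E) (φ : Col δ A D → PK κ L → Reg E)
    (huniq : ∀ x q c c', (φ c x).holds q → (φ c' x).holds q → c = c')
    (h : U.ae p (fun x => Reg.ex fun c => φ c x)) :
    ∃ q, q ≤ p ∧ ∃ c0 : Col δ A D,
      U.ae q (fun x => Reg.ex fun c : {c : Col δ A D // Col.low hδ ι x.1 c = c0} => φ c.1 x) := by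
  classical
  choose en hen1 hen2 using Col.exists_enum (δ := δ) (A := A) (D := D)
  let entry : PK κ L → Col δ A D → δ.out → Option ((A × D) × A) := fun x c j =>
    match en c j with
    | none => none
    | some z => if ι z.1 ∈ x.1 then (c.f z).map (fun b => (z, b)) else none
  have hent : ∀ x c z b, (Col.low hδ ι x.1 c).f z = some b ↔ ∃ j, entry x c j = some (z, b) := by
    intro x c z b
    rw [Col.low_some]
    constructor
    · rintro ⟨h1, h2⟩
      obtain ⟨j, hj⟩ := hen1 c z (by simp [h2])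
      exact ⟨j, by simp [entry, hj, h1, h2]⟩
    · rintro ⟨j, hj⟩
      simp only [entry] at hj
      rcases hz : en c j with _ | z'
      · rw [hz] at hj; exact absurd hj (by simp)
      · rw [hz] at hj
        by_cases h1 : ι z'.1 ∈ x.1
        · simp only [h1, if_true, Option.map_eq_some_iff, Prod.mk.injEq] at hj
          obtain ⟨b', hb', rfl, rfl⟩ := hj
          exact ⟨h1, hb'⟩
        · simp only [h1, if_false] at hj; exact absurd hj (by simp)
  -- every entry is constant
  have key : ∀ j, ∀ q, q ≤ p → ∃ r, r ≤ q ∧ ∃ v : Option ((A × D) × A),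
      U.ae r (fun x => Reg.ex fun c : {c : Col δ A D // entry x c j = v} => φ c.1 x) := by
    intro j q hq
    by_cases hnone : ∃ r, r ≤ q ∧
        U.ae r (fun x => Reg.ex fun c : {c : Col δ A D // entry x c j = none} => φ c.1 x)
    · obtain ⟨r, hr, h'⟩ := hnone
      exact ⟨r, hr, none, h'⟩
    push Not at hnone
    have h1 := UltName.ae_not_of hnone
    have h2 : U.ae q (fun x => Reg.ex fun a : x.1 => Reg.ex fun c : {c : Col δ A D //
        ∃ z b, entry x c j = some (z, b) ∧ ι z.1 = a.1} => φ c.1 x) := by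
      refine UltName.weaken (UltName.ae_and hκ h1 (U.mono _ _ _ hq h)) fun x r _ hx => ?_
      intro s hs
      obtain ⟨t, ht, c, hc⟩ := hx.2 s hs
      rcases hv : entry x c j with _ | ⟨z, b⟩
      · exact absurd (Reg.ex_of (⟨c, hv⟩ : {c : Col δ A D // entry x c j = none}) hc)
          (hx.1 t (ht.trans hs))
      · have hz : ι z.1 ∈ x.1 := (Col.low_some.1 ((hent x c z b).2 ⟨j, hv⟩)).1
        exact ⟨t, ht, ⟨ι z.1, hz⟩, Reg.ex_of ⟨c, z, b, hv, rfl⟩ hc⟩
    obtain ⟨r, hr, a, h3⟩ := U.normal q (fun a x => Reg.ex fun c : {c : Col δ A D //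
        ∃ z b, entry x c j = some (z, b) ∧ ι z.1 = a} => φ c.1 x) h2
    obtain ⟨x0, s0, hs0, hx0⟩ := U.proper _ _ h3
    obtain ⟨_, _, ⟨_, z0, _, _, hz0⟩, _⟩ := hx0 s0 le_rfl
    have hcard : #(D × {b // b < z0.1}) < κ := by
      rw [Cardinal.mk_prod, Cardinal.lift_id, Cardinal.lift_id]
      exact Cardinal.mul_lt_of_lt hκ.le hD (hA z0.1)
    have h4 : U.ae r (fun x => Reg.ex fun w : D × {b // b < z0.1} =>
        Reg.ex fun c : {c : Col δ A D // entry x c j = some ((z0.1, w.1), w.2.1)} => φ c.1 x) := by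
      refine UltName.weaken h3 fun x s _ hx => ?_
      intro t ht
      obtain ⟨u, hu, ⟨c, z, b, hv, hz⟩, hc⟩ := hx t ht
      have hz' : z.1 = z0.1 := hι (hz.trans hz0.symm)
      have hb : b < z.1 := c.lt z b (Col.low_some.1 ((hent x c z b).2 ⟨j, hv⟩)).2
      refine ⟨u, hu, ⟨z.2, ⟨b, hz' ▸ hb⟩⟩, Reg.ex_of ⟨c, ?_⟩ hc⟩
      obtain ⟨z1, z2⟩ := z
      obtain rfl : z1 = z0.1 := hz'
      exact hv
    obtain ⟨s, hs, w, h5⟩ := UltName.ae_ex_small hκ hcard (φ := fun (w : D × {b // b < z0.1}) x =>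
        Reg.ex fun c : {c : Col δ A D // entry x c j = some ((z0.1, w.1), w.2.1)} => φ c.1 x) h4
    exact ⟨s, hs.trans hr, _, h5⟩
  have hout : #δ.out < κ := by rw [Cardinal.mk_out]; exact hδκ
  obtain ⟨q, hq, hall⟩ := meet hδ (hE.closed hδκ) (K := δ.out) (by rw [Cardinal.mk_out])
    (fun j => {r | ∃ v : Option ((A × D) × A),
      U.ae r (fun x => Reg.ex fun c : {c : Col δ A D // entry x c j = v} => φ c.1 x)}) p
    (fun j q r hr ⟨v, hv⟩ => ⟨v, U.mono _ _ _ hr hv⟩)
    (fun j q hq => key j q hq)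
  choose v hv using hall
  have h6 := U.complete δ.out hout q _ hv
  have h7 : U.ae q (fun x => Reg.ex fun c : {c : Col δ A D // ∀ j, entry x c j = v j} =>
      φ c.1 x) := by
    refine UltName.weaken (UltName.ae_and hκ h6 (U.mono _ _ _ hq h)) fun x r _ hx => ?_
    intro s hs
    obtain ⟨t, ht, c, hc⟩ := hx.2 s hs
    refine ⟨t, ht, ⟨c, fun j => ?_⟩, hc⟩
    obtain ⟨u, hu, ⟨c', hc'⟩, hφ⟩ := hx.1 j t (ht.trans hs)
    rw [huniq x u c c' ((φ c x).mono _ _ hu hc) hφ]
    exact hc'
  obtain ⟨x0, s0, -, hx0⟩ := U.proper _ _ h7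
  obtain ⟨t0, -, ⟨c1, hc1⟩, -⟩ := hx0 s0 le_rfl
  refine ⟨q, hq, Col.low hδ ι x0.1 c1, UltName.weaken h7 fun x r _ hx => ?_⟩
  intro s hs
  obtain ⟨t, ht, ⟨c, hc⟩, hφ⟩ := hx s hs
  refine ⟨t, ht, ⟨c, ?_⟩, hφ⟩
  ext1
  funext z
  have : ∀ b, (Col.low hδ ι x.1 c).f z = some b ↔ (Col.low hδ ι x0.1 c1).f z = some b := by
    intro b
    rw [hent, hent]
    simp only [hc, hc1]
  exact Option.ext this

end low

end CLC
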