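import Pool.Agent.Lib.CAT9.Meet

/-!
# Supercompact cardinals which are indestructible under directed closed forcing

A sentence about the extension by a forcing notion `E` is given by its regular set of conditions
forcing it.  A name for an ultrafilter on `P_κ(L)` is given by the relation expressing that `p` forces that `φ x`
holds for almost all `x`.
-/

namespace CLC

open Cardinal CAT9

/-- Every directed set of fewer than `κ` conditions has a lower bound. -/
def DirClosedLT (κ : Cardinal.{0}) (E : Type) [Preorder E] : Prop :=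
  ∀ S : Set E, #S < κ → DirectedOn (fun a b => b ≤ a) S → ∃ q, ∀ s ∈ S, q ≤ s

/-- The truth value of a sentence: the set of conditions forcing it. -/
structure Reg (E : Type) [Preorder E] where
  /-- `p` forces the sentence -/
  holds : E → Prop
  mono : ∀ p q, q ≤ p → holds p → holds q
  dense : ∀ p, (∀ q, q ≤ p → ∃ r, r ≤ q ∧ holds r) → holds p

namespace Reg

variable {E : Type} [Preorder E]

/-- A sentence about the ground model. -/
def const (P : Prop) : Reg E where
  holds _ := P
  mono _ _ _ h := h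
  dense p h := by
    obtain ⟨_, _, h⟩ := h p le_rfl
    exact h

/-- Negation. -/
def not (φ : Reg E) : Reg E where
  holds p := ∀ q, q ≤ p → ¬ φ.holds q
  mono _ _ h hp r hr := hp r (hr.trans h)
  dense p h q hq hφ := by
    obtain ⟨r, hr, h'⟩ := h q hq
    exact h' r le_rfl (φ.mono _ _ hr hφ)

/-- For all. -/
def all {ι : Type} (φ : ι → Reg E) : Reg E where
  holds p := ∀ i, (φ i).holds p
  mono _ _ h hp i := (φ i).mono _ _ h (hp i)
  dense p h i := (φ i).dense p fun q hq => by
    obtain ⟨r, hr, h'⟩ := h q hq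
    exact ⟨r, hr, h' i⟩

/-- There exists. -/
def ex {ι : Type} (φ : ι → Reg E) : Reg E where
  holds p := ∀ q, q ≤ p → ∃ r, r ≤ q ∧ ∃ i, (φ i).holds r
  mono _ _ h hp r hr := hp r (hr.trans h)
  dense p h q hq := by
    obtain ⟨r, hr, h'⟩ := h q hq
    obtain ⟨s, hs, i, hi⟩ := h' r le_rfl
    exact ⟨s, hs.trans hr, i, hi⟩

end Reg

/-- The subsets of `L` with fewer than `κ` elements. -/
abbrev PK (κ : Cardinal.{0}) (L : Type) : Type := {x : Set L // #x < κ}

/-- A name, for the forcing notion `E`, for a normal fine `κ`-complete ultrafilter on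
`P_κ(L)`. -/
structure UltName (κ : Cardinal.{0}) (E : Type) [Preorder E] (L : Type) where
  /-- `p` forces that the set of all `x` with `φ x` belongs to the ultrafilter -/
  ae : E → (PK κ L → Reg E) → Prop
  mono : ∀ p q φ, q ≤ p → ae p φ → ae q φ
  dense : ∀ p φ, (∀ q, q ≤ p → ∃ r, r ≤ q ∧ ae r φ) → ae p φ
  sup : ∀ p φ ψ, (∀ x q, q ≤ p → (φ x).holds q → (ψ x).holds q) → ae p φ → ae p ψ
  proper : ∀ p φ, ae p φ → ∃ x q, q ≤ p ∧ (φ x).holds q
  ultra : ∀ p φ, ∃ q, q ≤ p ∧ (ae q φ ∨ ae q fun x => (φ x).not)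
  complete : ∀ (ι : Type), #ι < κ → ∀ p (φ : ι → PK κ L → Reg E), (∀ i, ae p (φ i)) →
    ae p fun x => Reg.all fun i => φ i x
  fine : ∀ p (a : L), ae p fun x => Reg.const (a ∈ x.1)
  normal : ∀ p (φ : L → PK κ L → Reg E), (ae p fun x => Reg.ex fun a : x.1 => φ a x) →
    ∃ q, q ≤ p ∧ ∃ a, ae q (φ a)

/-- The cardinal `κ` is supercompact in every extension by a forcing notion which is closed under
directed sets of size less than `κ`. -/
structure IndestructiblySupercompact (κ : Cardinal.{0}) : Prop where
  unc : ℵ₀ < κ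
  regular : κ.IsRegular
  strongLimit : ∀ a, a < κ → 2 ^ a < κ
  ult : ∀ (E : Type) [Preorder E], DirClosedLT κ E → ∀ L : Type, Nonempty (UltName κ E L)

end CLC
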