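import Pool.Agent.Lib.CLC.StepAU
import Pool.Agent.Lib.CLC.Posets

/-!
# Fusion

A forcing notion `K × W × Z`, where `K` and a part of `W` are small and `Z` is closed: one can
extend the conditions in `W` and `Z` so that many dense sets are met by extending the small part.
-/

namespace CLC

open Cardinal CAT9

/-- The fusion property for at most `#M` open dense sets. -/
def Fusion (K W M : Type) [Preorder K] [Preorder W] : Prop :=
  ∀ (Z : Type) [Preorder Z], DirectedClosed #M Z → ∀ I : Type, #I ≤ #M →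
    ∀ O : I → K → W → Z → Prop,
      (∀ i k w z k' w' z', k' ≤ k → w' ≤ w → z' ≤ z → O i k w z → O i k' w' z') →
      ∀ k0 w0 z0, (∀ i k w z, k ≤ k0 → w ≤ w0 → z ≤ z0 →
        ∃ k' w' z', k' ≤ k ∧ w' ≤ w ∧ z' ≤ z ∧ O i k' w' z') →
      ∃ w1 z1, w1 ≤ w0 ∧ z1 ≤ z0 ∧
        ∀ i k w, k ≤ k0 → w ≤ w1 → ∃ k' w', k' ≤ k ∧ w' ≤ w ∧ O i k' w' z1

theorem directed_pi {μ : Cardinal.{0}} {J : Type} {D : J → Type} [∀ j, Preorder (D j)]
    (h : ∀ j, DirectedClosed μ (D j)) : DirectedClosed μ ((j : J) → D j) := by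
  intro S hS hd
  have h1 : ∀ j, ∃ q : D j, ∀ s ∈ S, q ≤ s j := by
    intro j
    obtain ⟨q, hq⟩ := h j ((fun s => s j) '' S) (Cardinal.mk_image_le.trans hS) (by
      rintro _ ⟨a, ha, rfl⟩ _ ⟨b, hb, rfl⟩
      obtain ⟨c, hc, h1, h2⟩ := hd a ha b hb
      exact ⟨c j, ⟨c, hc, rfl⟩, h1 j, h2 j⟩)
    exact ⟨q, fun s hs => hq _ ⟨s, hs, rfl⟩⟩
  choose q hq using h1
  exact ⟨q, fun s hs j => hq j s hs⟩

theorem directed_mono {μ σ : Cardinal.{0}} {P : Type} [Preorder P]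
    (h : DirectedClosed σ P) (hμ : μ ≤ σ) : DirectedClosed μ P :=
  fun S hS hd => h S (hS.trans hμ) hd

theorem mk_finpi_le {J : Type} [Finite J] {D : J → Type} {a : Cardinal.{0}} (ha : ℵ₀ ≤ a)
    (h : ∀ j, #(D j) ≤ a) : #((j : J) → D j) ≤ a := by
  rw [Cardinal.mk_pi]
  refine (Cardinal.prod_le_prod _ _ h).trans ?_
  rw [Cardinal.prod_const, Cardinal.lift_id, Cardinal.lift_id]
  have := Fintype.ofFinite J
  rw [Cardinal.mk_fintype]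
  exact Cardinal.power_nat_le ha

section glue

variable {D : ℕ → Type}

/-- Glue a part below `m` and a part above `m`. -/
def glF (m : ℕ) (f : (j : {j // j < m}) → D j.1) (e : (j : {j // m ≤ j}) → D j.1) : (j : ℕ) → D j :=
  fun j => if h : j < m then f ⟨j, h⟩ else e ⟨j, not_lt.1 h⟩

/-- The part below `m`. -/
def loF (m : ℕ) (e : (j : ℕ) → D j) : (j : {j // j < m}) → D j.1 := fun j => e j.1

/-- The part above `m`. -/
def hiF (m : ℕ) (e : (j : ℕ) → D j) : (j : {j // m ≤ j}) → D j.1 := fun j => e j.1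

theorem glF_lo_hi (m : ℕ) (e : (j : ℕ) → D j) : glF m (loF m e) (hiF m e) = e := by
  funext j
  by_cases h : j < m
  · simp [glF, loF, h]
  · simp [glF, hiF, h]

theorem gl_lt {m : ℕ} {f : (j : {j // j < m}) → D j.1} {e : (j : {j // m ≤ j}) → D j.1} {j : ℕ}
    (h : j < m) : glF m f e j = f ⟨j, h⟩ := by simp [glF, h]

theorem gl_ge {m : ℕ} {f : (j : {j // j < m}) → D j.1} {e : (j : {j // m ≤ j}) → D j.1} {j : ℕ}
    (h : m ≤ j) : glF m f e j = e ⟨j, h⟩ := by simp [glF, not_lt.2 h]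

variable [∀ j, Preorder (D j)]

theorem gl_mono {m : ℕ} {f f' : (j : {j // j < m}) → D j.1} {e e' : (j : {j // m ≤ j}) → D j.1}
    (hf : f' ≤ f) (he : e' ≤ e) : glF m f' e' ≤ glF m f e := by
  intro j
  by_cases h : j < m
  · rw [gl_lt h, gl_lt h]
    exact hf _
  · rw [gl_ge (not_lt.1 h), gl_ge (not_lt.1 h)]
    exact he _

end glue

section fusion

variable {K C M : Type} [Preorder K] [Preorder C] {D : ℕ → Type} [∀ j, Preorder (D j)]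
  {κ : ℕ → Cardinal.{0}}

/-- One step of the fusion. -/
theorem fusion_stage (hκ : Monotone κ) (h0 : ℵ₀ ≤ κ 0) (hM : ∀ n, κ n ≤ #M) (hK : #K ≤ κ 0)
    (hC : #C ≤ κ 0) (hD : ∀ j, #(D j) ≤ κ (j + 1)) (hcl : ∀ j, DirectedClosed (κ j) (D j))
    {Z : Type} [Preorder Z] (hZ : DirectedClosed #M Z) {I : Type} (m : ℕ) (hI : #I ≤ κ m)
    (O : I → K → C × ((j : ℕ) → D j) → Z → Prop)
    (hO : ∀ i k w z k' w' z', k' ≤ k → w' ≤ w → z' ≤ z → O i k w z → O i k' w' z')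
    (k0 : K) (c0 : C) (e0 : (j : ℕ) → D j) (z0 : Z)
    (hd : ∀ i k w z, k ≤ k0 → w ≤ (c0, e0) → z ≤ z0 →
      ∃ k' w' z', k' ≤ k ∧ w' ≤ w ∧ z' ≤ z ∧ O i k' w' z') (z : Z) (e : (j : ℕ) → D j)
    (hz : z ≤ z0) (he : e ≤ e0) :
    ∃ (z' : Z) (e' : (j : ℕ) → D j), z' ≤ z ∧ e' ≤ e ∧ (∀ j, j < m → e' j = e j) ∧
      ∀ i k c (f : (j : {j // j < m}) → D j.1), k ≤ k0 → c ≤ c0 → f ≤ loF m e →
        ∃ k' c' f', k' ≤ k ∧ c' ≤ c ∧ f' ≤ f ∧ O i k' (c', glF m f' (hiF m e')) z' := by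
  have hinf : ∀ n, ℵ₀ ≤ κ n := fun n => h0.trans (hκ (Nat.zero_le n))
  have hQ : DirectedClosed (κ m) (Z × ((j : {j // m ≤ j}) → D j.1)) :=
    directed_prod (directed_mono hZ (hM m)) (directed_pi fun j => directed_mono (hcl j.1) (hκ j.2))
  have hT : #(I × K × C × ((j : {j // j < m}) → D j.1)) ≤ κ m := by
    have h1 : #((j : {j // j < m}) → D j.1) ≤ κ m :=
      mk_finpi_le (hinf m) fun j => (hD j.1).trans (hκ j.2)
    have h2 : #K ≤ κ m := hK.trans (hκ (Nat.zero_le m))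
    have h3 : #C ≤ κ m := hC.trans (hκ (Nat.zero_le m))
    simp only [Cardinal.mk_prod, Cardinal.lift_id]
    refine (mul_le_mul' hI (mul_le_mul' h2 (mul_le_mul' h3 h1))).trans ?_
    rw [Cardinal.mul_eq_self (hinf m), Cardinal.mul_eq_self (hinf m),
      Cardinal.mul_eq_self (hinf m)]
  obtain ⟨⟨z', e'⟩, hle, hmeet⟩ := meet (hinf m) hQ hT
    (fun t => {q : Z × ((j : {j // m ≤ j}) → D j.1) | t.2.1 ≤ k0 → t.2.2.1 ≤ c0 →
      t.2.2.2 ≤ loF m e → ∃ k' c' f', k' ≤ t.2.1 ∧ c' ≤ t.2.2.1 ∧ f' ≤ t.2.2.2 ∧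
        O t.1 k' (c', glF m f' q.2) q.1}) (z, hiF m e)
    (by
      rintro ⟨i, k, c, f⟩ q r hrq hq hk hc hf
      obtain ⟨k', c', f', h1, h2, h3, h4⟩ := hq hk hc hf
      have h5 : (c', glF m f' r.2) ≤ (c', glF m f' q.2) := ⟨le_rfl, gl_mono le_rfl hrq.2⟩
      exact ⟨k', c', f', h1, h2, h3, hO _ _ _ _ _ _ _ le_rfl h5 hrq.1 h4⟩)
    (by
      rintro ⟨i, k, c, f⟩ q hq
      by_cases h : k ≤ k0 ∧ c ≤ c0 ∧ f ≤ loF m e
      · obtain ⟨k', ⟨c', e'⟩, z', h1, h2, h3, h4⟩ := hd i k (c, glF m f q.2) q.1 h.1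
          ⟨h.2.1, ((gl_mono h.2.2 hq.2).trans (glF_lo_hi m e).le).trans he⟩ (hq.1.trans hz)
        refine ⟨(z', hiF m e'), ⟨h3, fun j => ?_⟩, fun _ _ _ => ⟨k', c', loF m e', h1, h2.1,
          fun j => ?_, ?_⟩⟩
        · have h5 : e' j.1 ≤ glF m f q.2 j.1 := h2.2 j.1
          rw [gl_ge j.2] at h5
          exact h5
        · have h5 : e' j.1 ≤ glF m f q.2 j.1 := h2.2 j.1
          rw [gl_lt j.2] at h5
          exact h5
        · change O i k' (c', glF m (loF m e') (hiF m e')) z'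
          rw [glF_lo_hi]
          exact h4
      · exact ⟨q, le_rfl, fun h1 h2 h3 => absurd ⟨h1, h2, h3⟩ h⟩)
  refine ⟨z', glF m (loF m e) e', hle.1, ?_, fun j hj => gl_lt hj, fun i k c f hk hc hf => ?_⟩
  · refine (gl_mono le_rfl hle.2).trans ?_
    rw [glF_lo_hi]
  · obtain ⟨k', c', f', h1, h2, h3, h4⟩ := hmeet (i, k, c, f) hk hc hf
    refine ⟨k', c', f', h1, h2, h3, ?_⟩
    have h5 : hiF m (glF m (loF m e) e') = e' := by
      funext j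
      exact gl_ge j.2
    rw [h5]
    exact h4

theorem fusion (hκ : Monotone κ) (h0 : ℵ₀ ≤ κ 0) (hM : ∀ n, κ n ≤ #M) (rk : M → ℕ)
    (hrk : ∀ n, #{i // rk i ≤ n} ≤ κ n) (hK : #K ≤ κ 0)
    (hC : #C ≤ κ 0) (hD : ∀ j, #(D j) ≤ κ (j + 1)) (hcl : ∀ j, DirectedClosed (κ j) (D j)) :
    Fusion K (C × ((j : ℕ) → D j)) M := by
  intro Z _ hZ I hI O hO k0 w0 z0 hd
  obtain ⟨c0, e0⟩ := w0
  obtain ⟨φ⟩ := (Cardinal.le_def _ _).1 hI
  have hIm : ∀ m, #{i : I // rk (φ i) ≤ m} ≤ κ m := fun m =>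
    (Cardinal.mk_le_of_injective (f := fun i : {i : I // rk (φ i) ≤ m} =>
      (⟨φ i.1, i.2⟩ : {i // rk i ≤ m})) fun i j h => Subtype.ext (φ.injective
        (congrArg (fun z : {i // rk i ≤ m} => z.1) h))).trans (hrk m)
  let S : Type := {s : Z × ((j : ℕ) → D j) // s.1 ≤ z0 ∧ s.2 ≤ e0}
  have step : ∀ (m : ℕ) (s : S), ∃ s' : S, s'.1.1 ≤ s.1.1 ∧ s'.1.2 ≤ s.1.2 ∧
      (∀ j, j < m → s'.1.2 j = s.1.2 j) ∧
      ∀ i, rk (φ i) ≤ m → ∀ k c (f : (j : {j // j < m}) → D j.1), k ≤ k0 → c ≤ c0 →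
        f ≤ loF m s.1.2 →
        ∃ k' c' f', k' ≤ k ∧ c' ≤ c ∧ f' ≤ f ∧ O i k' (c', glF m f' (hiF m s'.1.2)) s'.1.1 := by
    rintro m ⟨⟨z, e⟩, hz, he⟩
    obtain ⟨z', e', h1, h2, h3, h4⟩ := fusion_stage hκ h0 hM hK hC hD hcl hZ m (hIm m)
      (fun i => O i.1) (fun i => hO i.1) k0 c0 e0 z0 (fun i => hd i.1) z e hz he
    exact ⟨⟨(z', e'), h1.trans hz, h2.trans he⟩, h1, h2, h3,
      fun i hrk k c f hk hc hf => h4 ⟨i, hrk⟩ k c f hk hc hf⟩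
  choose nx hn1 hn2 hn3 hn4 using step
  let s : ℕ → S := fun m => Nat.rec ⟨(z0, e0), le_rfl, le_rfl⟩ (fun m s => nx m s) m
  have hs : ∀ m, s (m + 1) = nx m (s m) := fun m => rfl
  have hz : Antitone fun m => (s m).1.1 := antitone_nat_of_succ_le fun m => hn1 m (s m)
  have he : Antitone fun m => (s m).1.2 := antitone_nat_of_succ_le fun m => hn2 m (s m)
  have hst : ∀ m j, j < m → (s m).1.2 j = (s (j + 1)).1.2 j := by
    intro m j hj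
    induction m, Nat.succ_le_of_lt hj using Nat.le_induction with
    | base => rfl
    | succ m hm ih =>
      rw [hs m, hn3 m (s m) j (Nat.lt_of_succ_le hm)]
      exact ih (Nat.lt_of_succ_le hm)
  let e1 : (j : ℕ) → D j := fun j => (s (j + 1)).1.2 j
  have he1 : ∀ m, e1 ≤ (s m).1.2 := by
    intro m j
    rcases lt_or_ge j m with h | h
    · exact (hst m j h).ge
    · exact he (Nat.le_succ_of_le h) j
  have hinfM : ℵ₀ ≤ #M := h0.trans (hM 0)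
  obtain ⟨z1, hz1⟩ := hZ (Set.range fun m => (s m).1.1)
    ((Cardinal.mk_range_le.trans (le_of_eq Cardinal.mk_nat)).trans hinfM)
    (by
      rintro a ⟨m, rfl⟩ b ⟨n, rfl⟩
      exact ⟨_, ⟨max m n, rfl⟩, hz (le_max_left m n), hz (le_max_right m n)⟩)
  have hz1' : ∀ m, z1 ≤ (s m).1.1 := fun m => hz1 _ ⟨m, rfl⟩
  refine ⟨(c0, e1), z1, ⟨le_rfl, he1 0⟩, hz1' 0, ?_⟩
  rintro i k ⟨c, e⟩ hk ⟨hc, hee⟩
  have hee' : e ≤ e1 := hee
  obtain ⟨k', c', f', h1, h2, h3, h4⟩ := hn4 (rk (φ i)) (s (rk (φ i))) i le_rfl k c (loF _ e) hk hc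
    (fun j => (hee' j.1).trans (he1 _ j.1))
  rw [← hs] at h4
  have h5 : hiF (rk (φ i)) e ≤ hiF (rk (φ i)) (s (rk (φ i) + 1)).1.2 := fun j =>
    (hee' j.1).trans (he1 (rk (φ i) + 1) j.1)
  have h6 : (c', glF (rk (φ i)) f' (hiF (rk (φ i)) e)) ≤
      (c', glF (rk (φ i)) f' (hiF (rk (φ i)) (s (rk (φ i) + 1)).1.2)) := ⟨le_rfl, gl_mono le_rfl h5⟩
  have h7 : glF (rk (φ i)) f' (hiF (rk (φ i)) e) ≤ e := by
    refine (gl_mono h3 le_rfl).trans ?_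
    rw [glF_lo_hi]
  exact ⟨k', (c', glF _ f' (hiF _ e)), h1, ⟨h2, h7⟩,
    hO _ _ _ _ _ _ _ le_rfl h6 (hz1' (rk (φ i) + 1)) h4⟩

end fusion

/-! ### Bounds -/

section reg

variable {L M : Type} [LinearOrder L] [hA : Amb L M]

/-- The levels with the reversed order. -/
theorem dual_closed : DirectedClosed #M Lᵒᵈ := by
  intro S hS _
  obtain ⟨a, ha⟩ := hA.bdd S (fun s => OrderDual.ofDual s.1) hS
  exact ⟨OrderDual.toDual a, fun s hs => (ha ⟨s, hs⟩).le⟩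

theorem reg {K W Q : Type} [Preorder K] [Preorder W] [Preorder Q] (hF : Fusion K W M)
    (hQ : DirectedClosed #M Q) {I : Type} (hI : #I ≤ #M) (Ψ : I → K → W → Q → L → Prop)
    (hΨ : ∀ i k w q a k' w' q' a', k' ≤ k → w' ≤ w → q' ≤ q → a ≤ a' → Ψ i k w q a →
      Ψ i k' w' q' a') (k0 : K) (w0 : W) (q0 : Q)
    (hd : ∀ i k w q, k ≤ k0 → w ≤ w0 → q ≤ q0 →
      ∃ k' w' q', k' ≤ k ∧ w' ≤ w ∧ q' ≤ q ∧ ∃ a, Ψ i k' w' q' a) :
    ∃ w1 q1 a, w1 ≤ w0 ∧ q1 ≤ q0 ∧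
      ∀ i k w, k ≤ k0 → w ≤ w1 → ∃ k' w', k' ≤ k ∧ w' ≤ w ∧ Ψ i k' w' q1 a := by
  obtain ⟨a0, -⟩ := hA.bdd Empty (fun e => e.elim) (by simp)
  obtain ⟨w1, ⟨q1, a1⟩, h1, h2, h3⟩ := hF (Q × Lᵒᵈ) (directed_prod hQ dual_closed) I hI
    (fun i k w z => Ψ i k w z.1 (OrderDual.ofDual z.2))
    (fun i k w z k' w' z' hk hw hz h => hΨ _ _ _ _ _ _ _ _ _ hk hw hz.1 hz.2 h)
    k0 w0 (q0, OrderDual.toDual a0) (by
      rintro i k w ⟨q, a⟩ hk hw hq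
      obtain ⟨k', w', q', hk', hw', hq', b, hb⟩ := hd i k w q hk hw hq.1
      refine ⟨k', w', (q', OrderDual.toDual (max (OrderDual.ofDual a) b)), hk', hw', ⟨hq', ?_⟩, ?_⟩
      · exact le_max_left (OrderDual.ofDual a) b
      · exact hΨ _ _ _ _ _ _ _ _ _ le_rfl le_rfl le_rfl (le_max_right _ _) hb)
  exact ⟨w1, q1, OrderDual.ofDual a1, h1, h2.1, h3⟩

/-- Names for functions from `M` to `L` are bounded, for every projection of `K × W × Q`. -/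
theorem bddNames {K W Q P : Type} [Preorder K] [Preorder W] [Preorder Q] [Preorder P]
    (hF : Fusion K W M) (hQ : DirectedClosed #M Q) {π : K × W × Q → P} (hπ : IsProj π)
    (hπ' : ∀ p, ∃ z, π z ≤ p) : BddNames P L M := by
  intro c e
  obtain ⟨⟨k0, w0, q0⟩, hz0⟩ := hπ' e
  obtain ⟨w1, q1, a, h1, h2, h3⟩ := reg (L := L) hF hQ (I := M) le_rfl
    (fun i k w q a => ∃ l, l < a ∧ ((c i).val l).holds (π (k, w, q)))
    (fun i k w q a k' w' q' a' hk hw hq ha ⟨l, hl, h⟩ =>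
      ⟨l, hl.trans_le ha, ((c i).val l).mono _ _ (hπ.mono _ _ ⟨hk, hw, hq⟩) h⟩) k0 w0 q0
    (by
      intro i k w q _ _ _
      obtain ⟨p, hp, l, hl⟩ := (c i).total (π (k, w, q))
      obtain ⟨⟨k', w', q'⟩, hle, hp'⟩ := hπ.lift _ _ hp
      obtain ⟨a, ha⟩ := hA.bdd Unit (fun _ => l) (mk_unit_le (L := L))
      exact ⟨k', w', q', hle.1, hle.2.1, hle.2.2, a, l, ha (), ((c i).val l).mono _ _ hp' hl⟩)
  have h0 : π (k0, w1, q1) ≤ π (k0, w0, q0) := hπ.mono _ _ ⟨le_rfl, h1, h2⟩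
  refine ⟨π (k0, w1, q1), h0.trans hz0, a, fun i l p hp hl => ?_⟩
  obtain ⟨⟨k, w, q⟩, hle, hp'⟩ := hπ.lift _ _ hp
  obtain ⟨k', w', hk', hw', l', hl', h4⟩ := h3 i k w hle.1 hle.2.1
  have h5 : π (k', w', q) ≤ π (k', w', q1) := hπ.mono _ _ ⟨le_rfl, le_rfl, hle.2.2⟩
  have h7 : π (k', w', q) ≤ π (k, w, q) := hπ.mono _ _ ⟨hk', hw', le_rfl⟩
  have h6 : π (k', w', q) ≤ p := h7.trans hp'
  rw [(c i).agree h6 h5 hl h4]
  exact hl'

/-- If `J x` is a name for an element of `M`, for every `x` in `L`, then two of these names are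
equal. -/
theorem two_equal {K W Q P : Type} [Preorder K] [Preorder W] [Preorder Q] [Preorder P]
    (hF : Fusion K W M) (hQ : DirectedClosed #M Q) {π : K × W × Q → P} (hπ : IsProj π)
    (J : L → P → M → Prop) (hJ : ∀ x p q i, q ≤ p → J x p i → J x q i) (z0 : K × W × Q)
    (hJ' : ∀ x p, p ≤ π z0 → ∃ q, q ≤ p ∧ ∃ i, J x q i) :
    ∃ p, p ≤ π z0 ∧ ∃ x y i, x ≠ y ∧ J x p i ∧ J y p i := by
  by_contra hcon
  push Not at hcon
  obtain ⟨k0, w0, q0⟩ := z0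
  obtain ⟨w1, q1, a, h1, h2, h3⟩ := reg (L := L) hF hQ (I := M) le_rfl
    (fun i k w q a => ∀ p, p ≤ π (k, w, q) → ∀ x, J x p i → x < a)
    (fun i k w q a k' w' q' a' hk hw hq ha h p hp x hx =>
      (h p (hp.trans (hπ.mono _ _ ⟨hk, hw, hq⟩)) x hx).trans_le ha) k0 w0 q0
    (by
      intro i k w q hk hw hq
      by_cases h : ∃ p, p ≤ π (k, w, q) ∧ ∃ x, J x p i
      · obtain ⟨p, hp, x, hx⟩ := h
        obtain ⟨⟨k', w', q'⟩, hle, hp'⟩ := hπ.lift _ _ hp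
        obtain ⟨a, ha⟩ := hA.bdd Unit (fun _ => x) (mk_unit_le (L := L))
        refine ⟨k', w', q', hle.1, hle.2.1, hle.2.2, a, fun p1 hp1 y hy => ?_⟩
        have h4 : p1 ≤ π (k0, w0, q0) := (hp1.trans hp').trans
          (hp.trans (hπ.mono _ _ ⟨hk, hw, hq⟩))
        have h5 : y = x := by
          by_contra hne
          exact hcon p1 h4 y x i hne hy (hJ _ _ _ _ (hp1.trans hp') hx)
        rw [h5]
        exact ha ()
      · push Not at h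
        obtain ⟨a, -⟩ := hA.bdd Empty (fun e => e.elim) (by simp)
        exact ⟨k, w, q, le_rfl, le_rfl, le_rfl, a, fun p hp x hx => absurd hx (h p hp x)⟩)
  obtain ⟨p, hp, i, hiF⟩ := hJ' a (π (k0, w1, q1)) (hπ.mono _ _ ⟨le_rfl, h1, h2⟩)
  obtain ⟨⟨k, w, q⟩, hle, hp'⟩ := hπ.lift _ _ hp
  obtain ⟨k', w', hk', hw', h4⟩ := h3 i k w hle.1 hle.2.1
  have h5 : π (k', w', q) ≤ π (k', w', q1) := hπ.mono _ _ ⟨le_rfl, le_rfl, hle.2.2⟩
  have h7 : π (k', w', q) ≤ π (k, w, q) := hπ.mono _ _ ⟨hk', hw', le_rfl⟩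
  have h6 : π (k', w', q) ≤ p := h7.trans hp'
  exact lt_irrefl a (h4 _ h5 a (hJ _ _ _ _ h6 hiF))

end reg

end CLC
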