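import Pool.Agent.Lib.CLC.Posets

/-!
# Splitting the product of the collapses
-/

namespace CLC

open Cardinal CAT9

section

variable (κ : ℕ → Cardinal.{0})

/-- The product of the first `m` collapses. -/
abbrev Elt (m : ℕ) : Type := (j : {j : ℕ // j < m}) → CJ κ j.1

/-- The product of the collapses from number `m` on. -/
abbrev Ege (m : ℕ) : Type := (j : {j : ℕ // m ≤ j}) → CJ κ j.1

variable {κ}

/-- Put the parts together. -/
def join2 {m : ℕ} (f : Elt κ m) (g : Ege κ m) : EE0 κ := fun j =>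
  if h : j < m then f ⟨j, h⟩ else g ⟨j, not_lt.1 h⟩

/-- The first part. -/
def lo (m : ℕ) (h : EE0 κ) : Elt κ m := fun j => h j.1

/-- The second part. -/
def hi (m : ℕ) (h : EE0 κ) : Ege κ m := fun j => h j.1

theorem join2_lo_hi (m : ℕ) (h : EE0 κ) : join2 (lo m h) (hi m h) = h := by
  funext j
  by_cases hj : j < m <;> simp [join2, lo, hi, hj]

theorem lo_join2 {m : ℕ} (f : Elt κ m) (g : Ege κ m) : lo m (join2 f g) = f := by
  funext j
  simp [join2, lo, j.2]

theorem hi_join2 {m : ℕ} (f : Elt κ m) (g : Ege κ m) : hi m (join2 f g) = g := by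
  funext j
  simp [join2, hi, not_lt.2 j.2]

theorem join2_le {m : ℕ} {f f' : Elt κ m} {g g' : Ege κ m} (hf : f' ≤ f) (hg : g' ≤ g) :
    join2 f' g' ≤ join2 f g := by
  intro j
  by_cases hj : j < m
  · simpa [join2, hj] using hf ⟨j, hj⟩
  · simpa [join2, hj] using hg ⟨j, not_lt.1 hj⟩

theorem lo_le {m : ℕ} {h h' : EE0 κ} (hh : h' ≤ h) : lo m h' ≤ lo m h := fun j => hh j.1

theorem hi_le {m : ℕ} {h h' : EE0 κ} (hh : h' ≤ h) : hi m h' ≤ hi m h := fun j => hh j.1

/-- Split off the last collapse. -/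
def join1 {n : ℕ} (f : Elt κ n) (c : CJ κ n) : Elt κ (n + 1) := fun j =>
  if h : j.1 < n then f ⟨j.1, h⟩ else
    cast (congrArg (fun i => CJ κ i)
      (show n = j.1 from le_antisymm (not_lt.1 h) (Nat.lt_succ_iff.1 j.2))) c

/-- The first collapses. -/
def init1 {n : ℕ} (f : Elt κ (n + 1)) : Elt κ n := fun j => f ⟨j.1, j.2.trans (Nat.lt_succ_self n)⟩

/-- The last collapse. -/
def last1 {n : ℕ} (f : Elt κ (n + 1)) : CJ κ n := f ⟨n, Nat.lt_succ_self n⟩

theorem join1_init_last {n : ℕ} (f : Elt κ (n + 1)) : join1 (init1 f) (last1 f) = f := by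
  funext ⟨j, hj⟩
  by_cases h : j < n
  · simp [join1, init1, h]
  · obtain rfl : j = n := le_antisymm (Nat.lt_succ_iff.1 hj) (not_lt.1 h)
    simp [join1, last1]

theorem init1_join1 {n : ℕ} (f : Elt κ n) (c : CJ κ n) : init1 (join1 f c) = f := by
  funext j
  simp [join1, init1, j.2]

theorem last1_join1 {n : ℕ} (f : Elt κ n) (c : CJ κ n) : last1 (join1 f c) = c := by
  simp [join1, last1]

theorem init1_le {n : ℕ} {f f' : Elt κ (n + 1)} (h : f' ≤ f) : init1 f' ≤ init1 f :=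
  fun _ => h _

theorem last1_le {n : ℕ} {f f' : Elt κ (n + 1)} (h : f' ≤ f) : last1 f' ≤ last1 f := h _

theorem join1_le {n : ℕ} {f f' : Elt κ n} {c c' : CJ κ n} (hf : f' ≤ f) (hc : c' ≤ c) :
    join1 f' c' ≤ join1 f c := by
  rintro ⟨j, hj⟩
  by_cases h : j < n
  · simpa [join1, h] using hf ⟨j, h⟩
  · obtain rfl : j = n := le_antisymm (Nat.lt_succ_iff.1 hj) (not_lt.1 h)
    simpa [join1] using hc

end

end CLC
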