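import Pool.Agent.Lib.CLC.Join

/-!
# Splitting off one coordinate of the product of the closed forcing notions
-/

namespace CLC

open Cardinal CAT9

section

variable (κ : ℕ → Cardinal.{0}) (a : Nod (κ 0))

/-- The order of `QA κ a`. -/
@[reducible] noncomputable def pQA : Preorder (QA κ a) := inferInstance

/-- The order of `DD κ`. -/
@[reducible] noncomputable def pDD : Preorder (DD κ) := inferInstance

/-- The order of `BB κ a`. -/
@[reducible] noncomputable def pBB : Preorder (BB κ a) := inferInstance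

/-- The order of `PP κ a`. -/
@[reducible] noncomputable def pPP : Preorder (PP κ a) := inferInstance

/-- The other coordinates. -/
abbrev Oth : Type := (b : {b : Nod (κ 0) // b ≠ a}) → QA κ b.1

/-- The order of `Oth κ a`. -/
@[reducible] noncomputable def pOth : Preorder (Oth κ a) := inferInstance

variable {κ a}

open Classical in
/-- Put the coordinates together. -/
noncomputable def jn (z : Oth κ a) (q : QA κ a) : DD κ := fun b =>
  if h : b = a then cast (congrArg (fun b => QA κ b) h.symm) q else z ⟨b, h⟩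

theorem jn_self (z : Oth κ a) (q : QA κ a) : jn z q a = q := by
  simp [jn]

theorem jn_ne (z : Oth κ a) (q : QA κ a) {b : Nod (κ 0)} (h : b ≠ a) :
    jn z q b = z ⟨b, h⟩ := by
  simp [jn, h]

theorem jn_eta (d : DD κ) : jn (fun b => d b.1) (d a) = d := by
  funext b
  by_cases h : b = a
  · subst h
    rw [jn_self]
  · rw [jn_ne _ _ h]

theorem jn_mono {z z' : Oth κ a} {q q' : QA κ a} (hz : z' ≤ z) (hq : q' ≤ q) :
    jn z' q' ≤ jn z q := by
  intro b
  by_cases h : b = a
  · subst h
    rw [jn_self, jn_self]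
    exact hq
  · rw [jn_ne _ _ h, jn_ne _ _ h]
    exact hz ⟨b, h⟩

/-- The other coordinates are closed. -/
theorem oth_closed [hA : Amb (Lev (nu κ)) (Nod (nu κ))] :
    DirectedClosed #(Nod (nu κ)) (Oth κ a) := by
  intro S hS hd
  have h1 : ∀ b : {b : Nod (κ 0) // b ≠ a}, ∃ q : QA κ b.1, ∀ s ∈ S, q ≤ s b := by
    intro b
    obtain ⟨q, hq⟩ := qq_closed (G := KK κ b.1 × AddOmega) (X := XX κ b.1) (L := Lev (nu κ))
      (M := Nod (nu κ)) ((fun s : Oth κ a => s b) '' S) (Cardinal.mk_image_le.trans hS) (by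
        rintro _ ⟨s, hs, rfl⟩ _ ⟨t, ht, rfl⟩
        obtain ⟨u, hu, h1, h2⟩ := hd s hs t ht
        exact ⟨_, ⟨u, hu, rfl⟩, h1 b, h2 b⟩)
    exact ⟨q, fun s hs => hq _ ⟨s, hs, rfl⟩⟩
  choose q hq using h1
  exact ⟨q, fun s hs b => hq b s hs⟩

end

end CLC
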