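import Pool.Agent.Lib.CLC.StepB2

/-!
# Branch preservation
-/

namespace CLC

open Cardinal CAT9

section

variable {κ δ : Cardinal.{0}} {A D L E : Type} [LinearOrder A] [Preorder E]

/-- Conditions together with a family of names. -/
structure HF (U : UltName κ E L) (δ : Cardinal.{0}) (A D J : Type) [LinearOrder A] where
  /-- the condition in `E` -/
  e : E
  /-- the condition in the collapse -/
  c : Col δ A D
  /-- the names -/
  h : J → PK κ L → ENm E (Col δ A D)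

/-- The assumption which makes the order transitive. -/
class UncFact (κ : Cardinal.{0}) : Prop where
  out : ℵ₀ < κ

instance {U : UltName κ E L} {J : Type} [hκ : UncFact κ] : Preorder (HF U δ A D J) where
  le s' s := s'.e ≤ s.e ∧ s'.c ≤ s.c ∧ ∀ j, leA U s'.e (s'.h j) (s.h j)
  le_refl := fun s => ⟨le_rfl, le_rfl, fun j => leA.refl _ _⟩
  le_trans := fun _ _ _ h1 h2 => ⟨h1.1.trans h2.1, LE.le.trans h1.2.1 h2.2.1,
    fun j => leA.trans hκ.out (h1.2.2 j) ((h2.2.2 j).mono h1.1)⟩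

theorem HF.closed [hκ : UncFact κ] (hE : DirClosedLT κ E) {U : UltName κ E L} (hδ : ℵ₀ ≤ δ)
    (hδκ : δ < κ) (J : Type) : DirectedClosed δ (HF U δ A D J) := by
  classical
  intro S hS hd
  have hSκ : #S < κ := hS.trans_lt hδκ
  obtain ⟨es, hes⟩ := directed_lower hE (J := S) hSκ (fun s => s.1.e) (by
    intro s t
    obtain ⟨u, hu, h1, h2⟩ := hd s.1 s.2 t.1 t.2
    exact ⟨⟨u, hu⟩, h1.1, h2.1⟩)
  obtain ⟨cs, hcs⟩ := Col.closed (A := A) (D := D) hδ (Set.range fun s : S => s.1.c)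
    (Cardinal.mk_range_le.trans hS) (by
      rintro _ ⟨s, rfl⟩ _ ⟨t, rfl⟩
      obtain ⟨u, hu, h1, h2⟩ := hd s.1 s.2 t.1 t.2
      exact ⟨u.c, ⟨⟨u, hu⟩, rfl⟩, h1.2.1, h2.2.1⟩)
  -- lower bounds of the values
  have hlb : ∀ v : S → Col δ A D, ∃ q : Col δ A D, (∀ s t, ∃ u, v u ≤ v s ∧ v u ≤ v t) →
      ∀ s, q ≤ v s := by
    intro v
    by_cases hv : ∀ s t, ∃ u, v u ≤ v s ∧ v u ≤ v t
    · obtain ⟨q, hq⟩ := Col.closed (A := A) (D := D) hδ (Set.range v)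
        (Cardinal.mk_range_le.trans hS) (by
          rintro _ ⟨s, rfl⟩ _ ⟨t, rfl⟩
          obtain ⟨u, h1, h2⟩ := hv s t
          exact ⟨v u, ⟨u, rfl⟩, h1, h2⟩)
      exact ⟨q, fun _ s => hq _ ⟨s, rfl⟩⟩
    · exact ⟨Col.empty, fun h => absurd h hv⟩
  choose lb hlb using hlb
  let H : J → PK κ L → ENm E (Col δ A D) := fun j x =>
    (ENm.pi hE hSκ hκ.out fun s : S => s.1.h j x).map lb
  refine ⟨⟨es, cs, H⟩, fun s hs => ⟨hes ⟨s, hs⟩, hcs _ ⟨⟨s, hs⟩, rfl⟩, fun j => ?_⟩⟩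
  have hdir : ∀ s t : S, ∃ u : S, leA U es (u.1.h j) (s.1.h j) ∧
      leA U es (u.1.h j) (t.1.h j) := by
    intro s t
    obtain ⟨u, hu, h1, h2⟩ := hd s.1 s.2 t.1 t.2
    exact ⟨⟨u, hu⟩, (h1.2.2 j).mono (hes ⟨u, hu⟩), (h2.2.2 j).mono (hes ⟨u, hu⟩)⟩
  choose w hw1 hw2 using hdir
  have hSS : #(S × S) < κ := by
    simp only [Cardinal.mk_prod, Cardinal.lift_id]
    exact Cardinal.mul_lt_of_lt hκ.out.le hSκ hSκ
  have h1 := U.complete (S × S) hSS es _ (fun st => hw1 st.1 st.2)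
  have h2 := U.complete (S × S) hSS es _ (fun st => hw2 st.1 st.2)
  refine UltName.weaken (UltName.ae_and hκ.out h1 h2) fun x q hq hx r hr => ?_
  obtain ⟨s', hs', v, hv⟩ := (ENm.pi hE hSκ hκ.out fun s : S => s.1.h j x).total r
  have hv' : ∀ s : S, ((s.1.h j x).val (v s)).holds s' := hv
  have hvd : ∀ s t, ∃ u, v u ≤ v s ∧ v u ≤ v t := by
    intro s t
    refine ⟨w s t, ?_, ?_⟩
    · obtain ⟨t', ht', ⟨⟨a, b⟩, hab⟩, ha, hb⟩ := hx.1 (s, t) s' (hs'.trans hr)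
      have e1 : a = v (w s t) := ((w s t).1.h j x).agree le_rfl ht' ha (hv' _)
      have e2 : b = v s := (s.1.h j x).agree le_rfl ht' hb (hv' _)
      rw [← e1, ← e2]
      exact hab
    · obtain ⟨t', ht', ⟨⟨a, b⟩, hab⟩, ha, hb⟩ := hx.2 (s, t) s' (hs'.trans hr)
      have e1 : a = v (w s t) := ((w s t).1.h j x).agree le_rfl ht' ha (hv' _)
      have e2 : b = v t := (t.1.h j x).agree le_rfl ht' hb (hv' _)
      rw [← e1, ← e2]
      exact hab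
  exact ⟨s', hs', ⟨(lb v, v ⟨s, hs⟩), hlb v hvd _⟩, ENm.map_val hv, hv' ⟨s, hs⟩⟩

variable [LinearOrder L] {F I N M : Type} [Preorder F] {U : UltName κ E L}
  {R : NSys E F (Col δ A D) I L N} {hδ : ℵ₀ ≤ δ} {ι : A → L} {γ : PK κ L → ENm E L}

/-- The names `h0` and `h1` have no common covering above `α`. -/
def Done (U : UltName κ E L) (R : NSys E F (Col δ A D) I L N) (hδ : ℵ₀ ≤ δ) (ι : A → L)
    (γ : PK κ L → ENm E L) (e : E) (f : F) (c : Col δ A D)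
    (h0 h1 : PK κ L → ENm E (Col δ A D)) (i : I) (ζ : N) (α : L) : Prop :=
  ∀ e' f' c' h0' h1', e' ≤ e → f' ≤ f → c' ≤ c → leA U e' h0' h0 → leA U e' h1' h1 →
    ∀ β ξ, α < β → ¬ (Cov U R hδ ι γ e' f' c' h0' β ξ i ζ ∧ Cov U R hδ ι γ e' f' c' h1' β ξ i ζ)

theorem Done.mono (hκ : ℵ₀ < κ) {e e' : E} {f f' : F} {c c' : Col δ A D}
    {h0 h1 h0' h1' : PK κ L → ENm E (Col δ A D)} {i : I} {ζ : N} {α α' : L}
    (hd : Done U R hδ ι γ e f c h0 h1 i ζ α) (he : e' ≤ e) (hf : f' ≤ f) (hc : c' ≤ c)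
    (hh0 : leA U e' h0' h0) (hh1 : leA U e' h1' h1) (hα : α ≤ α') :
    Done U R hδ ι γ e' f' c' h0' h1' i ζ α' := by
  intro e2 f2 c2 h02 h12 he2 hf2 hc2 hh02 hh12 β ξ hβ
  exact hd e2 f2 c2 h02 h12 (he2.trans he) (hf2.trans hf) (LE.le.trans hc2 hc)
    (leA.trans hκ hh02 (hh0.mono he2)) (leA.trans hκ hh12 (hh1.mono he2)) β ξ (hα.trans_lt hβ)

theorem Done.symm {e : E} {f : F} {c : Col δ A D}
    {h0 h1 : PK κ L → ENm E (Col δ A D)} {i : I} {ζ : N} {α : L}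
    (hd : Done U R hδ ι γ e f c h0 h1 i ζ α) : Done U R hδ ι γ e f c h1 h0 i ζ α := by
  intro e2 f2 c2 h02 h12 he2 hf2 hc2 hh02 hh12 β ξ hβ hcon
  exact hd e2 f2 c2 h12 h02 he2 hf2 hc2 hh12 hh02 β ξ hβ ⟨hcon.2, hcon.1⟩

/-- Any two names can be separated. -/
theorem separate (hκ : ℵ₀ < κ) (hδκ : δ < κ) {e1 : E} {f1 : F} {c1 : Col δ A D}
    (hgood : ∀ e f c h i ζ, e ≤ e1 → f ≤ f1 → c ≤ c1 → ∃ e' f' c' h0 h1 α, e' ≤ e ∧ f' ≤ f ∧
      c' ≤ c ∧ leA U e' h0 h ∧ leA U e' h1 h ∧ Done U R hδ ι γ e' f' c' h0 h1 i ζ α)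
    {e : E} {f : F} {c : Col δ A D} (he : e ≤ e1) (hf : f ≤ f1) (hc : c ≤ c1)
    (h0 h1 : PK κ L → ENm E (Col δ A D)) (i : I) (ζ : N) :
    ∃ e' f' c' h0' h1' α, e' ≤ e ∧ f' ≤ f ∧ c' ≤ c ∧ leA U e' h0' h0 ∧ leA U e' h1' h1 ∧
      Done U R hδ ι γ e' f' c' h0' h1' i ζ α := by
  obtain ⟨e2, f2, c2, h00, h01, α, he2, hf2, hc2, hh00, hh01, hd⟩ := hgood e f c h0 i ζ he hf hc
  by_cases hd' : Done U R hδ ι γ e2 f2 c2 h00 h1 i ζ α
  · exact ⟨e2, f2, c2, h00, h1, α, he2, hf2, hc2, hh00, leA.refl _ _, hd'⟩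
  unfold Done at hd'
  push Not at hd'
  obtain ⟨e3, f3, c3, h00', h1', he3, hf3, hc3, hh00', hh1', β, ξ, hβ, hC0, hC1⟩ := hd'
  refine ⟨e3, f3, c3, h01, h1', β, he3.trans he2, hf3.trans hf2, LE.le.trans hc3 hc2,
    hh01.mono he3, hh1', ?_⟩
  intro e4 f4 c4 h01' h1'' he4 hf4 hc4 hh01' hh1'' β' ξ' hβ' ⟨hC2, hC3⟩
  have hC1' := hC1.mono hκ he4 hf4 hc4 hh1''
  have hR := Cov.coh hκ hδκ hC1' hC3 hβ'
  have hC4 := Cov.below hκ hδκ hC2 hR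
  exact hd e4 f4 c4 h00' h01' (he4.trans he3) (hf4.trans hf3) (LE.le.trans hc4 hc3)
    (hh00'.mono he4) hh01' β ξ hβ ⟨hC0.mono hκ he4 hf4 hc4 (leA.refl _ _), hC4⟩

/-- Either some name carries a branch, or there are too many separated names. -/
theorem exists_bad [hA : Amb L M] (hκ : ℵ₀ < κ) (hE : DirClosedLT κ E) (hδκ : δ < κ)
    (hδM : δ ≤ #M) (hD : #D < κ) (hι : Function.Injective ι) (hA' : ∀ a : A, #{b // b < a} < κ)
    {ρ : Cardinal.{0}} (hρ : ℵ₀ ≤ ρ) (hρδ : Order.succ ρ ≤ δ) (hF : #F ≤ ρ) (hI : #I ≤ ρ)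
    (hN : #N ≤ ρ) {S0 : SNm E L} {e1 : E} {f1 : F} {c1 : Col δ A D}
    (hb : Base U R S0 e1 f1 c1)
    (hγ : ∀ x e, e ≤ e1 → ∀ g, ((γ x).val g).holds e → (S0 g).holds e ∧ ∀ b ∈ x.1, b < g) :
    ∃ e f c h i ζ, e ≤ e1 ∧ f ≤ f1 ∧ c ≤ c1 ∧ ∀ e' f' c' h0 h1 α, e' ≤ e → f' ≤ f → c' ≤ c →
      leA U e' h0 h → leA U e' h1 h → ¬ Done U R hδ ι γ e' f' c' h0 h1 i ζ α := by
  classical
  by_contra hcon
  have hgood : ∀ e f c h i ζ, e ≤ e1 → f ≤ f1 → c ≤ c1 → ∃ e' f' c' h0 h1 α, e' ≤ e ∧ f' ≤ f ∧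
      c' ≤ c ∧ leA U e' h0 h ∧ leA U e' h1 h ∧ Done U R hδ ι γ e' f' c' h0 h1 i ζ α := by
    intro e f c h i ζ he hf hc
    by_contra hcon'
    refine hcon ⟨e, f, c, h, i, ζ, he, hf, hc, fun e' f' c' h0 h1 α h1' h2 h3 h4 h5 h6 => ?_⟩
    exact hcon' ⟨e', f', c', h0, h1, α, h1', h2, h3, h4, h5, h6⟩
  have hρκ : ρ < κ := (Order.lt_succ ρ).trans_le (hρδ.trans hδκ.le)
  have : UncFact κ := ⟨hκ⟩
  have := hA.wf
  have hdF : DecidableEq (Nod (Order.succ ρ)) := Classical.decEq _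
  -- the index set of the family
  let J : Type := Nod (Order.succ ρ)
  have hJ : #J = Order.succ ρ := mk_ord_toType _
  have hJδ : #J ≤ δ := hJ.le.trans hρδ
  have hcl := HF.closed (A := A) (D := D) hE (U := U) hδ hδκ J
  -- separate all pairs
  let K : Type := (J × J) × (F × (I × N))
  have hK : #K ≤ δ := by
    have h1 : ρ ≤ δ := (Order.le_succ ρ).trans hρδ
    simp only [K, Cardinal.mk_prod, Cardinal.lift_id]
    refine (mul_le_mul' (mul_le_mul' hJδ hJδ) (mul_le_mul' (hF.trans h1) (mul_le_mul'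
      (hI.trans h1) (hN.trans h1)))).trans ?_
    simp only [Cardinal.mul_eq_self hδ, le_refl]
  obtain ⟨s, hs, hsD⟩ := meet hδ hcl hK
    (fun k => {s : HF U δ A D J | k.1.1 ≠ k.1.2 → k.2.1 ≤ f1 → ∃ f', f' ≤ k.2.1 ∧ ∃ α,
      Done U R hδ ι γ s.e f' s.c (s.h k.1.1) (s.h k.1.2) k.2.2.1 k.2.2.2 α})
    ⟨e1, c1, fun _ _ => ENm.const Col.empty⟩
    (by
      rintro k q r hrq hq hne hf
      obtain ⟨f', hf', α, hd⟩ := hq hne hf
      exact ⟨f', hf', α, hd.mono hκ hrq.1 le_rfl hrq.2.1 (hrq.2.2 _) (hrq.2.2 _) le_rfl⟩)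
    (by
      rintro ⟨⟨j, k⟩, f, i, ζ⟩ q hq
      by_cases hne : j ≠ k ∧ f ≤ f1
      swap
      · exact ⟨q, le_rfl, fun h1 h2 => absurd ⟨h1, h2⟩ hne⟩
      obtain ⟨e', f', c', h0', h1', α, he', hf', hc', hh0, hh1, hd⟩ :=
        separate hκ hδκ hgood hq.1 hne.2 hq.2.1 (q.h j) (q.h k) i ζ
      refine ⟨⟨e', c', fun l => if l = j then h0' else if l = k then h1' else q.h l⟩,
        ⟨he', hc', fun l => ?_⟩, fun _ _ => ⟨f', hf', α, ?_⟩⟩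
      · by_cases h1 : l = j
        · subst h1; simpa using hh0
        · by_cases h2 : l = k
          · subst h2; simpa [h1] using hh1
          · simpa [h1, h2] using leA.refl _ _
      · simpa [hne.1.symm] using hd)
  have hsD' : ∀ (j k : J) (f : F) (i : I) (ζ : N), j ≠ k → f ≤ f1 → ∃ f', f' ≤ f ∧ ∃ α,
      Done U R hδ ι γ s.e f' s.c (s.h j) (s.h k) i ζ α := fun j k f i ζ h1 h2 =>
    hsD ((j, k), (f, (i, ζ))) h1 h2
  -- a bound for the levels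
  have hα : ∀ k : K, ∃ α : L, k.1.1 ≠ k.1.2 → k.2.1 ≤ f1 → ∃ f', f' ≤ k.2.1 ∧
      Done U R hδ ι γ s.e f' s.c (s.h k.1.1) (s.h k.1.2) k.2.2.1 k.2.2.2 α := by
    intro k
    by_cases hne : k.1.1 ≠ k.1.2 ∧ k.2.1 ≤ f1
    · obtain ⟨f', hf', α, hd⟩ := hsD k hne.1 hne.2
      exact ⟨α, fun _ _ => ⟨f', hf', hd⟩⟩
    · obtain ⟨a, -⟩ := hA.bdd Empty (fun e => e.elim) (by simp)
      exact ⟨a, fun h1 h2 => absurd ⟨h1, h2⟩ hne⟩
  choose αf hαf using hα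
  obtain ⟨αs, hαs⟩ := hA.bdd K αf (hK.trans hδM)
  obtain ⟨e2, he2, β, hβ, hS0⟩ := hb.unb s.e hs.1 αs
  have hs2 : (⟨e2, s.c, s.h⟩ : HF U δ A D J) ≤ s := ⟨he2, le_rfl, fun j => leA.refl _ _⟩
  -- cover the level `β` by all names
  obtain ⟨t, ht, htD⟩ := meet hδ hcl hJδ
    (fun j => {t : HF U δ A D J | ∃ f', f' ≤ f1 ∧ ∃ ξ i ζ,
      Cov U R hδ ι γ t.e f' t.c (t.h j) β ξ i ζ}) ⟨e2, s.c, s.h⟩
    (by
      rintro j q r hrq ⟨f', hf', ξ, i, ζ, hC⟩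
      exact ⟨f', hf', ξ, i, ζ, hC.mono hκ hrq.1 le_rfl hrq.2.1 (hrq.2.2 _)⟩)
    (by
      intro j q hq
      obtain ⟨e', f', c', h', he', hf', hc', hh', ξ, i, ζ, hC⟩ := cover hκ hE hδκ hD hι hA'
        (hF.trans_lt hρκ) (hI.trans_lt hρκ) (hN.trans_lt hρκ) hb hγ
        (hq.1.trans (he2.trans hs.1)) (le_refl f1) (LE.le.trans hq.2.1 hs.2.1) (q.h j)
        ((S0 β).mono _ _ hq.1 hS0)
      refine ⟨⟨e', c', fun l => if l = j then h' else q.h l⟩, ⟨he', hc', fun l => ?_⟩,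
        f', hf', ξ, i, ζ, ?_⟩
      · by_cases h1 : l = j
        · subst h1; simpa using hh'
        · simpa [h1] using leA.refl _ _
      · simpa using hC)
  choose g hg ξ i ζ hC using htD
  -- two names with the same data
  obtain ⟨j, k, hjk, hdata⟩ : ∃ j k : J, j ≠ k ∧
      (g j, (i j, (ζ j, ξ j))) = (g k, (i k, (ζ k, ξ k))) := by
    by_contra hcon'
    push Not at hcon'
    have hinj : Function.Injective fun j : J => (g j, (i j, (ζ j, ξ j))) := by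
      intro j k h
      by_contra hne
      exact hcon' j k hne h
    have hle := Cardinal.mk_le_of_injective hinj
    rw [hJ] at hle
    have h2 : #(F × (I × (N × N))) ≤ ρ := by
      simp only [Cardinal.mk_prod, Cardinal.lift_id]
      refine (mul_le_mul' hF (mul_le_mul' hI (mul_le_mul' hN hN))).trans ?_
      simp only [Cardinal.mul_eq_self hρ, le_refl]
    exact absurd (hle.trans h2) (not_le.2 (Order.lt_succ ρ))
  simp only [Prod.mk.injEq] at hdata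
  obtain ⟨h1, h2, h3, h4⟩ := hdata
  obtain ⟨f', hf', hd⟩ := hαf ((j, k), (g j, (i j, ζ j))) hjk (hg j)
  have hβ' : αf ((j, k), (g j, (i j, ζ j))) < β := (hαs _).trans hβ
  have hts : t ≤ s := ht.trans hs2
  refine hd t.e f' t.c (t.h j) (t.h k) hts.1 le_rfl hts.2.1 (hts.2.2 j) (hts.2.2 k) β (ξ j) hβ'
    ⟨(hC j).mono hκ le_rfl hf' le_rfl (leA.refl _ _), ?_⟩
  have := (hC k).mono hκ le_rfl (show f' ≤ g k from h1 ▸ hf') le_rfl (leA.refl _ _)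
  rwa [← h2, ← h3, ← h4] at this

end

end CLC
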