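import Pool.Agent.Lib.CLC.Defs

/-!
# Names for elements of ground model sets
-/

namespace CLC

open Cardinal CAT9

section reg

variable {E : Type} [Preorder E]

theorem Reg.ex_of {ι : Type} {φ : ι → Reg E} {p : E} (i : ι) (h : (φ i).holds p) :
    (Reg.ex φ).holds p := fun q hq => ⟨q, le_rfl, i, (φ i).mono _ _ hq h⟩

theorem Reg.ex_get {ι : Type} {φ : ι → Reg E} {p : E} (h : (Reg.ex φ).holds p) :
    ∃ r, r ≤ p ∧ ∃ i, (φ i).holds r := h p le_rfl

/-- Conjunction. -/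
def Reg.and (φ ψ : Reg E) : Reg E where
  holds p := φ.holds p ∧ ψ.holds p
  mono _ _ h hp := ⟨φ.mono _ _ h hp.1, ψ.mono _ _ h hp.2⟩
  dense p h := ⟨φ.dense p fun q hq => by
      obtain ⟨r, hr, h'⟩ := h q hq
      exact ⟨r, hr, h'.1⟩, ψ.dense p fun q hq => by
      obtain ⟨r, hr, h'⟩ := h q hq
      exact ⟨r, hr, h'.2⟩⟩

end reg

/-- A name for an element of `A`. -/
structure ENm (E A : Type) [Preorder E] where
  /-- the sentence that the element is `a` -/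
  val : A → Reg E
  uniq : ∀ p a b, (val a).holds p → (val b).holds p → a = b
  total : ∀ p, ∃ q, q ≤ p ∧ ∃ a, (val a).holds q

namespace ENm

variable {E A B : Type} [Preorder E]

theorem agree (m : ENm E A) {p q r : E} (hp : r ≤ p) (hq : r ≤ q) {a b : A}
    (ha : (m.val a).holds p) (hb : (m.val b).holds q) : a = b :=
  m.uniq r a b ((m.val a).mono _ _ hp ha) ((m.val b).mono _ _ hq hb)

/-- The image of a name. -/
def map (f : A → B) (m : ENm E A) : ENm E B where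
  val b := Reg.ex fun a : {a : A // f a = b} => m.val a.1
  uniq p b b' h h' := by
    obtain ⟨r, hr, ⟨a, rfl⟩, ha⟩ := h p le_rfl
    obtain ⟨s, hs, ⟨a', rfl⟩, ha'⟩ := h' r hr
    rw [m.uniq s a a' ((m.val a).mono _ _ hs ha) ha']
  total p := by
    obtain ⟨q, hq, a, ha⟩ := m.total p
    exact ⟨q, hq, f a, Reg.ex_of ⟨a, rfl⟩ ha⟩

theorem map_val {f : A → B} {m : ENm E A} {p : E} {a : A} (h : (m.val a).holds p) :
    ((m.map f).val (f a)).holds p := Reg.ex_of (⟨a, rfl⟩ : {a' : A // f a' = f a}) h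

/-- A name for a sequence of fewer than `κ` elements. -/
def pi {κ : Cardinal.{0}} (hE : DirClosedLT κ E) {ι : Type} (hι : #ι < κ) (hκ : ℵ₀ < κ)
    (m : ι → ENm E A) : ENm E (ι → A) where
  val v := Reg.all fun i => (m i).val (v i)
  uniq p v w hv hw := by
    funext i
    exact (m i).uniq p _ _ (hv i) (hw i)
  total p := by
    have hc : DirectedClosed (max ℵ₀ #ι) E := fun S hS hd =>
      hE S (hS.trans_lt (max_lt hκ hι)) hd
    obtain ⟨r, hr, h⟩ := meet (le_max_left _ _) hc (K := ι) (le_max_right _ _)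
      (fun i => {q | ∃ a, ((m i).val a).holds q}) p
      (fun i q r hrq ⟨a, ha⟩ => ⟨a, ((m i).val a).mono _ _ hrq ha⟩)
      (fun i q _ => by
        obtain ⟨q', hq', a, ha⟩ := (m i).total q
        exact ⟨q', hq', a, ha⟩)
    choose v hv using h
    exact ⟨r, hr, v, hv⟩

end ENm

/-- The mixing lemma. -/
theorem exists_name {E A : Type} [Preorder E] [Nonempty A] (φ : A → Reg E) (e0 : E)
    (h : ∀ e, e ≤ e0 → ∃ e', e' ≤ e ∧ ∃ a, (φ a).holds e') :
    ∃ m : ENm E A, ∀ e, e ≤ e0 → ∀ a, (m.val a).holds e → (φ a).holds e := by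
  classical
  let W : E → A → Prop := fun e a => (φ a).holds e ∨ ((∀ e', e' ≤ e → ¬ e' ≤ e0) ∧
    a = Classical.arbitrary A)
  have hWd : ∀ e, ∃ e', e' ≤ e ∧ ∃ a, W e' a := by
    intro e
    by_cases he : ∃ e', e' ≤ e ∧ e' ≤ e0
    · obtain ⟨e', h1, h2⟩ := he
      obtain ⟨e'', h3, a, ha⟩ := h e' h2
      exact ⟨e'', h3.trans h1, a, Or.inl ha⟩
    · push Not at he
      exact ⟨e, le_rfl, Classical.arbitrary A, Or.inr ⟨he, rfl⟩⟩
  -- a maximal antichain of conditions with a value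
  let D : Set (Set (E × A)) := {Z | (∀ z ∈ Z, W z.1 z.2) ∧
    ∀ z ∈ Z, ∀ z' ∈ Z, (∃ r, r ≤ z.1 ∧ r ≤ z'.1) → z = z'}
  obtain ⟨Z, hZ⟩ := zorn_subset D (by
    intro c hc hchain
    refine ⟨⋃₀ c, ⟨?_, ?_⟩, fun s hs => Set.subset_sUnion_of_mem hs⟩
    · rintro z ⟨s, hs, hz⟩
      exact (hc hs).1 z hz
    · rintro z ⟨s, hs, hz⟩ z' ⟨s', hs', hz'⟩ hr
      rcases hchain.total hs hs' with h | h
      · exact (hc hs').2 z (h hz) z' hz' hr
      · exact (hc hs).2 z hz z' (h hz') hr)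
  have hZ1 : Z ∈ D := hZ.prop
  have hpre : ∀ e, ∃ r, r ≤ e ∧ ∃ z ∈ Z, r ≤ z.1 := by
    intro e
    obtain ⟨e', he', a, ha⟩ := hWd e
    by_contra hcon
    push Not at hcon
    have hnew : insert (e', a) Z ∈ D := by
      refine ⟨?_, ?_⟩
      · rintro z (rfl | hz)
        · exact ha
        · exact hZ1.1 z hz
      · rintro z (rfl | hz) z' (rfl | hz') ⟨r, hr, hr'⟩
        · rfl
        · exact absurd hr' (hcon r (hr.trans he') z' hz')
        · exact absurd hr (hcon r (hr'.trans he') z hz)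
        · exact hZ1.2 z hz z' hz' ⟨r, hr, hr'⟩
    have hsub : insert (e', a) Z ⊆ Z := hZ.le_of_ge hnew (Set.subset_insert _ _)
    exact hcon e' he' (e', a) (hsub (Set.mem_insert _ _)) le_rfl
  let val : A → Reg E := fun a =>
    { holds := fun p => ∀ q, q ≤ p → ∃ r, r ≤ q ∧ ∃ z ∈ Z, r ≤ z.1 ∧ z.2 = a
      mono := fun p q hq hp r hr => hp r (hr.trans hq)
      dense := fun p hp q hq => by
        obtain ⟨r, hr, h'⟩ := hp q hq
        obtain ⟨s, hs, z, hz, hsz, ha⟩ := h' r le_rfl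
        exact ⟨s, hs.trans hr, z, hz, hsz, ha⟩ }
  refine ⟨⟨val, ?_, ?_⟩, ?_⟩
  · intro p a b ha hb
    obtain ⟨r, hr, z, hz, hrz, rfl⟩ := ha p le_rfl
    obtain ⟨s, hs, z', hz', hsz', rfl⟩ := hb r hr
    rw [hZ1.2 z hz z' hz' ⟨s, hs.trans hrz, hsz'⟩]
  · intro p
    obtain ⟨r, hr, z, hz, hrz⟩ := hpre p
    exact ⟨r, hr, z.2, fun q hq => ⟨q, le_rfl, z, hz, hq.trans hrz, rfl⟩⟩
  · intro e he a ha
    refine (φ a).dense e fun q hq => ?_
    obtain ⟨r, hr, z, hz, hrz, rfl⟩ := ha q hq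
    rcases hZ1.1 z hz with h' | ⟨h', -⟩
    · exact ⟨r, hr, (φ z.2).mono _ _ hrz h'⟩
    · exact absurd ((hr.trans hq).trans he) (h' r hrz)

end CLC
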