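import Pool.Agent.Lib.CLC.JoinD
import Pool.Agent.Lib.CLC.IsProjC
import Pool.Agent.Lib.CTF.StubH

/-!
# From the product to the iteration: the interface
-/

namespace CLC

open Cardinal CAT9

attribute [local instance] ptsDFn

attribute [local instance high] pQA pDD pBB pPP pOth

section

variable (κ : ℕ → Cardinal.{0}) (a : Nod (κ 0))

/-- The iteration in the other notation. -/
abbrev ItA : Type := CTF.It (KK κ a) (ℕ → Nod (mu κ a)) (WW κ a) (Lev (nu κ)) (Nod (nu κ))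

/-- The product in the other notation. -/
abbrev PrA : Type := KK κ a × WW κ a × Oth κ a ×
  CTF.Q2 (KK κ a) (ℕ → Nod (mu κ a)) (Lev (nu κ)) (Nod (nu κ))

variable {κ a}

/-- The isomorphism of the iterations. -/
noncomputable def itP (r : ItA κ a) : PP κ a := (⟨r.1, r.2.2⟩, r.2.1)

/-- Its inverse. -/
noncomputable def itQ (r : PP κ a) : ItA κ a := (r.1.k, r.2, r.1.p)

theorem itP_le {r r' : ItA κ a} (h : r' ≤ r) : itP r' ≤ itP r :=
  ⟨⟨h.1, h.2.2.1, fun b hb i u hu c ξ => congrFun (h.2.2.2 b hb i (u, c) hu) ξ⟩, h.2.1⟩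

theorem itQ_le {r r' : PP κ a} (h : r' ≤ r) : itQ r' ≤ itQ r :=
  ⟨h.1.1, h.2, h.1.2.1, fun b hb i x hx => funext fun ξ => h.1.2.2 b hb i x.1 hx x.2 ξ⟩

theorem itP_proj : CTF.IsProj (itP (κ := κ) (a := a)) where
  mono _ _ h := itP_le h
  lift r p h := ⟨itQ p, itQ_le h, le_rfl⟩

/-- From the product in the other notation to the product. -/
noncomputable def prB (r : PrA κ a) : BB κ a := (jn r.2.2.1 r.2.2.2, (r.1, r.2.1))

/-- From the product to the product in the other notation. -/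
noncomputable def prA (r : BB κ a) : PrA κ a := (r.2.1, r.2.2, fun b => r.1 b.1, r.1 a)

theorem prB_le {r r' : PrA κ a} (h : r' ≤ r) : prB r' ≤ prB r :=
  ⟨jn_mono h.2.2.1 h.2.2.2, h.1, h.2.1⟩

theorem prA_le {r r' : BB κ a} (h : r' ≤ r) : prA r' ≤ prA r :=
  ⟨h.2.1, h.2.2, fun b => h.1 b.1, h.1 a⟩

theorem prB_prA (r : BB κ a) : prB (prA r) = r := by
  unfold prB prA
  rw [jn_eta]

theorem proj_prB (r : PrA κ a) : proj κ a (prB r) = itP (CTF.toIt r) := by
  unfold proj prB itP CTF.toIt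
  simp only [jn_self]

/-- **Part H.** -/
theorem partH_aux [hA : Amb (Lev (nu κ)) (Nod (nu κ))]
    (hF : CTF.Fus (KK κ a) (WW κ a) (Nod (nu κ))) {χ : Cardinal.{0}} (hχ : ℵ₀ ≤ χ)
    (hχM : χ ≤ #(Nod (nu κ))) (hG : #(KK κ a) ≤ χ) (cC : DirectedClosed χ (WW κ a))
    (hLM : #(Lev (nu κ)) ≤ #(ℕ → Nod (nu κ)))
    (hpr : IsProj (proj κ a))
    (T : TreeName (PP κ a) (Lev (nu κ)) (Nod (nu κ))) (z : BB κ a)
    (B : BranchName (pullT T (proj κ a) hpr) z) :
    ∃ z1, Nonempty (BranchName T z1) := by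
  let T' : TreeName (ItA κ a) (Lev (nu κ)) (Nod (nu κ)) := CTF.pullT itP_proj T
  let B' : BranchName (CTF.liftT (Oth κ a) T') (prA z) :=
    { B := fun r α i => B.B (prB r) α i
      mono := fun q r α i h hB => B.mono _ _ _ _ (prB_le h) hB
      uniq := fun q α i j h h' => B.uniq _ _ _ _ h h'
      total := fun q hq α => by
        obtain ⟨r, hr, i, hi⟩ := B.total (prB q) (by
          rw [← prB_prA z]
          exact prB_le hq) α
        refine ⟨prA r, ?_, i, ?_⟩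
        · have h := prA_le hr
          refine le_trans h ?_
          refine ⟨le_rfl, le_rfl, fun b => ?_, ?_⟩
          · change jn q.2.2.1 q.2.2.2 b.1 ≤ q.2.2.1 b
            rw [jn_ne _ _ b.2]
          · change jn q.2.2.1 q.2.2.2 a ≤ q.2.2.2
            rw [jn_self]
        · rw [prB_prA]
          exact hi
      chain := fun q α β i j h h' hlt => by
        have h1 := B.chain _ _ _ _ _ h h' hlt
        change T.R (proj κ a (prB q)) (α, i) (β, j) at h1
        rw [proj_prB] at h1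
        exact h1 }
  obtain ⟨p, hp, ⟨B1⟩⟩ := CTF.descend hF hχ hχM hG cC hLM oth_closed B'
  refine ⟨itP p, ⟨⟨fun q α i => B1.B (itQ q) α i, ?_, ?_, ?_, ?_⟩⟩⟩
  · exact fun q r α i h hB => B1.mono _ _ _ _ (itQ_le h) hB
  · exact fun q α i j h h' => B1.uniq _ _ _ _ h h'
  · intro q hq α
    obtain ⟨r, hr, i, hi⟩ := B1.total (itQ q) (itQ_le hq) α
    exact ⟨itP r, itP_le hr, i, hi⟩
  · intro q α β i j h h' hlt
    exact B1.chain _ _ _ _ _ h h' hlt

/-- There are more than `ν` sequences. -/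
theorem lev_le_seq (hk : StrictMono κ) (h0 : ℵ₀ ≤ κ 0) :
    #(Lev (nu κ)) ≤ #(ℕ → Nod (nu κ)) := by
  have hM : #(Nod (nu κ)) = nu κ := mk_ord_toType _
  have hL : #(Lev (nu κ)) = Order.succ (nu κ) := mk_ord_toType _
  rw [hL, ← Cardinal.power_def, Cardinal.mk_nat, hM]
  refine Order.succ_le_of_lt ?_
  have hb : BddAbove (Set.range κ) := Cardinal.bddAbove_range _
  have h1 : Cardinal.sum κ < Cardinal.prod fun n => κ (n + 1) :=
    Cardinal.sum_lt_prod _ _ fun n => hk (Nat.lt_succ_self n)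
  have h2 : nu κ ≤ Cardinal.sum κ := ciSup_le' fun n => Cardinal.le_sum κ n
  have h3 : (Cardinal.prod fun n => κ (n + 1)) ≤ Cardinal.prod fun _ : ℕ => nu κ :=
    Cardinal.prod_le_prod _ _ fun n => le_ciSup hb (n + 1)
  have h4 : (Cardinal.prod fun _ : ℕ => nu κ) = nu κ ^ ℵ₀ := by
    rw [Cardinal.prod_const, Cardinal.lift_id, Cardinal.lift_id, Cardinal.mk_nat]
  exact h2.trans_lt (h1.trans_le (h3.trans h4.le))

/-- Fusion for the small parts. -/
theorem fusPP (hk : Monotone κ) (h0 : ℵ₀ ≤ κ 0) (hM : ∀ n, κ n ≤ #(Nod (nu κ)))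
    {lv : Nod (nu κ) → ℕ} (hlv : ∀ n, #{m // lv m ≤ n} ≤ κ n)
    (hK : #(KK κ a) ≤ κ 0) (hC : #(CC κ a) ≤ κ 0) (hElt : ∀ m, #(Elt κ m) ≤ κ m)
    (hD : ∀ j, DirectedClosed (κ j) (CJ κ j)) : CTF.Fus (KK κ a) (WW κ a) (Nod (nu κ)) := by
  refine CTF.fus_prod κ hk h0 hM lv hlv (fun m => ?_) fun m j hmj => ?_
  · have h1 : #((j : Fin m) → CJ κ j) ≤ κ m := by
      refine le_trans ?_ (hElt m)
      refine Cardinal.mk_le_of_injective (f := fun f => fun j : {j : ℕ // j < m} =>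
        f ⟨j.1, j.2⟩) ?_
      intro f g hfg
      funext j
      exact congrFun hfg ⟨j.1, j.2⟩
    have hm := h0.trans (hk (Nat.zero_le m))
    simp only [Cardinal.mk_prod, Cardinal.lift_id]
    refine (mul_le_mul' (hK.trans (hk (Nat.zero_le m)))
      (mul_le_mul' (hC.trans (hk (Nat.zero_le m))) h1)).trans ?_
    rw [Cardinal.mul_eq_self hm, Cardinal.mul_eq_self hm]
  · exact fun S hS hd => hD j S (hS.trans (hk hmj)) hd

end

end CLC
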