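import Pool.Agent.Lib.CLC.StepN

/-!
# A branch in the extension by the large forcing notion
-/

namespace CLC

open Cardinal CAT9

section

variable {κ : ℕ → Cardinal.{0}} {L M : Type} [LinearOrder L]

/-- The first part of a condition. -/
def eN (n : ℕ) {a : Nod (κ 0)} (z : BB κ a) : DD κ × Ege κ (n + 1) := (z.1, hi (n + 1) z.2.2.2)

/-- The second part of a condition. -/
def fN (n : ℕ) {a : Nod (κ 0)} (z : BB κ a) : Elt κ n := init1 (lo (n + 1) z.2.2.2)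

/-- The third part of a condition. -/
def cN (n : ℕ) {a : Nod (κ 0)} (z : BB κ a) : CJ κ n := last1 (lo (n + 1) z.2.2.2)

theorem eN_mono {n : ℕ} {a : Nod (κ 0)} {z z' : BB κ a} (h : z' ≤ z) : eN n z' ≤ eN n z :=
  ⟨h.1, hi_le h.2.2.2⟩

theorem fN_mono {n : ℕ} {a : Nod (κ 0)} {z z' : BB κ a} (h : z' ≤ z) : fN n z' ≤ fN n z :=
  init1_le (lo_le h.2.2.2)

theorem cN_mono {n : ℕ} {a : Nod (κ 0)} {z z' : BB κ a} (h : z' ≤ z) : cN n z' ≤ cN n z :=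
  last1_le (lo_le h.2.2.2)

/-- The condition with given parts. -/
noncomputable def mk4 {n : ℕ} (i : Σ a : Nod (κ 0), KK κ a × CC κ a) (e : DD κ × Ege κ (n + 1))
    (f : Elt κ n) (c : CJ κ n) : BB κ i.1 := (e.1, (i.2.1, (i.2.2, join2 (join1 f c) e.2)))

theorem eN_mk4 {n : ℕ} (i : Σ a : Nod (κ 0), KK κ a × CC κ a) (e : DD κ × Ege κ (n + 1))
    (f : Elt κ n) (c : CJ κ n) : eN n (mk4 i e f c) = e := by
  simp only [eN, mk4, hi_join2]

theorem fN_mk4 {n : ℕ} (i : Σ a : Nod (κ 0), KK κ a × CC κ a) (e : DD κ × Ege κ (n + 1))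
    (f : Elt κ n) (c : CJ κ n) : fN n (mk4 i e f c) = f := by
  simp only [fN, mk4, lo_join2, init1_join1]

theorem cN_mk4 {n : ℕ} (i : Σ a : Nod (κ 0), KK κ a × CC κ a) (e : DD κ × Ege κ (n + 1))
    (f : Elt κ n) (c : CJ κ n) : cN n (mk4 i e f c) = c := by
  simp only [cN, mk4, lo_join2, last1_join1]

theorem nsys_R {n : ℕ} {lv : M → ℕ} {T : ∀ a, TreeName (BB κ a) L M}
    {i : Σ a : Nod (κ 0), KK κ a × CC κ a} {z : BB κ i.1} (hk : z.2.1 ≤ i.2.1)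
    (hc : z.2.2.1 ≤ i.2.2) {x y : L × {m : M // lv m ≤ n}}
    (h : (nsys n lv T).R (eN n z) (fN n z) (cN n z) i x y) :
    (T i.1).R z (x.1, x.2.1) (y.1, y.2.1) := by
  have h' : (T i.1).R (mk4 i (eN n z) (fN n z) (cN n z)) (x.1, x.2.1) (y.1, y.2.1) := h
  refine (T i.1).mono _ _ _ _ ?_ h'
  refine ⟨le_rfl, hk, hc, ?_⟩
  change z.2.2.2 ≤ join2 (join1 (init1 (lo (n + 1) z.2.2.2)) (last1 (lo (n + 1) z.2.2.2)))
    (hi (n + 1) z.2.2.2)
  rw [join1_init_last, join2_lo_hi]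

/-- The branch given by the coverings. -/
theorem Bad.branch {n : ℕ} {lv : M → ℕ} {T : ∀ a, TreeName (BB κ a) L M}
    {U : UltName (κ (n + 1)) (DD κ × Ege κ (n + 1)) L} {hδ : ℵ₀ ≤ Order.succ (κ n)}
    {ι : Nod (κ (n + 1)) → L} {γ : PK (κ (n + 1)) L → ENm (DD κ × Ege κ (n + 1)) L}
    (hκ : ℵ₀ < κ (n + 1)) (hδκ : Order.succ (κ n) < κ (n + 1))
    {e : DD κ × Ege κ (n + 1)} {f : Elt κ n} {c : CJ κ n}
    {h : PK (κ (n + 1)) L → ENm (DD κ × Ege κ (n + 1)) (CJ κ n)}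
    {i : Σ a : Nod (κ 0), KK κ a × CC κ a} {ζ : {m : M // lv m ≤ n}}
    (hb : Bad U (nsys n lv T) hδ ι γ e f c h i ζ) :
    Nonempty (BranchName (T i.1) (mk4 i e f c)) := by
  -- the parts of a condition below
  have he : ∀ z : BB κ i.1, z ≤ mk4 i e f c → eN n z ≤ e := fun z hz => by
    have := eN_mono (n := n) hz
    rwa [eN_mk4] at this
  have hf : ∀ z : BB κ i.1, z ≤ mk4 i e f c → fN n z ≤ f := fun z hz => by
    have := fN_mono (n := n) hz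
    rwa [fN_mk4] at this
  have hc : ∀ z : BB κ i.1, z ≤ mk4 i e f c → cN n z ≤ c := fun z hz => by
    have := cN_mono (n := n) hz
    rwa [cN_mk4] at this
  let B : BB κ i.1 → L → M → Prop := fun z α m => z ≤ mk4 i e f c ∧ ∃ β ξ, α < β ∧
    Cover U (nsys n lv T) hδ ι γ h i ζ (eN n z) (fN n z) (cN n z) β ξ ∧
      (T i.1).R z (α, m) (β, ξ.1)
  -- comparing two covered nodes
  have hcomp : ∀ z : BB κ i.1, z ≤ mk4 i e f c → ∀ β ξ β' ξ',
      Cover U (nsys n lv T) hδ ι γ h i ζ (eN n z) (fN n z) (cN n z) β ξ →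
      Cover U (nsys n lv T) hδ ι γ h i ζ (eN n z) (fN n z) (cN n z) β' ξ' →
      β < β' → (T i.1).R z (β, ξ.1) (β', ξ'.1) := by
    intro z hz β ξ β' ξ' h1 h2 hlt
    exact nsys_R (x := (β, ξ)) (y := (β', ξ')) hz.2.1 hz.2.2.1
      (hb.coh hκ hδκ (he z hz) (hf z hz) (hc z hz) h1 h2 hlt)
  have htop : ∀ z α m m' β β', ∀ ξ ξ' : {m : M // lv m ≤ n}, z ≤ mk4 i e f c →
      Cover U (nsys n lv T) hδ ι γ h i ζ (eN n z) (fN n z) (cN n z) β ξ →
      Cover U (nsys n lv T) hδ ι γ h i ζ (eN n z) (fN n z) (cN n z) β' ξ' → β ≤ β' →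
      (T i.1).R z (α, m) (β, ξ.1) → (T i.1).R z (α, m') (β', ξ'.1) → 
      (T i.1).R z (α, m) (β', ξ'.1) := by
    intro z α m m' β β' ξ ξ' hz h1 h2 hle h3 h4
    rcases hle.eq_or_lt with rfl | hlt
    · rw [← hb.uniq hκ hδκ (he z hz) (hf z hz) (hc z hz) h1 h2]
      exact h3
    · exact (T i.1).trans _ _ _ _ h3 (hcomp z hz _ _ _ _ h1 h2 hlt)
  refine ⟨⟨B, ?_, ?_, ?_, ?_⟩⟩
  · rintro z z' α m hz' ⟨hz, β, ξ, hβ, hC, hR⟩
    exact ⟨hz'.trans hz, β, ξ, hβ, hC.mono hκ (eN_mono hz') (fN_mono hz') (cN_mono hz'),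
      (T i.1).mono _ _ _ _ hz' hR⟩
  · rintro z α m m' ⟨hz, β, ξ, hβ, hC, hR⟩ ⟨-, β', ξ', hβ', hC', hR'⟩
    rcases le_total β β' with hle | hle
    · exact (T i.1).uniq _ _ _ _ _ (htop z α m m' β β' ξ ξ' hz hC hC' hle hR hR') hR'
    · exact (T i.1).uniq _ _ _ _ _ hR (htop z α m' m β' β ξ' ξ hz hC' hC hle hR' hR)
  · intro z hz α
    obtain ⟨e', f', c', he', hf', hc', β, ξ, hβ, hC⟩ :=
      hb.unbounded hκ (he z hz) (hf z hz) (hc z hz) α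
    have h1 : mk4 ⟨i.1, (z.2.1, z.2.2.1)⟩ e' f' c' ≤ z := by
      refine ⟨he'.1, le_rfl, le_rfl, ?_⟩
      have h2 : join2 (join1 f' c') e'.2 ≤ join2 (join1 (fN n z) (cN n z)) (eN n z).2 :=
        join2_le (join1_le hf' hc') he'.2
      have h3 : join2 (join1 (fN n z) (cN n z)) (eN n z).2 = z.2.2.2 := by
        change join2 (join1 (init1 (lo (n + 1) z.2.2.2)) (last1 (lo (n + 1) z.2.2.2)))
          (hi (n + 1) z.2.2.2) = _
        rw [join1_init_last, join2_lo_hi]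
      rwa [h3] at h2
    obtain ⟨z2, hz2, m, hm⟩ := (T i.1).pred (mk4 ⟨i.1, (z.2.1, z.2.2.1)⟩ e' f' c')
      (β, ξ.1) α hβ
    refine ⟨z2, hz2.trans h1, m, hz2.trans (h1.trans hz), β, ξ, hβ, hC.mono hκ ?_ ?_ ?_, hm⟩
    · have := eN_mono (n := n) hz2
      rwa [eN_mk4] at this
    · have := fN_mono (n := n) hz2
      rwa [fN_mk4] at this
    · have := cN_mono (n := n) hz2
      rwa [cN_mk4] at this
  · rintro z α α' m m' ⟨hz, β, ξ, hβ, hC, hR⟩ ⟨-, β', ξ', hβ', hC', hR'⟩ hlt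
    rcases lt_trichotomy β β' with h1 | h1 | h1
    · have := (T i.1).trans _ _ _ _ hR (hcomp z hz _ _ _ _ hC hC' h1)
      exact (T i.1).tree _ _ _ _ this hR' hlt
    · subst h1
      rw [hb.uniq hκ hδκ (he z hz) (hf z hz) (hc z hz) hC hC'] at hR
      exact (T i.1).tree _ _ _ _ hR hR' hlt
    · have := (T i.1).trans _ _ _ _ hR' (hcomp z hz _ _ _ _ hC' hC h1)
      exact (T i.1).tree _ _ _ _ hR this hlt

end

end CLC
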