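import Pool.Agent.Lib.CLC.PartN

/-!
# A branch in the extension by the large forcing notion: the conclusion
-/

namespace CLC

open Cardinal CAT9

section

variable {κ : ℕ → Cardinal.{0}} {L M : Type} [LinearOrder L]

theorem partN_aux [hA : Amb L M] (hκ : ∀ n, ℵ₀ < κ n) (hmono : StrictMono κ)
    (hsucc : ∀ n, Order.succ (Order.succ (κ n)) < κ (n + 1)) (hκM : ∀ n, κ n ≤ #M)
    (U0 : UltName (κ 0) (DD κ × EE0 κ) L)
    (U : ∀ n, UltName (κ (n + 1)) (DD κ × Ege κ (n + 1)) L)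
    (hE0 : DirClosedLT (κ 0) (DD κ × EE0 κ))
    (hE : ∀ n, DirClosedLT (κ (n + 1)) (DD κ × Ege κ (n + 1)))
    (hcl : ∀ m, DirectedClosed (κ m) (DD κ × Ege κ m))
    {ιM : M → L} (hιM : Function.Injective ιM)
    {ιN : ∀ n, Nod (κ (n + 1)) → L} (hιN : ∀ n, Function.Injective (ιN n))
    (hreg : BddNames (DD κ × EE0 κ) L M)
    (hcard : ∀ c, ℵ₀ ≤ c → c < κ 0 → ∃ a, mu κ a = c)
    (hK : ∀ a, #(KK κ a) ≤ mu κ a) (hC : ∀ a, DirectedClosed (mu κ a) (CC κ a))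
    (hElt : ∀ m, #(Elt κ m) ≤ κ m)
    (hI : #(Σ a : Nod (κ 0), KK κ a × CC κ a) ≤ κ 0)
    {lv : M → ℕ} (hlv : ∀ n, #{m : M // lv m ≤ n} ≤ κ n)
    (T : ∀ a, TreeName (BB κ a) L M) (e : DD κ × EE0 κ) :
    ∃ a z, z.1 ≤ e.1 ∧ z.2.2.2 ≤ e.2 ∧ Nonempty (BranchName (T a) z) := by
  obtain ⟨e0, he0, n, S, hunb, hstar⟩ := stepA (hκ 0) (hκM 0) hE0 U0 hιM hreg
    (K := fun a => KK κ a) (C := fun a => CC κ a) (mu κ) hcard hK
    (fun a => ⟨⟨fun _ => none, by simp⟩⟩) hC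
    (fun a => pullT (T a) (shuf κ a) (shuf_isProj a)) lv e
  obtain ⟨f1, hf1, e1, he1, hunb1⟩ := exists_fix (m := n + 1) (δ := κ (n + 1)) (hκ (n + 1)).le
    (hκM (n + 1)) (hElt (n + 1)) (hcl (n + 1)) hunb
  have hb : Base (U n) (nsys n lv T) (restr f1 S) e1 (init1 f1) (last1 f1) := by
    refine base_of (U n) (e0 := e0) ?_ hf1 he1 hunb1
    intro e he a b hab h1 h2
    obtain ⟨e', he', μ, r, i, j, hi, hj, hR⟩ := hstar e he a b hab h1 h2
    exact ⟨e', he', μ, r, i, j, hi, hj, hR⟩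
  obtain ⟨γ, hγ⟩ := exists_gamma (hκM (n + 1)) hb.unb
  have hsucc1 : Order.succ (κ n) < κ (n + 1) :=
    (Order.le_succ _).trans_lt (hsucc n)
  have hδ : ℵ₀ ≤ Order.succ (κ n) := (hκ n).le.trans (Order.le_succ _)
  obtain ⟨e2, f2, c2, h, i, ζ, he2, hf2, hc2, hbad⟩ := exists_bad (hA := hA) (hδ := hδ)
    (R := nsys n lv T) (U := U n) (hκ (n + 1)) (hE n) hsucc1
    (hsucc1.le.trans (hκM (n + 1)))
    (by rw [mk_ord_toType]; exact hsucc n) (hιN n)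
    (fun a => by
      rw [show #{b // b < a} = #(Set.Iio a) from rfl]
      exact Cardinal.mk_Iio_ord_toType a)
    (hκ n).le le_rfl (hElt n) (hI.trans (hmono.monotone (Nat.zero_le n))) (hlv n) hb hγ
  obtain ⟨B⟩ := Bad.branch (hκ (n + 1)) hsucc1 hbad
  refine ⟨i.1, mk4 i e2 f2 c2, ?_, ?_, ⟨B⟩⟩
  · exact he2.1.trans (he1.1.trans he0.1)
  · have h1 : join1 f2 c2 ≤ lo (n + 1) e0.2 := by
      have := join1_le hf2 hc2
      rw [join1_init_last] at this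
      exact this.trans hf1
    have h2 : join2 (join1 f2 c2) e2.2 ≤ join2 (lo (n + 1) e0.2) (hi (n + 1) e0.2) :=
      join2_le h1 (he2.2.trans he1.2)
    rw [join2_lo_hi] at h2
    exact h2.trans he0.2

end

end CLC
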