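import Pool.Agent.Lib.CLC.StepAU

/-!
# From trees to narrow systems: the conclusion
-/

namespace CLC

open Cardinal CAT9

section

variable {L M : Type} [LinearOrder L] [hA : Amb L M]

/-- A name for a subset of `L`. -/
abbrev SNm (E L : Type) [Preorder E] : Type := L → Reg E

theorem stepA {κ0 : Cardinal.{0}} (hκ : ℵ₀ < κ0) (hκM : κ0 ≤ #M) {E : Type} [Preorder E]
    (hE : DirClosedLT κ0 E) (U : UltName κ0 E L) {ι : M → L} (hι : Function.Injective ι)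
    (hreg : BddNames E L M)
    {Mu : Type} {K C : Mu → Type} [∀ μ, Preorder (K μ)] [∀ μ, Preorder (C μ)]
    (card : Mu → Cardinal.{0}) (hcard : ∀ a, ℵ₀ ≤ a → a < κ0 → ∃ μ, card μ = a)
    (hK : ∀ μ, #(K μ) ≤ card μ) (hK0 : ∀ μ, Nonempty (K μ))
    (hC : ∀ μ, DirectedClosed (card μ) (C μ))
    (T : ∀ μ, TreeName (E × (K μ × C μ)) L M) (lv : M → ℕ) (e : E) :
    ∃ e0, e0 ≤ e ∧ ∃ (n : ℕ) (S : SNm E L),
      (∀ e, e ≤ e0 → ∀ a, ∃ e', e' ≤ e ∧ ∃ b, a < b ∧ (S b).holds e') ∧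
      ∀ e, e ≤ e0 → ∀ a b, a < b → (S a).holds e → (S b).holds e →
        ∃ e', e' ≤ e ∧ ∃ μ r i j, lv i ≤ n ∧ lv j ≤ n ∧ (T μ).R (e', r) (a, i) (b, j) := by
  classical
  -- the objects chosen for the small sets
  let P : PK κ0 L → ℕ × Set L → E → Prop := fun x nS e =>
    Good ι x.1 → nS.2 ⊆ x.1 ∧ (∀ a ∈ x.1, ∃ b ∈ nS.2, a ≤ b) ∧
      ∀ a ∈ nS.2, ∀ b ∈ nS.2, a < b →
        ∃ μ r i j, lv i ≤ nS.1 ∧ lv j ≤ nS.1 ∧ (T μ).R (e, r) (a, i) (b, j)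
  have hPmono : ∀ x nS e e', e' ≤ e → P x nS e → P x nS e' := by
    intro x nS e e' he h hx
    obtain ⟨h1, h2, h3⟩ := h hx
    refine ⟨h1, h2, fun a ha b hb hab => ?_⟩
    obtain ⟨μ, r, i, j, hi, hj, hR⟩ := h3 a ha b hb hab
    exact ⟨μ, r, i, j, hi, hj, (T μ).mono (e, r) (e', r) _ _ ⟨he, le_rfl⟩ hR⟩
  have hPex : ∀ x e, ∃ e', e' ≤ e ∧ ∃ nS, P x nS e' := by
    intro x e
    by_cases hx : Good ι x.1
    · have hμκ : #{m // ι m ∈ x.1} < κ0 := by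
        refine lt_of_le_of_lt ?_ x.2
        exact Cardinal.mk_le_of_injective (f := fun m : {m // ι m ∈ x.1} =>
          (⟨ι m.1, m.2⟩ : {a // a ∈ x.1})) fun m m' h =>
            Subtype.ext (hι (congrArg (fun z : {a // a ∈ x.1} => z.1) h))
      obtain ⟨μ, hμ⟩ := hcard _ hx.inf hμκ
      obtain ⟨k0⟩ := hK0 μ
      obtain ⟨e', he', n, S, h1, h2, h3⟩ := stepA_x hκM hE ι (T μ) lv x hμ
        (hμ ▸ hμκ) (hμ ▸ hx.inf) (hK μ) k0 (hC μ)
        (fun a ha => hμ ▸ hx.init a ha) hx.bdd e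
      refine ⟨e', he', (n, S), fun _ => ⟨h1, h2, fun a ha b hb hab => ?_⟩⟩
      obtain ⟨r, i, j, hi, hj, hR⟩ := h3 a ha b hb hab
      exact ⟨μ, r, i, j, hi, hj, hR⟩
    · exact ⟨e, le_rfl, (0, ∅), fun h => absurd h hx⟩
  have hname : ∀ x, ∃ m : ENm E (ℕ × Set L), ∀ e', e' ≤ e → ∀ nS, (m.val nS).holds e' →
      (Reg.cl (P x nS)).holds e' := fun x =>
    exists_name (fun nS => Reg.cl (P x nS)) e fun e' _ => by
      obtain ⟨e'', he'', nS, h⟩ := hPex x e'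
      exact ⟨e'', he'', nS, Reg.cl_of h⟩
  choose m hm using hname
  -- the number `n`
  obtain ⟨e0, he0, n, hn⟩ : ∃ e0, e0 ≤ e ∧ ∃ n : ℕ,
      U.ae e0 (fun x => Reg.ex fun S : Set L => (m x).val (n, S)) := by
    refine UltName.ae_ex_small hκ (ι := ℕ) (by rw [Cardinal.mk_nat]; exact hκ)
      (φ := fun n x => Reg.ex fun S : Set L => (m x).val (n, S)) ?_
    refine U.ae_true _ _ fun x q _ r hr => ?_
    obtain ⟨s, hs, nS, h⟩ := (m x).total r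
    exact ⟨s, hs, nS.1, Reg.ex_of nS.2 h⟩
  let S : SNm E L := fun b =>
    ⟨fun e => U.ae e (fun x => Reg.ex fun S : {S : Set L // b ∈ S} => (m x).val (n, S.1)),
      fun p q hq h => U.mono _ _ _ hq h, fun p h => U.dense _ _ h⟩
  have hgood := fun p => ae_good (U := U) hκ hι hreg p
  refine ⟨e0, he0, n, S, ?_, ?_⟩
  · intro e1 he1 a
    obtain ⟨a', ha'⟩ := hA.bdd Unit (fun _ => a) (mk_unit_le (L := L))
    have ha' := ha' ()
    have h1 : U.ae e1 (fun x => Reg.ex fun b : x.1 => ((Reg.const (a' ≤ b) : Reg E).and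
        (Reg.ex fun S : {S : Set L // b.1 ∈ S} => (m x).val (n, S.1)))) := by
      refine UltName.weaken (UltName.ae_and hκ (UltName.ae_and hκ (hgood e1) (U.fine e1 a'))
        (U.mono _ _ _ he1 hn)) fun x q hq hx => ?_
      obtain ⟨⟨hx1, hx2⟩, hx3⟩ := hx
      intro r hr
      obtain ⟨s, hs, S, hS⟩ := hx3 r hr
      obtain ⟨t, ht, u, htu, hu⟩ := hm x s (hs.trans (hr.trans (hq.trans (he1.trans he0)))) _ hS s
        le_rfl
      obtain ⟨h2, h3, h4⟩ := hPmono x _ u t htu hu hx1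
      obtain ⟨b, hb, hab⟩ := h3 a' hx2
      exact ⟨t, ht.trans hs, ⟨b, h2 hb⟩, hab,
        Reg.ex_of ⟨S, hb⟩ (((m x).val (n, S)).mono _ _ ht hS)⟩
    obtain ⟨e2, he2, b, hb⟩ := U.normal e1 (fun b x => (Reg.const (a' ≤ b) : Reg E).and
        (Reg.ex fun S : {S : Set L // b ∈ S} => (m x).val (n, S.1))) h1
    obtain ⟨x, q, _, hab, _⟩ := U.proper _ _ hb
    exact ⟨e2, he2, b, ha'.trans_le hab, UltName.weaken hb fun x q _ hx => hx.2⟩
  · intro e1 he1 a b hab hSa hSb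
    obtain ⟨x, q, hq, ⟨hx1, hx2⟩, hx3⟩ := U.proper _ _
      (UltName.ae_and hκ (UltName.ae_and hκ (hgood e1) hSa) hSb)
    obtain ⟨r, hr, ⟨S1, hS1⟩, h1⟩ := hx2 q le_rfl
    obtain ⟨s, hs, ⟨S2, hS2⟩, h2⟩ := hx3 r hr
    have heq : S1 = S2 := by
      have := (m x).agree hs le_rfl h1 h2
      exact congrArg Prod.snd this
    subst heq
    obtain ⟨t, ht, u, htu, hu⟩ := hm x s (hs.trans (hr.trans (hq.trans (he1.trans he0)))) _ h2 s
      le_rfl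
    obtain ⟨-, -, h4⟩ := hPmono x _ u t htu hu hx1
    obtain ⟨μ, r', i, j, hi, hj, hR⟩ := h4 a hS1 b hS2 hab
    exact ⟨t, ht.trans (hs.trans (hr.trans hq)), μ, r', i, j, hi, hj, hR⟩

end

end CLC
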