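import Pool.Agent.Lib.CLC.Join
import Pool.Agent.Lib.CLC.StepAMain

/-!
# Sizes and closure of the forcing notions
-/

namespace CLC

open Cardinal CAT9

/-! ### General facts -/

theorem mk_lt_elem (θ : Cardinal.{0}) (a : Nod θ) : #{b : Nod θ // b < a} < θ := by
  have h := mk_Iio_lt (α := Nod θ) a (by simp)
  rw [mk_ord_toType] at h
  exact h

/-- The Levy collapse of an inaccessible cardinal is small. -/
theorem col_le {θ δ : Cardinal.{0}} (hreg : θ.IsRegular) (hsl : ∀ a, a < θ → 2 ^ a < θ)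
    (hδ : δ < θ) {D : Type} (hD : #D ≤ θ) : #(Col δ (Nod θ) D) ≤ θ := by
  classical
  have h0 : ℵ₀ ≤ θ := hreg.aleph0_le
  have hX : #((Nod θ × D) × Nod θ) ≤ #(Nod θ) := by
    have hN : #(Nod θ) = θ := mk_ord_toType θ
    simp only [mk_prod, lift_id]
    rw [hN]
    calc θ * #D * θ ≤ θ * θ * θ := by gcongr
      _ = θ := by rw [mul_eq_self h0, mul_eq_self h0]
  obtain ⟨ψ⟩ := (Cardinal.le_def _ _).1 hX
  let g : Col δ (Nod θ) D → {s : Set (Nod θ) // #s < (#(Nod θ)).ord.cof} := fun c =>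
    ⟨{x | ∃ z b, c.f z = some b ∧ ψ (z, b) = x}, by
      have h1 : #{x | ∃ z b, c.f z = some b ∧ ψ (z, b) = x} ≤ #{z // c.f z ≠ none} := by
        refine Cardinal.mk_le_of_surjective (f := fun z : {z // c.f z ≠ none} =>
          (⟨ψ (z.1, (c.f z.1).get (Option.isSome_iff_ne_none.2 z.2)), z.1,
            (c.f z.1).get (Option.isSome_iff_ne_none.2 z.2), by simp, rfl⟩ :
            {x | ∃ z b, c.f z = some b ∧ ψ (z, b) = x})) ?_
        rintro ⟨x, z, b, hzb, hx⟩
        refine ⟨⟨z, by simp [hzb]⟩, ?_⟩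
        apply Subtype.ext
        simp only [hzb, Option.get_some]
        exact hx
      rw [mk_ord_toType, hreg.cof_ord]
      exact (h1.trans c.small).trans_lt hδ⟩
  have hg : Function.Injective g := by
    intro c c' h
    have h' : ∀ x, (∃ z b, c.f z = some b ∧ ψ (z, b) = x) ↔
        ∃ z b, c'.f z = some b ∧ ψ (z, b) = x := fun x =>
      Set.ext_iff.1 (congrArg Subtype.val h) x
    have key : ∀ z b, c.f z = some b ↔ c'.f z = some b := by
      intro z b
      constructor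
      · intro hb
        obtain ⟨z', b', hb', he⟩ := (h' (ψ (z, b))).1 ⟨z, b, hb, rfl⟩
        obtain ⟨rfl, rfl⟩ := Prod.mk.inj (ψ.injective he)
        exact hb'
      · intro hb
        obtain ⟨z', b', hb', he⟩ := (h' (ψ (z, b))).2 ⟨z, b, hb, rfl⟩
        obtain ⟨rfl, rfl⟩ := Prod.mk.inj (ψ.injective he)
        exact hb'
    apply Col.ext
    funext z
    rcases hz : c.f z with _ | b
    · rcases hz' : c'.f z with _ | b'
      · rfl
      · rw [(key z b').2 hz'] at hz
        exact absurd hz (by simp)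
    · exact ((key z b).1 hz).symm
  refine (Cardinal.mk_le_of_injective hg).trans ?_
  rw [Cardinal.mk_subset_mk_lt_cof, mk_ord_toType]
  intro x hx
  rw [mk_ord_toType] at hx ⊢
  exact hsl x hx

theorem fn_le (B : Type) : #(Fn B) ≤ max ℵ₀ #B := by
  have h1 : #(List (Option B)) ≤ max ℵ₀ #B := by
    refine (Cardinal.mk_list_le_max _).trans (max_le (le_max_left _ _) ?_)
    rw [mk_option]
    exact Cardinal.add_le_of_le (le_max_left _ _) (le_max_right _ _)
      (Cardinal.one_le_aleph0.trans (le_max_left _ _))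
  refine le_trans ?_ h1
  refine Cardinal.mk_le_of_surjective (f := fun l : List (Option B) =>
    (⟨fun k => l.getD k none, (Set.finite_lt_nat l.length).subset fun k hk => by
      by_contra hcon
      exact hk (List.getD_eq_default _ _ (not_lt.1 hcon))⟩ : Fn B)) ?_
  rintro ⟨f, hf⟩
  obtain ⟨n, hn⟩ := hf.bddAbove
  refine ⟨(List.range (n + 1)).map f, ?_⟩
  apply Subtype.ext
  funext k
  by_cases hk : k < n + 1
  · simp [hk]
  · have h2 : ((List.range (n + 1)).map f).length ≤ k := by simpa using not_lt.1 hk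
    change ((List.range (n + 1)).map f).getD k none = f k
    rw [List.getD_eq_default _ _ h2]
    by_contra hcon
    have : k ≤ n := hn (show k ∈ {n | f n ≠ none} from fun h => hcon h.symm)
    exact hk (Nat.lt_succ_of_le this)

theorem directed_pi_sz {μ : Cardinal.{0}} {ι : Type} {P : ι → Type} [∀ i, Preorder (P i)]
    (h : ∀ i, DirectedClosed μ (P i)) : DirectedClosed μ (∀ i, P i) := by
  intro S hS hd
  have : ∀ i, ∃ q : P i, ∀ s ∈ S, q ≤ s i := by
    intro i
    obtain ⟨q, hq⟩ := h i ((fun s => s i) '' S) (Cardinal.mk_image_le.trans hS) (by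
      rintro _ ⟨a, ha, rfl⟩ _ ⟨b, hb, rfl⟩
      obtain ⟨c, hc, h1, h2⟩ := hd a ha b hb
      exact ⟨c i, ⟨c, hc, rfl⟩, h1 i, h2 i⟩)
    exact ⟨q, fun s hs => hq _ ⟨s, hs, rfl⟩⟩
  choose q hq using this
  exact ⟨q, fun s hs i => hq i s hs⟩

theorem dc_anti {μ μ' : Cardinal.{0}} {P : Type} [Preorder P]
    (h : DirectedClosed μ P) (hle : μ' ≤ μ) : DirectedClosed μ' P :=
  fun S hS hd => h S (hS.trans hle) hd

theorem dc_ltOf {μ κ : Cardinal.{0}} {P : Type} [Preorder P]
    (h : DirectedClosed μ P) (hle : κ ≤ μ) : DirClosedLT κ P :=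
  fun S hS hd => h S (hS.le.trans hle) hd

theorem pi_fin_le {θ : Cardinal.{0}} (h0 : ℵ₀ ≤ θ) {ι : Type} [Finite ι] (X : ι → Type)
    (hX : ∀ i, #(X i) ≤ θ) : #(∀ i, X i) ≤ θ := by
  have := Fintype.ofFinite ι
  rw [mk_pi]
  refine (Cardinal.prod_le_prod _ (fun _ => θ) hX).trans ?_
  rw [Cardinal.prod_const, Cardinal.mk_fintype]
  simpa using Cardinal.power_nat_le h0

/-! ### The cardinals -/

section

variable {κ : ℕ → Cardinal.{0}}

theorem aleph0_le_mu (a : Nod (κ 0)) : ℵ₀ ≤ mu κ a := le_max_left _ _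

theorem mu_lt (hI : ∀ n, IndestructiblySupercompact (κ n)) (a : Nod (κ 0)) : mu κ a < κ 0 :=
  max_lt (hI 0).unc (mk_lt_elem (κ 0) a)

/-- Every infinite cardinal below `κ 0` is of the form `mu κ a`. -/
theorem exists_mu {c : Cardinal.{0}} (hc : ℵ₀ ≤ c) (hcκ : c < κ 0) :
    ∃ a : Nod (κ 0), mu κ a = c := by
  have ho : c.ord < (κ 0).ord := ord_lt_ord.2 hcκ
  refine ⟨Ordinal.ToType.mk ⟨c.ord, ho⟩, ?_⟩
  have h1 : #{b : Nod (κ 0) // b < Ordinal.ToType.mk ⟨c.ord, ho⟩} = c := by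
    have e : {b : Nod (κ 0) // b < Ordinal.ToType.mk ⟨c.ord, ho⟩} ≃ Set.Iio c.ord := by
      refine ⟨fun b => ⟨(Ordinal.ToType.mk.symm b.1).1, ?_⟩,
        fun o => ⟨Ordinal.ToType.mk ⟨o.1, lt_trans o.2 ho⟩, ?_⟩, fun b => ?_, fun o => ?_⟩
      · have := Ordinal.ToType.mk.symm.lt_iff_lt.2 b.2
        rw [OrderIso.symm_apply_apply] at this
        exact this
      · exact Ordinal.ToType.mk.lt_iff_lt.2 (show (⟨o.1, _⟩ : Set.Iio (κ 0).ord) < ⟨c.ord, ho⟩ from
          o.2)
      · simp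
      · simp
    have h2 := Cardinal.mk_Iio_ordinal c.ord
    have h3 : lift.{1} #{b : Nod (κ 0) // b < Ordinal.ToType.mk ⟨c.ord, ho⟩} =
        lift.{0} #(Set.Iio c.ord) := Cardinal.mk_congr_lift e
    rw [h2] at h3
    simpa using h3
  rw [mu, h1]
  exact max_eq_right hc

/-- `#(KK κ a) ≤ mu κ a`. -/
theorem KK_le (a : Nod (κ 0)) : #(KK κ a) ≤ mu κ a := by
  refine (fn_le _).trans ?_
  rw [mk_ord_toType]
  exact max_le (aleph0_le_mu a) le_rfl

theorem succ_lt (hI : ∀ n, IndestructiblySupercompact (κ n)) {n : ℕ} {c : Cardinal.{0}}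
    (hc : c < κ n) : Order.succ c < κ n :=
  (Order.succ_le_of_lt (cantor c)).trans_lt ((hI n).strongLimit c hc)

theorem aleph0_le (hI : ∀ n, IndestructiblySupercompact (κ n)) (n : ℕ) : ℵ₀ ≤ κ n :=
  (hI n).unc.le

theorem CC_le (hI : ∀ n, IndestructiblySupercompact (κ n)) (a : Nod (κ 0)) :
    #(CC κ a) ≤ κ 0 :=
  col_le (hI 0).regular (hI 0).strongLimit (mu_lt hI a)
    (by rw [mk_ord_toType]; exact (succ_lt hI (mu_lt hI a)).le)

theorem CJ_le (hk : StrictMono κ) (hI : ∀ n, IndestructiblySupercompact (κ n)) (j : ℕ) :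
    #(CJ κ j) ≤ κ (j + 1) :=
  have h : κ j < κ (j + 1) := hk (Nat.lt_succ_self j)
  col_le (hI _).regular (hI _).strongLimit (succ_lt hI h)
    (by rw [mk_ord_toType]; exact (succ_lt hI (succ_lt hI h)).le)

theorem Elt_le (hk : StrictMono κ) (hI : ∀ n, IndestructiblySupercompact (κ n)) (m : ℕ) :
    #(Elt κ m) ≤ κ m :=
  pi_fin_le (aleph0_le hI m) _ fun j => (CJ_le hk hI j.1).trans (hk.monotone j.2)

theorem KK_lt (hI : ∀ n, IndestructiblySupercompact (κ n)) (a : Nod (κ 0)) : #(KK κ a) < κ 0 :=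
  (KK_le a).trans_lt (mu_lt hI a)

/-- The number of indices `(a, k, c)`. -/
theorem index_le (hI : ∀ n, IndestructiblySupercompact (κ n)) :
    #(Σ a : Nod (κ 0), KK κ a × CC κ a) ≤ κ 0 := by
  have h0 := aleph0_le hI 0
  rw [mk_sigma]
  refine (Cardinal.sum_le_sum _ (fun _ => κ 0) fun a => ?_).trans ?_
  · simp only [mk_prod, lift_id]
    exact (mul_le_mul' (KK_lt hI a).le (CC_le hI a)).trans (mul_eq_self h0).le
  · rw [Cardinal.sum_const, lift_id, lift_id, mk_ord_toType]
    exact (mul_eq_self h0).le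

theorem CC_Elt_le (hk : StrictMono κ) (hI : ∀ n, IndestructiblySupercompact (κ n))
    (a : Nod (κ 0)) (m : ℕ) : #(CC κ a × Elt κ m) ≤ κ m := by
  simp only [mk_prod, lift_id]
  exact (mul_le_mul' ((CC_le hI a).trans (hk.monotone (Nat.zero_le m))) (Elt_le hk hI m)).trans
    (mul_eq_self (aleph0_le hI m)).le

/-! ### Closure -/

theorem CC_closed (a : Nod (κ 0)) : DirectedClosed (mu κ a) (CC κ a) :=
  Col.closed (aleph0_le_mu a)

theorem CJ_closed (hI : ∀ n, IndestructiblySupercompact (κ n)) (j : ℕ) :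
    DirectedClosed (Order.succ (κ j)) (CJ κ j) :=
  Col.closed ((aleph0_le hI j).trans (Order.le_succ _))

theorem Ege_closed (hk : StrictMono κ) (hI : ∀ n, IndestructiblySupercompact (κ n)) (m : ℕ) :
    DirectedClosed (Order.succ (κ m)) (Ege κ m) :=
  directed_pi_sz fun j => dc_anti (CJ_closed hI j.1) (Order.succ_le_succ (hk.monotone j.2))

theorem EE0_closed (hk : StrictMono κ) (hI : ∀ n, IndestructiblySupercompact (κ n)) :
    DirectedClosed (Order.succ (κ 0)) (EE0 κ) :=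
  directed_pi_sz fun j => dc_anti (CJ_closed hI j) (Order.succ_le_succ (hk.monotone (Nat.zero_le j)))

theorem WW_closed (hk : StrictMono κ) (hI : ∀ n, IndestructiblySupercompact (κ n))
    (a : Nod (κ 0)) : DirectedClosed (mu κ a) (WW κ a) :=
  directed_prod (CC_closed a)
    (dc_anti (EE0_closed hk hI) ((mu_lt hI a).le.trans (Order.le_succ _)))

theorem le_nu (n : ℕ) : κ n ≤ nu κ := le_ciSup (Cardinal.bddAbove_of_small) n

theorem lt_nu (hk : StrictMono κ) (n : ℕ) : κ n < nu κ :=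
  (hk (Nat.lt_succ_self n)).trans_le (le_nu (n + 1))

theorem exists_le_of_lt_nu {c : Cardinal.{0}} (hc : c < nu κ) : ∃ n, c < κ n := by
  by_contra h
  push Not at h
  exact absurd hc (not_lt.2 (ciSup_le h))

theorem aleph0_le_nu (hI : ∀ n, IndestructiblySupercompact (κ n)) : ℵ₀ ≤ nu κ :=
  (aleph0_le hI 0).trans (le_nu 0)

theorem mk_Nod : #(Nod (nu κ)) = nu κ := mk_ord_toType _

theorem mk_Lev : #(Lev (nu κ)) = Order.succ (nu κ) := mk_ord_toType _

/-- The assumptions on levels and nodes. -/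
theorem amb (hI : ∀ n, IndestructiblySupercompact (κ n)) : Amb (Lev (nu κ)) (Nod (nu κ)) :=
  amb_lev (aleph0_le_nu hI)

theorem DD_closed (hI : ∀ n, IndestructiblySupercompact (κ n)) :
    DirectedClosed (nu κ) (DD κ) := by
  have := amb hI
  refine directed_pi_sz fun a => ?_
  have h := qq_closed (G := KK κ a × AddOmega) (L := Lev (nu κ)) (M := Nod (nu κ)) (X := XX κ a)
  rw [mk_Nod] at h
  exact h

theorem DD_EE0_closed (hk : StrictMono κ) (hI : ∀ n, IndestructiblySupercompact (κ n)) :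
    DirClosedLT (κ 0) (DD κ × EE0 κ) :=
  dc_ltOf (directed_prod (dc_anti (DD_closed hI) (le_nu 0))
    (dc_anti (EE0_closed hk hI) (Order.le_succ _))) le_rfl

theorem DD_Ege_closed (hk : StrictMono κ) (hI : ∀ n, IndestructiblySupercompact (κ n)) (m : ℕ) :
    DirClosedLT (κ m) (DD κ × Ege κ m) :=
  dc_ltOf (directed_prod (dc_anti (DD_closed hI) (le_nu m))
    (dc_anti (Ege_closed hk hI m) (Order.le_succ _))) le_rfl

theorem DD_Ege_closed_succ (hk : StrictMono κ) (hI : ∀ n, IndestructiblySupercompact (κ n))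
    (m : ℕ) : DirectedClosed (Order.succ (κ m)) (DD κ × Ege κ m) :=
  directed_prod (dc_anti (DD_closed hI) (Order.succ_le_of_lt (lt_nu hk m))) (Ege_closed hk hI m)

/-! ### Pieces of the set of node numbers -/

theorem exists_lv (hk : StrictMono κ) (hI : ∀ n, IndestructiblySupercompact (κ n)) :
    ∃ lv : Nod (nu κ) → ℕ, ∀ n, #{m // lv m ≤ n} ≤ κ n := by
  have hinf := aleph0_le hI
  have h1 : #(Nod (nu κ)) ≤ #(Σ n, (κ n).out) := by
    rw [mk_Nod, nu, Cardinal.mk_sigma]
    refine ciSup_le fun n => ?_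
    refine le_trans ?_ (Cardinal.le_sum (fun n => #((κ n).out)) n)
    simp
  obtain ⟨f⟩ := (Cardinal.le_def _ _).1 h1
  refine ⟨fun i => (f i).1, fun n => ?_⟩
  let g : {i // (f i).1 ≤ n} → (Σ k : Fin (n + 1), (κ k).out) := fun i =>
    ⟨⟨(f i.1).1, Nat.lt_succ_of_le i.2⟩, (f i.1).2⟩
  have hg : Function.Injective g := by
    rintro ⟨i, hi⟩ ⟨j, hj⟩ hij
    apply Subtype.ext
    apply f.injective
    simp only [g, Sigma.mk.injEq, Fin.mk.injEq] at hij
    exact Sigma.ext hij.1 hij.2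
  refine (Cardinal.mk_le_of_injective hg).trans ?_
  rw [Cardinal.mk_sigma]
  refine (Cardinal.sum_le_sum _ (fun _ : Fin (n + 1) => κ n) fun k => ?_).trans ?_
  · simpa using hk.monotone (Nat.lt_succ_iff.1 k.2)
  · simp only [Cardinal.sum_const, Cardinal.mk_fin, Cardinal.lift_id]
    exact (Cardinal.mul_le_max _ _).trans
      (max_le (max_le ((Cardinal.nat_lt_aleph0 _).le.trans (hinf n)) le_rfl) (hinf n))

theorem exists_inj_Nod : ∃ ι : Nod (nu κ) → Lev (nu κ), Function.Injective ι := by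
  have h : #(Nod (nu κ)) ≤ #(Lev (nu κ)) := by
    rw [mk_Nod, mk_Lev]
    exact Order.le_succ _
  obtain ⟨f⟩ := (Cardinal.le_def _ _).1 h
  exact ⟨f, f.injective⟩

theorem exists_inj_kappa (n : ℕ) : ∃ ι : Nod (κ n) → Lev (nu κ), Function.Injective ι := by
  have h : #(Nod (κ n)) ≤ #(Lev (nu κ)) := by
    rw [mk_Lev, mk_ord_toType]
    exact (le_nu n).trans (Order.le_succ _)
  obtain ⟨f⟩ := (Cardinal.le_def _ _).1 h
  exact ⟨f, f.injective⟩

theorem kappa_le_mk (n : ℕ) : κ n ≤ #(Nod (nu κ)) := by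
  rw [mk_Nod]
  exact le_nu n

/-! ### Splitting -/

/-- The splitting of the product of the collapses. -/
def splitE (m : ℕ) : EE0 κ ≃o Elt κ m × Ege κ m where
  toFun h := (lo m h, hi m h)
  invFun z := join2 z.1 z.2
  left_inv h := join2_lo_hi m h
  right_inv z := Prod.ext (lo_join2 z.1 z.2) (hi_join2 z.1 z.2)
  map_rel_iff' := by
    intro h h'
    constructor
    · intro hle
      have h1 : join2 (lo m h) (hi m h) ≤ join2 (lo m h') (hi m h') := join2_le hle.1 hle.2
      rwa [join2_lo_hi, join2_lo_hi] at h1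
    · intro hle
      exact ⟨lo_le hle, hi_le hle⟩

/-- The splitting of `WW κ a`. -/
noncomputable def splitW (a : Nod (κ 0)) (m : ℕ) : WW κ a ≃o (CC κ a × Elt κ m) × Ege κ m where
  toFun w := ((w.1, lo m w.2), hi m w.2)
  invFun z := (z.1.1, join2 z.1.2 z.2)
  left_inv w := Prod.ext rfl (join2_lo_hi m w.2)
  right_inv z := Prod.ext (Prod.ext rfl (lo_join2 z.1.2 z.2)) (hi_join2 z.1.2 z.2)
  map_rel_iff' := by
    intro w w'
    constructor
    · intro hle
      have h1 : join2 (lo m w.2) (hi m w.2) ≤ join2 (lo m w'.2) (hi m w'.2) :=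
        join2_le hle.1.2 hle.2
      rw [join2_lo_hi, join2_lo_hi] at h1
      exact ⟨hle.1.1, h1⟩
    · intro hle
      exact ⟨⟨hle.1, lo_le hle.2⟩, hi_le hle.2⟩

/-- The factorisations of `WW κ a`. -/
noncomputable def factW (hk : StrictMono κ) (hI : ∀ n, IndestructiblySupercompact (κ n)) (a : Nod (κ 0))
    (m : ℕ) : Fact (Order.succ (κ m)) (WW κ a) where
  S := CC κ a × Elt κ m
  E := Ege κ m
  pS := inferInstance
  pE := inferInstance
  small := (CC_Elt_le hk hI a m).trans (Order.le_succ _)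
  closed := Ege_closed hk hI m
  iso := splitW a m

/-- The factorisations of `WW κ a`. -/
noncomputable def factW' (hk : StrictMono κ) (hI : ∀ n, IndestructiblySupercompact (κ n)) (a : Nod (κ 0))
    (m : ℕ) : Fact (κ m) (WW κ a) where
  S := CC κ a × Elt κ m
  E := Ege κ m
  pS := inferInstance
  pE := inferInstance
  small := CC_Elt_le hk hI a m
  closed := dc_anti (Ege_closed hk hI m) (Order.le_succ _)
  iso := splitW a m

end

end CLC
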