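import Pool.Agent.Lib.CLC.PartN2
import Pool.Agent.Lib.CLC.Sizes
import Pool.Agent.Lib.CLC.CardPP

/-!
# A branch in the extension by the large forcing notion, from large cardinals
-/

namespace CLC

open Cardinal CAT9

variable {κ : ℕ → Cardinal.{0}}

theorem IndestructiblySupercompact.inaccessible {c : Cardinal.{0}}
    (h : IndestructiblySupercompact c) : c.IsInaccessible := by
  exact ⟨h.unc, h.regular.2, fun a ha => h.strongLimit a ha⟩

/-- If every member of the family `BB κ a` has a name for a tree, then one of these has a branch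
in some extension. -/
theorem partN (hk : StrictMono κ) (hI : ∀ n, IndestructiblySupercompact (κ n))
    (T : ∀ a, TreeName (BB κ a) (Lev (nu κ)) (Nod (nu κ))) :
    ∃ a z, Nonempty (BranchName (T a) z) := by
  have hA : Amb (Lev (nu κ)) (Nod (nu κ)) := amb hI
  have hin : ∀ n, (κ n).IsInaccessible := fun n => (hI n).inaccessible
  obtain ⟨U0⟩ := (hI 0).ult (DD κ × EE0 κ) (DD_EE0_closed hk hI) (Lev (nu κ))
  have hU : ∀ n, Nonempty (UltName (κ (n + 1)) (DD κ × Ege κ (n + 1)) (Lev (nu κ))) := fun n =>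
    (hI (n + 1)).ult (DD κ × Ege κ (n + 1)) (DD_Ege_closed hk hI (n + 1)) (Lev (nu κ))
  let U := fun n => (hU n).some
  obtain ⟨ιM, hιM⟩ := exists_inj_Nod (κ := κ)
  have hιN : ∀ n, ∃ ι : Nod (κ (n + 1)) → Lev (nu κ), Function.Injective ι := fun n =>
    exists_inj_kappa (n + 1)
  choose ιN hιN using hιN
  obtain ⟨lv, hlv⟩ := exists_lv hk hI
  obtain ⟨e, -⟩ := DD_EE0_closed hk hI ∅ (by
      rw [Cardinal.mk_emptyCollection]
      exact (hI 0).regular.pos) (by rintro a ha; exact absurd ha (Set.notMem_empty a))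
  obtain ⟨a, z, -, -, hB⟩ := partN_aux (hA := hA) (fun n => (hI n).unc) hk
    (fun n => succ_lt hI (succ_lt hI (hk (Nat.lt_succ_self n)))) kappa_le_mk U0
    (fun n => (U n)) (DD_EE0_closed hk hI) (fun n => DD_Ege_closed hk hI (n + 1))
    (fun m => dc_anti (DD_Ege_closed_succ hk hI m) (Order.le_succ _)) hιM hιN
    (bddNames_DD_EE0 hk hin) (fun c hc hck => exists_mu hc hck) KK_le CC_closed (Elt_le hk hI)
    (index_le hI) hlv T e
  exact ⟨a, z, hB⟩

end CLC
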