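import Pool.Agent.Lib.CLC.Ult
import Pool.Agent.Lib.CAT9.Poset

/-!
# From trees to narrow systems, for a single small set
-/

namespace CLC

open Cardinal CAT9

theorem DirClosedLT.closed {κ μ : Cardinal.{0}} {E : Type} [Preorder E] (h : DirClosedLT κ E)
    (hμ : μ < κ) : DirectedClosed μ E := fun S hS hd => h S (hS.trans_lt hμ) hd

theorem directed_prod {μ : Cardinal.{0}} {P Q : Type} [Preorder P] [Preorder Q]
    (hP : DirectedClosed μ P) (hQ : DirectedClosed μ Q) : DirectedClosed μ (P × Q) := by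
  intro S hS hd
  obtain ⟨p, hp⟩ := hP (Prod.fst '' S) (Cardinal.mk_image_le.trans hS) (by
    rintro _ ⟨a, ha, rfl⟩ _ ⟨b, hb, rfl⟩
    obtain ⟨c, hc, h1, h2⟩ := hd a ha b hb
    exact ⟨c.1, ⟨c, hc, rfl⟩, h1.1, h2.1⟩)
  obtain ⟨q, hq⟩ := hQ (Prod.snd '' S) (Cardinal.mk_image_le.trans hS) (by
    rintro _ ⟨a, ha, rfl⟩ _ ⟨b, hb, rfl⟩
    obtain ⟨c, hc, h1, h2⟩ := hd a ha b hb
    exact ⟨c.2, ⟨c, hc, rfl⟩, h1.2, h2.2⟩)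
  exact ⟨(p, q), fun s hs => ⟨hp _ ⟨s, hs, rfl⟩, hq _ ⟨s, hs, rfl⟩⟩⟩

theorem directed_lower {κ : Cardinal.{0}} {E : Type} [Preorder E] (h : DirClosedLT κ E)
    {J : Type} (hJ : #J < κ) (e : J → E) (hd : ∀ i j, ∃ k, e k ≤ e i ∧ e k ≤ e j) :
    ∃ q, ∀ j, q ≤ e j := by
  obtain ⟨q, hq⟩ := h (Set.range e) (Cardinal.mk_range_le.trans_lt hJ) (by
    rintro _ ⟨i, rfl⟩ _ ⟨j, rfl⟩
    obtain ⟨k, h1, h2⟩ := hd i j
    exact ⟨e k, ⟨k, rfl⟩, h1, h2⟩)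
  exact ⟨q, fun j => hq _ ⟨j, rfl⟩⟩

section

variable {L M : Type} [LinearOrder L] [hA : Amb L M]

theorem stepA_x {κ0 : Cardinal.{0}} (hκM : κ0 ≤ #M) {E : Type} [Preorder E]
    (hE : DirClosedLT κ0 E) (ι : M → L) {K C : Type} [Preorder K] [Preorder C]
    (T : TreeName (E × (K × C)) L M) (lv : M → ℕ) (x : PK κ0 L) {μ : Cardinal.{0}}
    (hμ : μ = #{m // ι m ∈ x.1}) (hμκ : μ < κ0) (hinf : ℵ₀ ≤ μ) (hK : #K ≤ μ) (k0 : K)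
    (hC : DirectedClosed μ C)
    (h1 : ∀ a ∈ x.1, #{b : {b // b ∈ x.1} // b.1 < a} ≤ μ)
    (h2 : ∀ c : {m // ι m ∈ x.1} → {a // a ∈ x.1}, ∃ α ∈ x.1, ∀ m, (c m).1 < α) (e : E) :
    ∃ e', e' ≤ e ∧ ∃ (n : ℕ) (S : Set L), S ⊆ x.1 ∧ (∀ a ∈ x.1, ∃ b ∈ S, a ≤ b) ∧
      ∀ a ∈ S, ∀ b ∈ S, a < b → ∃ r i j, lv i ≤ n ∧ lv j ≤ n ∧ T.R (e', r) (a, i) (b, j) := by
  classical
  have := hA.wf
  obtain ⟨m0⟩ := Amb.neM L hA
  obtain ⟨γ, hγ⟩ := hA.bdd {a // a ∈ x.1} (fun a => a.1) (x.2.le.trans hκM)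
  have hQ : DirectedClosed μ (E × C) := directed_prod (hE.closed hμκ) hC
  obtain ⟨c0, -⟩ := hC ∅ (by simp) (by rintro a ha; exact absurd ha (Set.notMem_empty a))
  obtain ⟨r, hr1, hr2, hr3⟩ := chain_meet hinf hQ (K := {a // a ∈ x.1})
    (fun a => by simpa using h1 a.1 a.2)
    (fun a => {q : E × C | ∃ k i, T.R (q.1, (k, q.2)) (a.1, i) (γ, m0)}) (e, c0)
    (by
      rintro a ⟨e1, c1⟩ -
      obtain ⟨⟨e2, k2, c2⟩, hle, i, hi⟩ := T.pred (e1, (k0, c1)) (γ, m0) a.1 (hγ a)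
      exact ⟨(e2, c2), ⟨hle.1, hle.2.2⟩, k2, i, hi⟩)
  choose k i hR using hr1
  obtain ⟨es, hes⟩ := directed_lower hE (J := Option {a // a ∈ x.1})
    (by
      rw [Cardinal.mk_option]
      exact Cardinal.add_lt_of_lt (hinf.trans hμκ.le) x.2
        (Cardinal.one_lt_aleph0.trans_le (hinf.trans hμκ.le)))
    (fun o => match o with
      | none => e
      | some a => (r a).1)
    (by
      rintro (_ | a) (_ | b)
      · exact ⟨none, le_rfl, le_rfl⟩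
      · exact ⟨some b, (hr2 b).1, le_rfl⟩
      · exact ⟨some a, le_rfl, (hr2 a).1⟩
      · rcases lt_trichotomy a b with h | h | h
        · exact ⟨some b, (hr3 a b h).1, le_rfl⟩
        · subst h; exact ⟨some a, le_rfl, le_rfl⟩
        · exact ⟨some a, le_rfl, (hr3 b a h).1⟩)
  have hese : es ≤ e := hes none
  have hesr : ∀ a, es ≤ (r a).1 := fun a => hes (some a)
  -- a piece which is unbounded in `x`
  obtain ⟨k1, n, hkn⟩ : ∃ (k1 : K) (n : ℕ), ∀ a ∈ x.1, ∃ b : {b // b ∈ x.1}, a ≤ b.1 ∧ k b = k1 ∧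
      lv (i b) ≤ n := by
    by_contra hcon
    push Not at hcon
    have hne : Nonempty (K × ℕ) := ⟨(k0, 0)⟩
    obtain ⟨φ, hφ⟩ : ∃ φ : {m // ι m ∈ x.1} → K × ℕ, Function.Surjective φ := by
      have hle : #(K × ℕ) ≤ #{m // ι m ∈ x.1} := by
        rw [← hμ, Cardinal.mk_prod, Cardinal.lift_id, Cardinal.lift_id, Cardinal.mk_nat]
        exact (mul_le_mul' hK hinf).trans (Cardinal.mul_eq_self hinf).le
      obtain ⟨ψ⟩ := (Cardinal.le_def _ _).1 hle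
      exact ⟨Function.invFun ψ, Function.invFun_surjective ψ.injective⟩
    choose c hc1 hc2 using hcon
    obtain ⟨α, hα, hαc⟩ := h2 (fun m => ⟨c (φ m).1 (φ m).2, hc1 _ _⟩)
    obtain ⟨m, hm⟩ := hφ (k ⟨α, hα⟩, lv (i ⟨α, hα⟩))
    have h3 := hαc m
    have h4 := hc2 (φ m).1 (φ m).2 ⟨α, hα⟩ h3.le (by rw [hm])
    rw [hm] at h4
    exact absurd h4 (lt_irrefl _)
  refine ⟨es, hese, n, {a | ∃ h : a ∈ x.1, k ⟨a, h⟩ = k1 ∧ lv (i ⟨a, h⟩) ≤ n}, ?_, ?_, ?_⟩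
  · rintro a ⟨h, -⟩
    exact h
  · intro a ha
    obtain ⟨⟨b, hb⟩, h3, h4, h5⟩ := hkn a ha
    exact ⟨b, ⟨hb, h4, h5⟩, h3⟩
  · rintro a ⟨ha, hka, hla⟩ b ⟨hb, hkb, hlb⟩ hab
    refine ⟨(k1, (r ⟨b, hb⟩).2), i ⟨a, ha⟩, i ⟨b, hb⟩, hla, hlb, ?_⟩
    refine T.tree _ _ _ (γ, m0) ?_ ?_ hab
    · refine T.mono _ _ _ _ ?_ (hR ⟨a, ha⟩)
      refine ⟨hesr _, ?_, (hr3 ⟨a, ha⟩ ⟨b, hb⟩ hab).2⟩
      rw [hka]
    · refine T.mono _ _ _ _ ?_ (hR ⟨b, hb⟩)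
      refine ⟨hesr _, ?_, le_rfl⟩
      rw [hkb]

end

end CLC
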