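import Pool.Agent.Lib.CLC.StepA

/-!
# From trees to narrow systems
-/

namespace CLC

open Cardinal CAT9

/-- Every name for a function from `M` to `L` is bounded. -/
def BddNames (E L M : Type) [Preorder E] [LinearOrder L] : Prop :=
  ∀ (c : M → ENm E L) (e : E), ∃ e', e' ≤ e ∧ ∃ γ, ∀ m l e'', e'' ≤ e' →
    ((c m).val l).holds e'' → l < γ

/-- The sentence that some condition in the generic filter has the property `P`. -/
def Reg.cl {E : Type} [Preorder E] (P : E → Prop) : Reg E where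
  holds p := ∀ q, q ≤ p → ∃ r, r ≤ q ∧ ∃ s, r ≤ s ∧ P s
  mono _ _ h hp r hr := hp r (hr.trans h)
  dense p h q hq := by
    obtain ⟨r, hr, h'⟩ := h q hq
    obtain ⟨s, hs, t, ht⟩ := h' r le_rfl
    exact ⟨s, hs.trans hr, t, ht⟩

theorem Reg.cl_of {E : Type} [Preorder E] {P : E → Prop} {e : E} (h : P e) :
    (Reg.cl P).holds e := fun q hq => ⟨q, le_rfl, e, hq, h⟩

section

variable {L M : Type} [LinearOrder L] [hA : Amb L M]

/-- The properties of almost all small sets. -/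
structure Good (ι : M → L) (x : Set L) : Prop where
  init : ∀ a ∈ x, #{b : {b // b ∈ x} // b.1 < a} ≤ #{m // ι m ∈ x}
  inf : ℵ₀ ≤ #{m // ι m ∈ x}
  bdd : ∀ c : {m // ι m ∈ x} → {a // a ∈ x}, ∃ α ∈ x, ∀ m, (c m).1 < α

variable {κ0 : Cardinal.{0}} {E : Type} [Preorder E] {U : UltName κ0 E L}

theorem ae_init (hκ : ℵ₀ < κ0) (ι : M → L) (p : E) :
    U.ae p (fun x => Reg.const (∀ a ∈ x.1, #{b : {b // b ∈ x.1} // b.1 < a} ≤
      #{m // ι m ∈ x.1})) := by
  classical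
  have hg : ∀ a : L, ∃ g : L → M, ∀ b c, b < a → c < a → g b = g c → b = c := by
    intro a
    obtain ⟨φ⟩ := (Cardinal.le_def _ _).1 (hA.init a)
    obtain ⟨m0⟩ := Amb.neM L hA
    refine ⟨fun b => if h : b < a then φ ⟨b, h⟩ else m0, fun b c hb hc h => ?_⟩
    simp only [hb, hc, dif_pos] at h
    simpa using φ.injective h
  choose g hg using hg
  refine UltName.weaken (UltName.ae_closed₂ (U := U) hκ p
    (fun a b => if b < a then some (ι (g a b)) else none)) fun x q _ hx a ha => ?_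
  refine Cardinal.mk_le_of_injective (f := fun b : {b : {b // b ∈ x.1} // b.1 < a} =>
    (⟨g a b.1.1, hx a ha b.1.1 b.1.2 _ (by simp [b.2])⟩ : {m // ι m ∈ x.1})) ?_
  intro b c h
  have h' : g a b.1.1 = g a c.1.1 := congrArg (fun z : {m // ι m ∈ x.1} => z.1) h
  exact Subtype.ext (Subtype.ext (hg a _ _ b.2 c.2 h'))

theorem ae_inf (hκ : ℵ₀ < κ0) (ι : M → L) (p : E) :
    U.ae p (fun x => Reg.const (ℵ₀ ≤ #{m // ι m ∈ x.1})) := by
  have hM : #ℕ ≤ #M := by rw [Cardinal.mk_nat]; exact hA.inf (L := L)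
  obtain ⟨φ⟩ := (Cardinal.le_def _ _).1 hM
  refine UltName.weaken (UltName.ae_superset (U := U) (ι := ℕ)
    (by rw [Cardinal.mk_nat]; exact hκ) p (fun n => ι (φ n))) fun x q _ hx => ?_
  rw [← Cardinal.mk_nat]
  refine Cardinal.mk_le_of_injective (f := fun n : ℕ => (⟨φ n, hx n⟩ : {m // ι m ∈ x.1})) ?_
  intro n n' h
  have h' : φ n = φ n' := congrArg (fun z : {m // ι m ∈ x.1} => z.1) h
  exact φ.injective h'

theorem ae_bdd (hκ : ℵ₀ < κ0) {ι : M → L} (hι : Function.Injective ι)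
    (hreg : BddNames E L M) (p : E) :
    U.ae p (fun x => Reg.const (∀ c : {m // ι m ∈ x.1} → {a // a ∈ x.1},
      ∃ α ∈ x.1, ∀ m, (c m).1 < α)) := by
  classical
  refine U.dense _ _ fun q _ => ?_
  obtain ⟨e1, he1, h | h⟩ := U.ultra q (fun x => Reg.const
    (∀ c : {m // ι m ∈ x.1} → {a // a ∈ x.1}, ∃ α ∈ x.1, ∀ m, (c m).1 < α))
  · exact ⟨e1, he1, h⟩
  exfalso
  have hne : Nonempty L := by
    obtain ⟨a, -⟩ := hA.bdd Empty (fun e => e.elim) (by simp)
    exact ⟨a⟩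
  -- a counterexample for every bad `x`
  have hc : ∀ x : PK κ0 L, ∃ c : M → L,
      (¬ ∀ c : {m // ι m ∈ x.1} → {a // a ∈ x.1}, ∃ α ∈ x.1, ∀ m, (c m).1 < α) →
        (∀ m, ι m ∈ x.1 → c m ∈ x.1) ∧ ∀ α ∈ x.1, ∃ m, ι m ∈ x.1 ∧ α ≤ c m := by
    intro x
    by_cases hx : ∀ c : {m // ι m ∈ x.1} → {a // a ∈ x.1}, ∃ α ∈ x.1, ∀ m, (c m).1 < α
    · exact ⟨fun _ => Classical.arbitrary L, fun h => absurd hx h⟩
    · push Not at hx
      obtain ⟨c, hc⟩ := hx
      refine ⟨fun m => if h : ι m ∈ x.1 then (c ⟨m, h⟩).1 else Classical.arbitrary L, fun _ => ⟨?_, ?_⟩⟩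
      · intro m hm
        simp only [hm, dif_pos]
        exact (c ⟨m, hm⟩).2
      · intro α hα
        obtain ⟨⟨m, hm⟩, h'⟩ := hc α hα
        refine ⟨m, hm, ?_⟩
        simp only [hm, dif_pos]
        exact h'
  choose c hc using hc
  have hbad : U.ae e1 (fun x => Reg.const ((∀ m, ι m ∈ x.1 → c x m ∈ x.1) ∧
      ∀ α ∈ x.1, ∃ m, ι m ∈ x.1 ∧ α ≤ c x m)) :=
    UltName.weaken h fun x r _ hx => hc x (hx r le_rfl)
  -- the name for the limit function
  have hname : ∀ m : M, ∃ n : ENm E L, ∀ e, e ≤ e1 → ∀ l, (n.val l).holds e →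
      U.ae e (fun x => Reg.const (c x m = l)) := by
    intro m
    obtain ⟨n, hn⟩ := exists_name (E := E) (A := L)
      (fun l => ⟨fun e => U.ae e (fun x => Reg.const (c x m = l)),
        fun p q hq h => U.mono _ _ _ hq h, fun p h => U.dense _ _ h⟩) e1 (by
        intro e he
        have h3 : U.ae e (fun x => Reg.ex fun a : x.1 => (Reg.const (c x m = a) : Reg E)) := by
          refine UltName.weaken (UltName.ae_and hκ (U.mono _ _ _ he hbad) (U.fine e (ι m)))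
            fun x r _ hx => ?_
          exact Reg.ex_of ⟨c x m, hx.1.1 m hx.2⟩ rfl
        obtain ⟨e', he', a, ha⟩ := U.normal e (fun a x => Reg.const (c x m = a)) h3
        exact ⟨e', he', a, ha⟩)
    exact ⟨n, hn⟩
  choose n hn using hname
  obtain ⟨e2, he2, γ, hγ⟩ := hreg n e1
  have h4 : U.ae e2 (fun x => Reg.ex fun a : x.1 =>
      (Reg.const (∃ m, ι m = a ∧ γ ≤ c x m) : Reg E)) := by
    refine UltName.weaken (UltName.ae_and hκ (U.mono _ _ _ he2 hbad) (U.fine e2 γ))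
      fun x r _ hx => ?_
    obtain ⟨m, hm, h5⟩ := hx.1.2 γ hx.2
    exact Reg.ex_of ⟨ι m, hm⟩ ⟨m, rfl, h5⟩
  obtain ⟨e3, he3, a, ha⟩ := U.normal e2 (fun a x => Reg.const (∃ m, ι m = a ∧ γ ≤ c x m)) h4
  obtain ⟨x, r, hr, m, hm, -⟩ := U.proper _ _ ha
  obtain ⟨e4, he4, l, hl⟩ := (n m).total e3
  have h5 := hγ m l e4 (he4.trans he3) hl
  have h6 := hn m e4 (he4.trans (he3.trans he2)) l hl
  obtain ⟨x', r', hr', ⟨m', hm', h7⟩, h8⟩ := U.proper _ _
    (UltName.ae_and hκ (U.mono _ _ _ he4 ha) h6)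
  have : m' = m := hι (hm'.trans hm.symm)
  subst this
  have h9 : c x' m' = l := h8
  rw [h9] at h7
  exact absurd h5 (not_lt.2 h7)

theorem ae_good (hκ : ℵ₀ < κ0) {ι : M → L} (hι : Function.Injective ι)
    (hreg : BddNames E L M) (p : E) : U.ae p (fun x => Reg.const (Good ι x.1)) :=
  UltName.weaken (UltName.ae_and hκ (UltName.ae_and hκ (ae_init hκ ι p) (ae_inf hκ ι p))
    (ae_bdd hκ hι hreg p)) fun _ _ _ hx => ⟨hx.1.1, hx.1.2, hx.2⟩

end

end CLC
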