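import Pool.Agent.Lib.CLC.StepAMain
import Pool.Agent.Lib.CLC.Col

/-!
# Narrow systems: the generic branch
-/

namespace CLC

open Cardinal CAT9

/-- A name, for `E × F × C`, for a family of tree orders on subsets of `L × N`. -/
structure NSys (E F C I L N : Type) [Preorder E] [Preorder F] [Preorder C] [LinearOrder L] where
  /-- `(e, f, c)` forces `x` to lie below `y` in the order with index `i` -/
  R : E → F → C → I → L × N → L × N → Prop
  mono : ∀ {e e' f f' c c' i x y}, e' ≤ e → f' ≤ f → c' ≤ c → R e f c i x y → R e' f' c' i x y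
  dense : ∀ {e f c i x y}, (∀ e' f' c', e' ≤ e → f' ≤ f → c' ≤ c →
    ∃ e'' f'' c'', e'' ≤ e' ∧ f'' ≤ f' ∧ c'' ≤ c' ∧ R e'' f'' c'' i x y) → R e f c i x y
  trans : ∀ {e f c i x y z}, R e f c i x y → R e f c i y z → R e f c i x z
  tree : ∀ {e f c i x y z}, R e f c i x z → R e f c i y z → x.1 < y.1 → R e f c i x y
  uniq : ∀ {e f c i a j k z}, R e f c i (a, j) z → R e f c i (a, k) z → j = k

/-- The sentence that a relation holds. -/
def NSys.reg {E F C I L N : Type} [Preorder E] [Preorder F] [Preorder C] [LinearOrder L]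
    (R : NSys E F C I L N) (f : F) (c : C) (i : I) (x y : L × N) : Reg E where
  holds e := R.R e f c i x y
  mono _ _ h hR := R.mono h le_rfl le_rfl hR
  dense e h := R.dense fun e' f' c' he hf hc => by
    obtain ⟨e'', he'', hR⟩ := h e' he
    exact ⟨e'', f', c', he'', le_rfl, le_rfl, R.mono le_rfl hf hc hR⟩

/-- The name of a given object. -/
def ENm.const {E A : Type} [Preorder E] (a : A) : ENm E A where
  val b := Reg.const (b = a)
  uniq _ _ _ h h' := by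
    have h1 := h
    have h2 := h'
    simp only [Reg.const] at h1 h2
    rw [h1, h2]
  total p := ⟨p, le_rfl, a, rfl⟩

section

variable {κ δ : Cardinal.{0}} {A D L E : Type} [LinearOrder A] [Preorder E]

/-- The name `h'` is stronger than `h` almost everywhere. -/
def leA (U : UltName κ E L) (e : E) (h' h : PK κ L → ENm E (Col δ A D)) : Prop :=
  U.ae e (fun x => Reg.ex fun p : {p : Col δ A D × Col δ A D // p.1 ≤ p.2} =>
    ((h' x).val p.1.1).and ((h x).val p.1.2))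

variable {U : UltName κ E L}

theorem leA.mono {e e' : E} {h' h : PK κ L → ENm E (Col δ A D)} (he : e' ≤ e)
    (hl : leA U e h' h) : leA U e' h' h := U.mono _ _ _ he hl

theorem leA.refl (e : E) (h : PK κ L → ENm E (Col δ A D)) : leA U e h h := by
  refine U.ae_true _ _ fun x q _ r hr => ?_
  obtain ⟨s, hs, a, ha⟩ := (h x).total r
  exact ⟨s, hs, ⟨(a, a), le_rfl⟩, ha, ha⟩

theorem leA.trans (hκ : ℵ₀ < κ) {e : E} {h h' h'' : PK κ L → ENm E (Col δ A D)}
    (h1 : leA U e h'' h') (h2 : leA U e h' h) : leA U e h'' h := by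
  refine UltName.weaken (UltName.ae_and hκ h1 h2) fun x q _ hx r hr => ?_
  obtain ⟨s, hs, ⟨⟨a, b⟩, hab⟩, ha, hb⟩ := hx.1 r hr
  obtain ⟨t, ht, ⟨⟨b', c⟩, hbc⟩, hb', hc⟩ := hx.2 s (hs.trans hr)
  have : b = b' := (h' x).agree ht le_rfl hb hb'
  subst this
  exact ⟨t, ht.trans hs, ⟨(a, c), LE.le.trans hab hbc⟩, ((h'' x).val a).mono _ _ ht ha, hc⟩

theorem ae_inside (hδκ : δ < κ) (ι : A → L) (e : E) (c : Col δ A D) :
    U.ae e (fun x => Reg.const (Col.Inside ι x.1 c)) := by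
  refine UltName.weaken (UltName.ae_superset (U := U) (ι := {z // c.f z ≠ none})
    (c.small.trans_lt hδκ) e (fun z => ι z.1.1)) fun x q _ hx z hz => ?_
  exact hx ⟨z, hz⟩

variable [LinearOrder L] {F I N : Type} [Preorder F]
  {R : NSys E F (Col δ A D) I L N}

/-- Almost everywhere, the condition with parts `c` and `h x` puts `(a, ξ)` below
`(γ x, ζ)`. -/
def Cov (U : UltName κ E L) (R : NSys E F (Col δ A D) I L N) (hδ : ℵ₀ ≤ δ) (ι : A → L)
    (γ : PK κ L → ENm E L) (e : E) (f : F) (c : Col δ A D)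
    (h : PK κ L → ENm E (Col δ A D)) (a : L) (ξ : N) (i : I) (ζ : N) : Prop :=
  U.ae e (fun x => Reg.ex fun p : Col δ A D × L => ((h x).val p.1).and
    (((γ x).val p.2).and (R.reg f (Col.glue hδ ι x.1 c p.1) i (a, ξ) (p.2, ζ))))

variable {hδ : ℵ₀ ≤ δ} {ι : A → L} {γ : PK κ L → ENm E L}

theorem Cov.mono (hκ : ℵ₀ < κ) {e e' : E} {f f' : F} {c c' : Col δ A D}
    {h h' : PK κ L → ENm E (Col δ A D)} {a : L} {ξ : N} {i : I} {ζ : N} (he : e' ≤ e)
    (hf : f' ≤ f) (hc : c' ≤ c) (hh : leA U e' h' h) (hC : Cov U R hδ ι γ e f c h a ξ i ζ) :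
    Cov U R hδ ι γ e' f' c' h' a ξ i ζ := by
  refine UltName.weaken (UltName.ae_and hκ hh (U.mono _ _ _ he hC)) fun x q _ hx r hr => ?_
  obtain ⟨s, hs, ⟨⟨d', d⟩, hdd⟩, hd', hd⟩ := hx.1 r hr
  obtain ⟨t, ht, ⟨d2, g⟩, h1, h2, h3⟩ := hx.2 s (hs.trans hr)
  have : d = d2 := (h x).agree ht le_rfl hd h1
  subst this
  exact ⟨t, ht.trans hs, (d', g), ((h' x).val d').mono _ _ ht hd', h2,
    R.mono le_rfl hf (Col.glue_mono hc hdd) h3⟩

/-- Going down. -/
theorem Cov.below (hκ : ℵ₀ < κ) (hδκ : δ < κ) {e : E} {f : F} {c : Col δ A D}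
    {h : PK κ L → ENm E (Col δ A D)} {a b : L} {ξ ξ' : N} {i : I} {ζ : N}
    (h1 : Cov U R hδ ι γ e f c h b ξ' i ζ) (h2 : R.R e f c i (a, ξ) (b, ξ')) :
    Cov U R hδ ι γ e f c h a ξ i ζ := by
  refine UltName.weaken (UltName.ae_and hκ h1 (ae_inside (U := U) hδκ ι e c))
    fun x q hq hx r hr => ?_
  obtain ⟨s, hs, ⟨d, g⟩, hd, hg, hR⟩ := hx.1 r hr
  exact ⟨s, hs, (d, g), hd, hg, R.trans
    (R.mono (hs.trans (hr.trans hq)) le_rfl (Col.glue_le hx.2) h2) hR⟩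

/-- Coherence. -/
theorem Cov.coh (hκ : ℵ₀ < κ) (hδκ : δ < κ) {e : E} {f : F} {c : Col δ A D}
    {h : PK κ L → ENm E (Col δ A D)} {a b : L} {ξ ξ' : N} {i : I} {ζ : N}
    (h1 : Cov U R hδ ι γ e f c h a ξ i ζ) (h2 : Cov U R hδ ι γ e f c h b ξ' i ζ) (hab : a < b) :
    R.R e f c i (a, ξ) (b, ξ') := by
  refine R.dense fun e' f' c' he hf hc => ?_
  obtain ⟨x, q, hq, ⟨hx1, hx2⟩, hx3⟩ := U.proper _ _ (UltName.ae_and hκ
    (UltName.ae_and hκ (U.mono _ _ _ he h1) (U.mono _ _ _ he h2)) (ae_inside hδκ ι e' c'))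
  obtain ⟨r, hr, ⟨d, g⟩, hd, hg, hR⟩ := hx1 q le_rfl
  obtain ⟨s, hs, ⟨d', g'⟩, hd', hg', hR'⟩ := hx2 r hr
  have e1 : d = d' := (h x).agree hs le_rfl hd hd'
  have e2 : g = g' := (γ x).agree hs le_rfl hg hg'
  subst e1
  subst e2
  have hR1 := R.mono hs (le_refl f) (le_refl _) hR
  have hR2 := R.tree hR1 hR' hab
  exact ⟨s, f', Col.glue hδ ι x.1 c' d, hs.trans (hr.trans hq), le_rfl, Col.glue_le hx3,
    R.mono le_rfl hf (Col.glue_mono hc le_rfl) hR2⟩

end

end CLC
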