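import Pool.Agent.Lib.CLC.StepB

/-!
# Narrow systems: covering, and the families of names
-/

namespace CLC

open Cardinal CAT9

section

variable {κ δ : Cardinal.{0}} {A D L M E : Type} [LinearOrder A] [Preorder E] [LinearOrder L]
  {U : UltName κ E L} {F I N : Type} [Preorder F] {R : NSys E F (Col δ A D) I L N}

/-- The assumptions of the second step. -/
structure Base (U : UltName κ E L) (R : NSys E F (Col δ A D) I L N) (S0 : SNm E L)
    (e1 : E) (f1 : F) (c1 : Col δ A D) : Prop where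
  unb : ∀ e, e ≤ e1 → ∀ a, ∃ e', e' ≤ e ∧ ∃ b, a < b ∧ (S0 b).holds e'
  star : ∀ e, e ≤ e1 → ∀ f, f ≤ f1 → ∀ c, c ≤ c1 → ∀ a b, a < b → (S0 a).holds e →
    (S0 b).holds e → ∃ e' f' c', e' ≤ e ∧ f' ≤ f ∧ c' ≤ c ∧ ∃ i ξ ζ, R.R e' f' c' i (a, ξ) (b, ζ)

/-- The top level. -/
theorem exists_gamma [hA : Amb L M] (hκM : κ ≤ #M) {S0 : SNm E L} {e1 : E}
    (unb : ∀ e, e ≤ e1 → ∀ a, ∃ e', e' ≤ e ∧ ∃ b, a < b ∧ (S0 b).holds e') :
    ∃ γ : PK κ L → ENm E L, ∀ x e, e ≤ e1 → ∀ g, ((γ x).val g).holds e →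
      (S0 g).holds e ∧ ∀ b ∈ x.1, b < g := by
  have hne : Nonempty L := by
    obtain ⟨a, -⟩ := hA.bdd Empty (fun e => e.elim) (by simp)
    exact ⟨a⟩
  have h : ∀ x : PK κ L, ∃ γ : ENm E L, ∀ e, e ≤ e1 → ∀ g, (γ.val g).holds e →
      (S0 g).holds e ∧ ∀ b ∈ x.1, b < g := by
    intro x
    obtain ⟨γ, hγ⟩ := exists_name (fun g => (S0 g).and (Reg.const (∀ b ∈ x.1, b < g))) e1 (by
      intro e he
      obtain ⟨a, ha⟩ := hA.bdd {b // b ∈ x.1} (fun b => b.1) (x.2.le.trans hκM)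
      obtain ⟨e', he', b, hab, hb⟩ := unb e he a
      exact ⟨e', he', b, hb, fun c hc => (ha ⟨c, hc⟩).trans hab⟩)
    exact ⟨γ, fun e he g hg => hγ e he g hg⟩
  choose γ hγ using h
  exact ⟨γ, hγ⟩

variable {hδ : ℵ₀ ≤ δ} {ι : A → L} {γ : PK κ L → ENm E L}

/-- Every level of `S0` can be covered. -/
theorem cover (hκ : ℵ₀ < κ) (hE : DirClosedLT κ E) (hδκ : δ < κ) (hD : #D < κ)
    (hι : Function.Injective ι) (hA : ∀ a : A, #{b // b < a} < κ) (hF : #F < κ) (hI : #I < κ)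
    (hN : #N < κ) {S0 : SNm E L} {e1 : E} {f1 : F} {c1 : Col δ A D} (hb : Base U R S0 e1 f1 c1)
    (hγ : ∀ x e, e ≤ e1 → ∀ g, ((γ x).val g).holds e → (S0 g).holds e ∧ ∀ b ∈ x.1, b < g)
    {e : E} (he : e ≤ e1) {f : F} (hf : f ≤ f1) {c : Col δ A D} (hc : c ≤ c1)
    (h : PK κ L → ENm E (Col δ A D)) {a : L} (ha : (S0 a).holds e) :
    ∃ e' f' c' h', e' ≤ e ∧ f' ≤ f ∧ c' ≤ c ∧ leA U e' h' h ∧ ∃ ξ i ζ,
      Cov U R hδ ι γ e' f' c' h' a ξ i ζ := by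
  classical
  by_cases hempty : IsEmpty (F × (I × (N × N)))
  · exfalso
    obtain ⟨x, q, hq, hxa, hxi⟩ := U.proper _ _
      (UltName.ae_and hκ (U.fine e a) (ae_inside (U := U) (δ := δ) hδκ ι e c))
    obtain ⟨q', hq', g, hg⟩ := (γ x).total q
    have h1 := hγ x q' ((hq'.trans hq).trans he) g hg
    obtain ⟨_, f', _, _, _, _, i, ξ, ζ, _⟩ := hb.star q' ((hq'.trans hq).trans he) f hf c hc a g
      (h1.2 a hxa) ((S0 a).mono _ _ (hq'.trans hq) ha) h1.1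
    exact hempty.false (f', i, ξ, ζ)
  rw [not_isEmpty_iff] at hempty
  -- the data chosen for `x`
  let Z : Type := (Col δ A D × L) × (Col δ A D × (F × (I × (N × N))))
  have hZ : Nonempty Z := by
    obtain ⟨w⟩ := hempty
    exact ⟨((c, a), (c, w))⟩
  let φ : PK κ L → Z → Reg E := fun x z =>
    (((h x).val z.1.1).and ((γ x).val z.1.2)).and
      ((Reg.const (z.2.2.1 ≤ f ∧ z.2.1 ≤ Col.glue hδ ι x.1 c z.1.1)).and
        (R.reg z.2.2.1 z.2.1 z.2.2.2.1 (a, z.2.2.2.2.1) (z.1.2, z.2.2.2.2.2)))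
  have hname : ∀ x : PK κ L, ∃ m : ENm E Z, (a ∈ x.1 ∧ Col.Inside ι x.1 c) → ∀ e', e' ≤ e →
      ∀ z, (m.val z).holds e' → (φ x z).holds e' := by
    intro x
    by_cases hx : a ∈ x.1 ∧ Col.Inside ι x.1 c
    · obtain ⟨m, hm⟩ := exists_name (φ x) e (by
        intro e2 he2
        obtain ⟨e3, he3, d, hd⟩ := (h x).total e2
        obtain ⟨e4, he4, g, hg⟩ := (γ x).total e3
        have h1 := hγ x e4 ((he4.trans (he3.trans he2)).trans he) g hg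
        obtain ⟨e5, f', c', he5, hf', hc', i, ξ, ζ, hR⟩ := hb.star e4
          ((he4.trans (he3.trans he2)).trans he) f hf (Col.glue hδ ι x.1 c d)
          (LE.le.trans (Col.glue_le hx.2) hc) a g (h1.2 a hx.1)
          ((S0 a).mono _ _ (he4.trans (he3.trans he2)) ha) h1.1
        refine ⟨e5, he5.trans (he4.trans he3), ((d, g), (c', (f', (i, (ξ, ζ))))), ?_⟩
        exact ⟨⟨((h x).val d).mono _ _ (he5.trans he4) hd, ((γ x).val g).mono _ _ he5 hg⟩,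
          ⟨hf', hc'⟩, hR⟩)
      exact ⟨m, fun _ => hm⟩
    · exact ⟨ENm.const (Classical.arbitrary Z), fun h' => absurd h' hx⟩
  choose m hm using hname
  have hnice : ∀ e', U.ae e' (fun x => Reg.const (a ∈ x.1 ∧ Col.Inside ι x.1 c)) := fun e' =>
    UltName.weaken (UltName.ae_and hκ (U.fine e' a) (ae_inside (U := U) hδκ ι e' c))
      fun _ _ _ hx => hx
  -- the small part is constant
  have hW : #(F × (I × (N × N))) < κ := by
    simp only [Cardinal.mk_prod, Cardinal.lift_id]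
    exact Cardinal.mul_lt_of_lt hκ.le hF (Cardinal.mul_lt_of_lt hκ.le hI
      (Cardinal.mul_lt_of_lt hκ.le hN hN))
  obtain ⟨e2, he2, w, hw⟩ := UltName.ae_ex_small (U := U) hκ hW
    (φ := fun w x => Reg.ex fun z : {z : Z // z.2.2 = w} => (m x).val z.1) (p := e) (by
      refine U.ae_true _ _ fun x q _ r _ => ?_
      obtain ⟨s, hs, z, hz⟩ := (m x).total r
      exact ⟨s, hs, z.2.2, Reg.ex_of ⟨z, rfl⟩ hz⟩)
  -- the part inside `x` is constant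
  obtain ⟨e3, he3, c0, hc0⟩ := ae_low hκ hE (U := U) hδ hδκ hD hι hA e2
    (fun c' x => Reg.ex fun z : {z : Z // z.2.1 = c' ∧ z.2.2 = w} => (m x).val z.1)
    (by
      intro x q c' c'' h1 h2
      obtain ⟨r, hr, ⟨z, hz, _⟩, hz'⟩ := h1 q le_rfl
      obtain ⟨s, hs, ⟨y, hy, _⟩, hy'⟩ := h2 r hr
      have hzy : z = y := (m x).agree hs le_rfl hz' hy'
      rw [← hz, ← hy, hzy])
    (by
      refine UltName.weaken hw fun x q _ hx r hr => ?_
      obtain ⟨s, hs, ⟨z, hz⟩, hz'⟩ := hx r hr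
      exact ⟨s, hs, z.2.1, Reg.ex_of ⟨z, rfl, hz⟩ hz'⟩)
  -- the final data
  have hfin : U.ae e3 (fun x => (Reg.ex fun z : {z : Z // Col.low hδ ι x.1 z.2.1 = c0 ∧
      z.2.2 = w} => (m x).val z.1).and (Reg.const (a ∈ x.1 ∧ Col.Inside ι x.1 c))) := by
    refine UltName.ae_and hκ ?_ (hnice e3)
    refine UltName.weaken hc0 fun x q _ hx r hr => ?_
    obtain ⟨s, hs, ⟨c', hc'⟩, hx'⟩ := hx r hr
    obtain ⟨t, ht, ⟨z, hz1, hz2⟩, hz3⟩ := hx' s le_rfl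
    refine ⟨t, ht.trans hs, ⟨z, ?_, hz2⟩, hz3⟩
    rw [hz1]
    exact hc'
  have he : e3 ≤ e := he3.trans he2
  obtain ⟨x0, q0, hq0, hx0, hx0'⟩ := U.proper _ _ hfin
  obtain ⟨r0, hr0, ⟨z0, hz01, hz02⟩, hz03⟩ := hx0 q0 le_rfl
  have hφ0 := hm x0 hx0' r0 (hr0.trans (hq0.trans he)) z0 hz03
  have hf' : w.1 ≤ f := by
    rw [← hz02]
    exact hφ0.2.1.1
  have hc' : c0 ≤ c := by
    intro z b hzb
    rw [← hz01, Col.low_some]
    have hin := hx0'.2 z (by simp [hzb])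
    refine ⟨hin, hφ0.2.1.2 z b ?_⟩
    rw [Col.glue_in hin]
    exact hzb
  let h' : PK κ L → ENm E (Col δ A D) := fun x =>
    (m x).map fun z => Col.glue hδ ι x.1 z.1.1 z.2.1
  refine ⟨e3, w.1, c0, h', he, hf', hc', ?_, w.2.2.1, w.2.1, w.2.2.2, ?_⟩
  · refine UltName.weaken hfin fun x q hq hx r hr => ?_
    obtain ⟨s, hs, ⟨z, hz1, hz2⟩, hz3⟩ := hx.1 r hr
    have hφ := hm x hx.2 s (hs.trans (hr.trans (hq.trans he))) z hz3
    refine ⟨s, hs, ⟨(Col.glue hδ ι x.1 z.1.1 z.2.1, z.1.1), ?_⟩, ENm.map_val hz3, hφ.1.1⟩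
    intro y b hyb
    by_cases hy : ι y.1 ∈ x.1
    · rw [Col.glue_in hy]; exact hyb
    · rw [Col.glue_out hy]
      refine hφ.2.1.2 y b ?_
      rw [Col.glue_out hy]
      exact hyb
  · refine UltName.weaken hfin fun x q hq hx r hr => ?_
    obtain ⟨s, hs, ⟨z, hz1, hz2⟩, hz3⟩ := hx.1 r hr
    have hφ := hm x hx.2 s (hs.trans (hr.trans (hq.trans he))) z hz3
    refine ⟨s, hs, (Col.glue hδ ι x.1 z.1.1 z.2.1, z.1.2), ENm.map_val hz3, hφ.1.2, ?_⟩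
    have hgl : Col.glue hδ ι x.1 c0 (Col.glue hδ ι x.1 z.1.1 z.2.1) = z.2.1 := by
      rw [← hz1]
      ext1
      funext y
      by_cases hy : ι y.1 ∈ x.1
      · rw [Col.glue_in hy, Col.low, Col.glue_in hy]
      · rw [Col.glue_out hy, Col.glue_out hy]
    have h5 := hφ.2.2
    rw [hgl, ← hz2]
    exact h5

end

end CLC
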