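import Pool.Agent.Lib.CLC.Bad
import Pool.Agent.Lib.CLC.Join

/-!
# The narrow system given by the first step
-/

namespace CLC

open Cardinal CAT9

section

variable {κ : ℕ → Cardinal.{0}}

/-- Reordering the factors. -/
def shuf (κ : ℕ → Cardinal.{0}) (a : Nod (κ 0)) (z : (DD κ × EE0 κ) × (KK κ a × CC κ a)) :
    BB κ a := (z.1.1, (z.2.1, (z.2.2, z.1.2)))

theorem shuf_isProj (a : Nod (κ 0)) : IsProj (shuf κ a) where
  mono _ _ h := ⟨h.1.1, h.2.1, h.2.2, h.1.2⟩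
  lift _ q h := ⟨((q.1, q.2.2.2), (q.2.1, q.2.2.1)), ⟨⟨h.1, h.2.2.2⟩, h.2.1, h.2.2.1⟩, le_rfl⟩

variable {L M : Type} [LinearOrder L]

/-- The narrow system. -/
noncomputable def nsys (n : ℕ) (lv : M → ℕ) (T : ∀ a, TreeName (BB κ a) L M) :
    NSys (DD κ × Ege κ (n + 1)) (Elt κ n) (CJ κ n) (Σ a : Nod (κ 0), KK κ a × CC κ a) L
      {m : M // lv m ≤ n} where
  R e f c i x y := (T i.1).R (e.1, (i.2.1, (i.2.2, join2 (join1 f c) e.2)))
    (x.1, x.2.1) (y.1, y.2.1)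
  mono he hf hc h := by
    refine (T _).mono _ _ _ _ ?_ h
    exact ⟨he.1, le_rfl, le_rfl, join2_le (join1_le hf hc) he.2⟩
  dense := by
    rintro ⟨d, g⟩ f c ⟨a, k, cc⟩ x y h
    refine (T a).dense _ _ _ ?_
    rintro ⟨d', k', cc', h'⟩ ⟨hd, hk, hcc, hh⟩
    have h1 : hi (n + 1) h' ≤ g := by
      have := hi_le (m := n + 1) hh
      rwa [hi_join2] at this
    have h2 : lo (n + 1) h' ≤ join1 f c := by
      have := lo_le (m := n + 1) hh
      rwa [lo_join2] at this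
    have h3 : init1 (lo (n + 1) h') ≤ f := by
      have := init1_le h2
      rwa [init1_join1] at this
    have h4 : last1 (lo (n + 1) h') ≤ c := by
      have := last1_le h2
      rwa [last1_join1] at this
    obtain ⟨⟨d'', g''⟩, f'', c'', he, hf, hc, hR⟩ := h (d', hi (n + 1) h') _ _ ⟨hd, h1⟩ h3 h4
    refine ⟨(d'', (k', (cc', join2 (join1 f'' c'') g''))), ⟨he.1, le_rfl, le_rfl, ?_⟩, ?_⟩
    swap
    · refine (T a).mono _ _ _ _ ?_ hR
      exact ⟨le_rfl, hk, hcc, le_rfl⟩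
    have h5 : join2 (join1 f'' c'') g'' ≤
        join2 (join1 (init1 (lo (n + 1) h')) (last1 (lo (n + 1) h'))) (hi (n + 1) h') :=
      join2_le (join1_le hf hc) he.2
    rwa [join1_init_last, join2_lo_hi] at h5
  trans h1 h2 := (T _).trans _ _ _ _ h1 h2
  tree h1 h2 h3 := (T _).tree _ _ _ _ h1 h2 h3
  uniq h1 h2 := Subtype.ext ((T _).uniq _ _ _ _ _ h1 h2)

/-- The restriction of a name for a set. -/
noncomputable def restr {m : ℕ} (f : Elt κ m) (S : SNm (DD κ × EE0 κ) L) : SNm (DD κ × Ege κ m) L := fun b =>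
  { holds := fun e => (S b).holds (e.1, join2 f e.2)
    mono := fun p q h hp => (S b).mono _ _ ⟨h.1, join2_le le_rfl h.2⟩ hp
    dense := by
      rintro ⟨d, g⟩ h
      refine (S b).dense _ ?_
      rintro ⟨d', h'⟩ ⟨hd, hh⟩
      have h1 : hi m h' ≤ g := by
        have := hi_le (m := m) hh
        rwa [hi_join2] at this
      have h2 : lo m h' ≤ f := by
        have := lo_le (m := m) hh
        rwa [lo_join2] at this
      obtain ⟨⟨d'', g''⟩, he, hS⟩ := h (d', hi m h') ⟨hd, h1⟩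
      refine ⟨(d'', join2 (lo m h') g''), ⟨he.1, ?_⟩, ?_⟩
      swap
      · refine (S b).mono _ _ ?_ hS
        exact ⟨le_rfl, join2_le h2 le_rfl⟩
      have := join2_le (le_refl (lo m h')) he.2
      rwa [join2_lo_hi] at this }

/-- Fixing the first part. -/
theorem exists_fix [hA : Amb L M] {m : ℕ} {δ : Cardinal.{0}} (hδ : ℵ₀ ≤ δ) (hδM : δ ≤ #M)
    (hF : #(Elt κ m) ≤ δ) (hcl : DirectedClosed δ (DD κ × Ege κ m))
    {S : SNm (DD κ × EE0 κ) L} {e0 : DD κ × EE0 κ}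
    (unb : ∀ e, e ≤ e0 → ∀ a, ∃ e', e' ≤ e ∧ ∃ b, a < b ∧ (S b).holds e') :
    ∃ f1, f1 ≤ lo m e0.2 ∧ ∃ e1, e1 ≤ (e0.1, hi m e0.2) ∧
      ∀ e, e ≤ e1 → ∀ a, ∃ e', e' ≤ e ∧ ∃ b, a < b ∧ (restr f1 S b).holds e' := by
  classical
  by_contra hcon
  push Not at hcon
  obtain ⟨es, hes, hall⟩ := meet hδ hcl hF
    (fun f => {e | f ≤ lo m e0.2 → ∃ a, ∀ e', e' ≤ e → ∀ b, a < b → ¬ (restr f S b).holds e'})
    (e0.1, hi m e0.2)
    (fun f q r hrq hq hf => by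
      obtain ⟨a, ha⟩ := hq hf
      exact ⟨a, fun e' he' => ha e' (he'.trans hrq)⟩)
    (fun f q hq => by
      by_cases hf : f ≤ lo m e0.2
      · obtain ⟨e, he, a, ha⟩ := hcon f hf q hq
        exact ⟨e, he, fun _ => ⟨a, ha⟩⟩
      · exact ⟨q, le_rfl, fun h => absurd h hf⟩)
  have hα : ∀ f : Elt κ m, ∃ a : L, f ≤ lo m e0.2 → ∀ e', e' ≤ es → ∀ b, a < b →
      ¬ (restr f S b).holds e' := by
    intro f
    by_cases hf : f ≤ lo m e0.2
    · obtain ⟨a, ha⟩ := hall f hf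
      exact ⟨a, fun _ => ha⟩
    · obtain ⟨a, -⟩ := hA.bdd Empty (fun e => e.elim) (by simp)
      exact ⟨a, fun h => absurd h hf⟩
  choose αf hαf using hα
  obtain ⟨αs, hαs⟩ := hA.bdd _ αf (hF.trans hδM)
  have h0 : (es.1, join2 (lo m e0.2) es.2) ≤ e0 := by
    refine ⟨hes.1, ?_⟩
    have := join2_le (le_refl (lo m e0.2)) hes.2
    rwa [join2_lo_hi] at this
  obtain ⟨⟨d', h'⟩, he', b, hb, hS⟩ := unb _ h0 αs
  have h1 : hi m h' ≤ es.2 := by
    have := hi_le (m := m) he'.2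
    rwa [hi_join2] at this
  have h2 : lo m h' ≤ lo m e0.2 := by
    have := lo_le (m := m) he'.2
    rwa [lo_join2] at this
  refine hαf (lo m h') h2 (d', hi m h') ⟨he'.1, h1⟩ b ((hαs _).trans hb) ?_
  change (S b).holds (d', join2 (lo m h') (hi m h'))
  rwa [join2_lo_hi]

/-- The assumptions of the second step hold. -/
theorem base_of {n : ℕ} {lv : M → ℕ} {T : ∀ a, TreeName (BB κ a) L M}
    (U : UltName (κ (n + 1)) (DD κ × Ege κ (n + 1)) L)
    {S : SNm (DD κ × EE0 κ) L} {e0 : DD κ × EE0 κ}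
    (star : ∀ e, e ≤ e0 → ∀ a b, a < b → (S a).holds e → (S b).holds e →
        ∃ e', e' ≤ e ∧ ∃ μ, ∃ r : KK κ μ × CC κ μ, ∃ i j, lv i ≤ n ∧ lv j ≤ n ∧
          (T μ).R (e'.1, (r.1, (r.2, e'.2))) (a, i) (b, j))
    {f1 : Elt κ (n + 1)} {e1 : DD κ × Ege κ (n + 1)} (hf1 : f1 ≤ lo (n + 1) e0.2)
    (he1 : e1 ≤ (e0.1, hi (n + 1) e0.2))
    (hunb : ∀ e, e ≤ e1 → ∀ a, ∃ e', e' ≤ e ∧ ∃ b, a < b ∧ (restr f1 S b).holds e') :
    Base U (nsys n lv T) (restr f1 S) e1 (init1 f1) (last1 f1) := by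
  refine ⟨hunb, ?_⟩
  intro e he f hf c hc a b hab hSa hSb
  have hfc : join1 f c ≤ f1 := by
    have := join1_le hf hc
    rwa [join1_init_last] at this
  have h1 : (e.1, join2 (join1 f c) e.2) ≤ e0 := by
    refine ⟨he.1.trans he1.1, ?_⟩
    have := join2_le (hfc.trans hf1) (he.2.trans he1.2)
    rwa [join2_lo_hi] at this
  have h2 : (e.1, join2 (join1 f c) e.2) ≤ (e.1, join2 f1 e.2) := ⟨le_rfl, join2_le hfc le_rfl⟩
  obtain ⟨⟨d', h'⟩, he', μ, r, i, j, hi', hj', hR⟩ := star _ h1 a b hab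
    ((S a).mono _ _ h2 hSa) ((S b).mono _ _ h2 hSb)
  have h3 : hi (n + 1) h' ≤ e.2 := by
    have := hi_le (m := n + 1) he'.2
    rwa [hi_join2] at this
  have h4 : lo (n + 1) h' ≤ join1 f c := by
    have := lo_le (m := n + 1) he'.2
    rwa [lo_join2] at this
  have h5 : init1 (lo (n + 1) h') ≤ f := by
    have := init1_le h4
    rwa [init1_join1] at this
  have h6 : last1 (lo (n + 1) h') ≤ c := by
    have := last1_le h4
    rwa [last1_join1] at this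
  refine ⟨(d', hi (n + 1) h'), init1 (lo (n + 1) h'), last1 (lo (n + 1) h'), ⟨he'.1, h3⟩, h5, h6,
    ⟨μ, r⟩, ⟨i, hi'⟩, ⟨j, hj'⟩, ?_⟩
  change (T μ).R (d', (r.1, (r.2, join2 (join1 (init1 (lo (n + 1) h'))
    (last1 (lo (n + 1) h'))) (hi (n + 1) h')))) (a, i) (b, j)
  rw [join1_init_last, join2_lo_hi]
  exact hR

end

end CLC
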