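import Pool.Agent.Lib.CLC.Names

/-!
# Working with names for ultrafilters
-/

namespace CLC

open Cardinal CAT9

namespace UltName

variable {κ : Cardinal.{0}} {E L : Type} [Preorder E] (U : UltName κ E L)

variable {U} in
theorem weaken {p : E} {φ ψ : PK κ L → Reg E} (h : U.ae p φ)
    (h' : ∀ x q, q ≤ p → (φ x).holds q → (ψ x).holds q) : U.ae p ψ := U.sup _ _ _ h' h

theorem ae_true (p : E) (φ : PK κ L → Reg E) (h : ∀ x q, q ≤ p → (φ x).holds q) : U.ae p φ := by
  have h1 : U.ae p (fun _ => Reg.const True) := by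
    refine U.dense _ _ fun q _ => ?_
    obtain ⟨r, hr, h' | h'⟩ := U.ultra q (fun _ => Reg.const True)
    · exact ⟨r, hr, h'⟩
    · obtain ⟨x, s, hs, hx⟩ := U.proper _ _ h'
      exact absurd trivial (hx s le_rfl)
  exact U.sup _ _ _ (fun x q hq _ => h x q hq) h1

variable {U}

theorem ae_and (hκ : ℵ₀ < κ) {p : E} {φ ψ : PK κ L → Reg E} (h1 : U.ae p φ) (h2 : U.ae p ψ) :
    U.ae p (fun x => (φ x).and (ψ x)) := by
  have h := U.complete Bool ((Cardinal.lt_aleph0_of_finite Bool).trans hκ) p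
    (fun b => if b then φ else ψ) (by
      intro b
      cases b
      · exact h2
      · exact h1)
  exact weaken h fun x q _ hx => ⟨hx true, hx false⟩

theorem ae_not_of {p : E} {φ : PK κ L → Reg E} (h : ∀ q, q ≤ p → ¬ U.ae q φ) :
    U.ae p (fun x => (φ x).not) := by
  refine U.dense _ _ fun q hq => ?_
  obtain ⟨r, hr, h' | h'⟩ := U.ultra q φ
  · exact absurd h' (h r (hr.trans hq))
  · exact ⟨r, hr, h'⟩

/-- Almost all `x` satisfy one of fewer than `κ` alternatives, then some alternative holds for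
almost all `x`. -/
theorem ae_ex_small (hκ : ℵ₀ < κ) {ι : Type} (hι : #ι < κ) {p : E} {φ : ι → PK κ L → Reg E}
    (h : U.ae p (fun x => Reg.ex fun i => φ i x)) : ∃ q, q ≤ p ∧ ∃ i, U.ae q (φ i) := by
  by_contra hcon
  push Not at hcon
  have h1 : ∀ i, U.ae p (fun x => (φ i x).not) := fun i =>
    ae_not_of fun q hq => hcon q hq i
  have h2 := ae_and hκ (U.complete ι hι p _ h1) h
  obtain ⟨x, q, _, hall, hex⟩ := U.proper _ _ h2
  obtain ⟨r, hr, i, hi⟩ := hex q le_rfl
  exact hall i r hr hi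

/-- Almost all `x` are closed under a given function of two variables. -/
theorem ae_closed₂ (hκ : ℵ₀ < κ) (p : E) (f : L → L → Option L) :
    U.ae p (fun x => Reg.const (∀ a ∈ x.1, ∀ b ∈ x.1, ∀ c, f a b = some c → c ∈ x.1)) := by
  refine U.dense _ _ fun q _ => ?_
  obtain ⟨r, hr, h | h⟩ := U.ultra q
    (fun x => Reg.const (∀ a ∈ x.1, ∀ b ∈ x.1, ∀ c, f a b = some c → c ∈ x.1))
  · exact ⟨r, hr, h⟩
  exfalso
  have h1 : U.ae r (fun x => Reg.ex fun a : x.1 =>
      (Reg.const (∃ b ∈ x.1, ∃ c, f a b = some c ∧ c ∉ x.1) : Reg E)) := by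
    refine U.sup _ _ _ (fun x s hs hx => ?_) h
    have hx' := hx s le_rfl
    simp only [Reg.const] at hx'
    push Not at hx'
    obtain ⟨a, ha, b, hb, c, hc, hcx⟩ := hx'
    exact Reg.ex_of ⟨a, ha⟩ ⟨b, hb, c, hc, hcx⟩
  obtain ⟨s, hs, a, h2⟩ := U.normal r
    (fun a x => Reg.const (∃ b ∈ x.1, ∃ c, f a b = some c ∧ c ∉ x.1)) h1
  have h3 : U.ae s (fun x => Reg.ex fun b : x.1 =>
      (Reg.const (∃ c, f a b = some c ∧ c ∉ x.1) : Reg E)) := by
    refine U.sup _ _ _ (fun x t ht hx => ?_) h2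
    obtain ⟨b, hb, c, hc, hcx⟩ := hx
    exact Reg.ex_of ⟨b, hb⟩ ⟨c, hc, hcx⟩
  obtain ⟨t, ht, b, h4⟩ := U.normal s
    (fun b x => Reg.const (∃ c, f a b = some c ∧ c ∉ x.1)) h3
  rcases hfab : f a b with _ | c
  · obtain ⟨x, u, _, c, hc, _⟩ := U.proper _ _ h4
    rw [hfab] at hc
    exact absurd hc (by simp)
  · obtain ⟨x, u, _, ⟨c', hc', hcx⟩, hcx'⟩ := U.proper _ _ (ae_and hκ h4 (U.fine t c))
    rw [hfab] at hc'
    obtain rfl : c = c' := by simpa using hc'
    exact hcx hcx'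

theorem ae_const (p : E) (P : PK κ L → Prop) (h : ∀ x, P x) :
    U.ae p (fun x => Reg.const (P x)) := U.ae_true p _ fun x _ _ => h x

/-- Almost all `x` contain a given small set. -/
theorem ae_superset {ι : Type} (hι : #ι < κ) (p : E) (a : ι → L) :
    U.ae p (fun x => Reg.const (∀ i, a i ∈ x.1)) := by
  have h := U.complete ι hι p (fun i x => Reg.const (a i ∈ x.1)) (fun i => U.fine p (a i))
  exact weaken h fun x q _ hx i => hx i

end UltName

end CLC
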